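import Pool.Agent.H285R2.Col.Defs

/-! Task BA: basic facts about `pst` and `RC`. -/

set_option autoImplicit false

namespace Pool.Agent.H285R2.Col
open Finset Pool.Agent.H999R2.KSat

theorem pst_nonneg (k n m : ℕ) : 0 ≤ pst k n m := E_nonneg fun _ => ind_nonneg _

theorem pst_le_one (k n m : ℕ) : pst k n m ≤ 1 := E_le_of_nonneg zero_le_one fun _ => ind_le_one _

theorem pst_zero (k n : ℕ) (hk : 1 ≤ k) : pst k n 0 = 1 := by
  unfold pst
  have h : ∀ F : Fin 0 → Ed n, ind ((SolC k F).Nonempty) = 1 := fun F =>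
    ind_true ⟨fun _ => ⟨0, by omega⟩, fun j => j.elim0⟩
  rw [E_congr h]
  exact E_const 1

theorem pst_succ_le (k n m : ℕ) : pst k n (m + 1) ≤ pst k n m := by
  rcases isEmpty_or_nonempty (Ed n) with hX | hX
  · have : IsEmpty (Fin (m + 1) → Ed n) := ⟨fun F => hX.false (F 0)⟩
    have h0 : pst k n (m + 1) = 0 := by simp [pst, E]
    rw [h0]
    exact pst_nonneg k n m
  · have h1 : pst k n (m + 1) = E (fun x : Ed n => E (fun G : Fin m → Ed n =>
        ind ((SolC k (Fin.cons x G : Fin (m + 1) → Ed n)).Nonempty))) := by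
      unfold pst
      exact E_cons (X := Ed n) (fun F => ind ((SolC k F).Nonempty))
    rw [h1]
    refine E_le_const fun x => ?_
    unfold pst
    refine E_mono fun G => ind_mono ?_
    rintro ⟨a, ha⟩
    refine ⟨a, fun j => ?_⟩
    have := ha j.succ
    rwa [Fin.cons_succ] at this

theorem RC_nonneg {n k : ℕ} (s : ℕ) (A : Set (Cg n k)) : 0 ≤ RC s A :=
  E_nonneg fun _ => Finset.sum_nonneg fun _ _ => ind_nonneg _

theorem RC_mono {n k : ℕ} (s : ℕ) {A B : Set (Cg n k)} (h : A ⊆ B) : RC s A ≤ RC s B := by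
  refine E_mono fun W => Finset.sum_le_sum fun u _ => ind_mono ?_
  rintro ⟨a, ha, hW⟩
  exact ⟨a, h ha, hW⟩

theorem RC_empty {n : ℕ} (k s : ℕ) : RC s (∅ : Set (Cg n k)) = 0 := by
  unfold RC
  have h : ∀ W : Fin s → Ed n, ∑ u ∈ range s, ind (cut (∅ : Set (Cg n k)) W u).Nonempty = 0 := by
    intro W
    refine Finset.sum_eq_zero fun u _ => ind_false ?_
    rintro ⟨a, ha, -⟩
    exact ha
  rw [E_congr h]
  exact E_zero

theorem E_RC_ge (k n m s : ℕ) :
    (s : ℝ) * pst k n (m + s) ≤ E (fun F : Fin m → Ed n => RC s (SolC k F)) := by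
  have h1 : (s : ℝ) * pst k n (m + s) = E (fun F : Fin m → Ed n =>
      E (fun W : Fin s → Ed n => ∑ _u ∈ range s, ind ((SolC k (Fin.append F W)).Nonempty))) := by
    unfold pst
    rw [E_append (X := Ed n) (fun F => ind ((SolC k F).Nonempty)), ← E_mul_left]
    refine E_congr fun F => ?_
    rw [← E_mul_left]
    refine E_congr fun W => ?_
    rw [Finset.sum_const, Finset.card_range, nsmul_eq_mul]
  rw [h1]
  refine E_mono fun F => ?_
  unfold RC
  refine E_mono fun W => Finset.sum_le_sum fun u _ => ind_mono ?_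
  rintro ⟨a, ha⟩
  refine ⟨a, fun j => ?_, fun l _ => ?_⟩
  · have := ha (Fin.castAdd s j)
    rwa [Fin.append_left] at this
  · have := ha (Fin.natAdd m l)
    rwa [Fin.append_right] at this

end Pool.Agent.H285R2.Col
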