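import Pool.Agent.H285R2.Col.Defs

/-! Blueprint: exact statements of the tasks (proofs sorry). Import `Pool.Agent.H285R2.Col.Defs`
(and finished modules), never this file. -/

set_option autoImplicit false

namespace Pool.Agent.H285R2.Col
open Finset Filter Pool.Agent.H999R2.KSat

/-! ### Task PR: averages over edges -/
theorem E_Ed {n : ℕ} (hn : 2 ≤ n) (f : Fin n → Fin n → ℝ) :
    E (fun e : Ed n => f e.1.1 e.1.2) =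
      ((n : ℝ) / (n - 1)) * E (fun x : Fin n => E (fun y : Fin n => ind (x ≠ y) * f x y)) := by
  sorry

/-- both endpoints of a random edge lie in `Z` -/
theorem pr_pair {n : ℕ} (hn : 2 ≤ n) (Z : Fin n → Prop) :
    E (fun z => ind (Z z)) * (E (fun z => ind (Z z)) - 1 / n) ≤
      E (fun e : Ed n => ind (Z e.1.1 ∧ Z e.1.2)) := by
  sorry

theorem E_inc {n : ℕ} (hn : 2 ≤ n) (v : Fin n) (h : Fin n → ℝ) (h0 : ∀ y, 0 ≤ h y) :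
    E (fun e : Ed n => ind (inc e v) * h (oth e v)) ≤ 2 / ((n : ℝ) - 1) * E h := by
  sorry

/-- averages of indicators over `Fin n` are multiples of `1/n` -/
theorem E_ind_mul_nonneg {n : ℕ} (Z : Fin n → Prop) :
    0 ≤ E (fun z => ind (Z z)) * (E (fun z => ind (Z z)) - 1 / n) := by
  sorry

/-! ### Task KS: telescoping -/
theorem kill_sum {n k N : ℕ} (S : Set (Fin n)) (t0 : ℕ)
    (Q : ℕ → (Fin N → Ed n) → Set (Cg n k)) (hQ : Proc S t0 Q) :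
    ∑ M ∈ Ico t0 N, E (fun ω => ind (Q M ω).Nonempty *
      E (fun e : Ed n => ind (av S e ∧ ∀ a ∈ Q M ω, ¬ ok a e))) ≤ 1 := by
  sorry

theorem xi_sq_sum {n k N : ℕ} (hn : 2 ≤ n) (S : Set (Fin n)) (c : Fin k) (t0 : ℕ)
    (Q : ℕ → (Fin N → Ed n) → Set (Cg n k)) (hQ : Proc S t0 Q) :
    ∑ M ∈ Ico t0 N, E (fun ω => ind (Q M ω).Nonempty *
      (xi S c (Q M ω) * (xi S c (Q M ω) - 1 / n))) ≤ 1 := by
  sorry

theorem xi_sum {n k N : ℕ} (hn : 2 ≤ n) (S : Set (Fin n)) (c : Fin k) (t0 : ℕ) (ht0 : t0 ≤ N)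
    (Q : ℕ → (Fin N → Ed n) → Set (Cg n k)) (hQ : Proc S t0 Q) (lam : ℝ) (hlam : 0 < lam) :
    ∑ M ∈ Ico t0 N, E (fun ω => ind (Q M ω).Nonempty * xi S c (Q M ω)) ≤
      ((N : ℝ) - t0) * (1 / n + lam) + 1 / lam := by
  sorry

/-! ### Task F2 (uses KS, PR) -/
theorem f2_sum {n k N : ℕ} (T : ℕ) (hn : 2 ≤ n) (hT : 1 ≤ T) (hTn : T ^ 10 ≤ n)
    (S : Set (Fin n)) (p q : Fin k) (t0 : ℕ) (ht0 : t0 ≤ N) (hN : N ≤ t0 + T ^ 10)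
    (X : ℕ → (Fin N → Ed n) → Set (Cg n k)) (hX : Proc S t0 X)
    (Y : Fin n → ℕ → (Fin N → Ed n) → Set (Cg n k)) (hY : ∀ y, Proc S t0 (Y y)) :
    ∑ M ∈ Ico t0 N, E (fun ω => E (fun y : Fin n => E (fun z : Fin n =>
      ind (f2 S p q (X M ω) (Y y M ω) y z)))) ≤ 7 * (T : ℝ) ^ 4 := by
  sorry

/-! ### Task IK1 (uses PR) -/
theorem ik_symm {n k : ℕ} (S : Set (Fin n)) (q : Fin k) (Q : Set (Cg n k)) (y z : Fin n) :
    ik S q Q y z ↔ ik S q Q z y := by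
  sorry

theorem beta_sq_sum {n k N : ℕ} (hn : 2 ≤ n) (S : Set (Fin n)) (q : Fin k) (t0 : ℕ)
    (Q : ℕ → (Fin N → Ed n) → Set (Cg n k)) (hQ : Proc S t0 Q) (y : Fin n) :
    ∑ M ∈ Ico t0 N, E (fun ω =>
      beta S q (Q M ω) y * (beta S q (Q M ω) y - 1 / n)) ≤ 1 := by
  sorry

/-! ### Task IK2 (uses PR, ik_symm): the key lemma -/
theorem betao_sq_sum {n k N : ℕ} (hn : 2 ≤ n) (S : Set (Fin n)) (q : Fin k) (t0 : ℕ)
    (η : ℝ) (hη : 0 ≤ η) (Q : ℕ → (Fin N → Ed n) → Set (Cg n k)) (hQ : Proc S t0 Q) :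
    ∑ M ∈ Ico t0 N, E (fun ω => ind (good S q η (Q M ω)) *
      E (fun y : Fin n => betao S q η (Q M ω) y * (betao S q η (Q M ω) y - 1 / n))) ≤
      2 * η := by
  sorry

/-! ### Task IK3 (uses IK1, IK2, KS) -/
theorem ik_sum {n k N : ℕ} (T : ℕ) (hn : 2 ≤ n) (hT : 1 ≤ T) (hTn : T ^ 10 ≤ n)
    (S : Set (Fin n)) (q : Fin k) (t0 : ℕ) (ht0 : t0 ≤ N) (hN : N ≤ t0 + T ^ 10)
    (Q : ℕ → (Fin N → Ed n) → Set (Cg n k)) (hQ : Proc S t0 Q) :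
    ∑ M ∈ Ico t0 N, E (fun ω => E (fun y : Fin n => E (fun z : Fin n =>
      ind (ik S q (Q M ω) y z)))) ≤ 10 * (T : ℝ) ^ 4 := by
  sorry

/-! ### Task DD (uses KS, PR): effect of one random edge -/
theorem delta_le {n k : ℕ} (T : ℕ) (hn : 2 ≤ n) (hT : 1 ≤ T) (A : Set (Cg n k)) :
    E (fun e : Ed n => (RC (T ^ 10) A - RC (T ^ 10) (A ∩ {a | ok a e})) ^ 2) ≤
      2 * (T : ℝ) ^ 5 * E (fun v : Fin n => D1 (T ^ 10) A v) := by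
  sorry

/-! ### Task LK -/
theorem D1_link (n k m s : ℕ) :
    E (fun G : Fin m → Ed n => E (fun v : Fin n => D1 s (SolC k G) v)) =
      E (fun ω : Fin (m + s) → Ed n => E (fun v : Fin n =>
        ∑ u ∈ range s, ind (nontriv (PS k (m + u) ω) v))) := by
  sorry

/-! ### Task CH (deterministic) -/
/-- least index principle -/
theorem least_index {α : Type} {N : ℕ} (C : Set α) (hC : C.Nonempty) (I : Fin N → Prop)
    (R : α → Fin N → Prop) (h : ¬ ∃ a ∈ C, ∀ i, I i → R a i) :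
    ∃ i, I i ∧ (∃ a ∈ C, ∀ i', i' < i → I i' → R a i') ∧
      ∀ a ∈ C, (∀ i', i' < i → I i' → R a i') → ¬ R a i := by
  sorry

theorem chain_det {n k N : ℕ} (c p q : Fin k) (hcp : c ≠ p) (hcq : c ≠ q) (hpq : p ≠ q)
    (ω : Fin N → Ed n) (M : ℕ) (v : Fin n) (h : nontriv (PS k M ω) v) :
    Tri ω v ∨ ∃ j i0 i1 i2 : Fin N, Dis j i0 i1 i2 ∧ Chain c p q v j i0 i1 i2 M ω := by
  sorry

/-! ### Task SR (uses F2, IK3) -/
theorem Rel_sum {n k N : ℕ} (T : ℕ) (hn : 2 ≤ n) (hT : 1 ≤ T) (hTn : T ^ 10 ≤ n)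
    (c p q : Fin k) (v w x : Fin n) (j i0 i1 i2 : Fin N) (t0 : ℕ) (ht0 : t0 ≤ N)
    (hN : N ≤ t0 + T ^ 10) (hj : j.val < t0) (h0 : i0.val < t0) (h1 : i1.val < t0)
    (h2 : i2.val < t0) :
    ∑ M ∈ Ico t0 N, E (fun ω : Fin N → Ed n => E (fun y : Fin n => E (fun z : Fin n =>
      ind (Rel c p q v w x j i0 i1 i2 M ω y z)))) ≤ 34 * (T : ℝ) ^ 4 := by
  sorry

/-! ### Task EX (uses SR, E_inc) -/
theorem chain_sum {n k N : ℕ} (T m : ℕ) (hn : 2 ≤ n) (hT : 1 ≤ T) (hTn : T ^ 10 ≤ n)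
    (hN : N = m + T ^ 10) (c p q : Fin k) (v : Fin n) (j i0 i1 i2 : Fin N)
    (hd : Dis j i0 i1 i2) :
    ∑ M ∈ Ico m N, E (fun ω : Fin N → Ed n => ind (Chain c p q v j i0 i1 i2 M ω)) ≤
      (2 / ((n : ℝ) - 1)) ^ 4 * (34 * (T : ℝ) ^ 4) := by
  sorry

/-! ### Task TR (uses E_inc) -/
theorem tri_prob {n : ℕ} (N : ℕ) (hn : 2 ≤ n) (v : Fin n) :
    E (fun ω : Fin N → Ed n => ind (Tri ω v)) ≤
      (N : ℝ) ^ 3 * ((2 / ((n : ℝ) - 1)) ^ 3 * (1 / n)) := by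
  sorry

/-! ### Task AS (uses CH, EX, TR) -/
theorem nontriv_sum {n k : ℕ} (T m : ℕ) (hk : 3 ≤ k) (hn : 2 ≤ n) (hT : 1 ≤ T)
    (hTn : T ^ 10 ≤ n) (v : Fin n) :
    E (fun ω : Fin (m + T ^ 10) → Ed n =>
        ∑ u ∈ range (T ^ 10), ind (nontriv (PS k (m + u) ω) v)) ≤
      ((m : ℝ) + (T : ℝ) ^ 10) ^ 4 * ((2 / ((n : ℝ) - 1)) ^ 4 * (34 * (T : ℝ) ^ 4)) +
      (T : ℝ) ^ 10 * (((m : ℝ) + (T : ℝ) ^ 10) ^ 3 * ((2 / ((n : ℝ) - 1)) ^ 3 * (1 / n))) := by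
  sorry

/-! ### Task BA (basic facts about `pst`, `RC`) -/
theorem pst_zero (k n : ℕ) (hk : 1 ≤ k) : pst k n 0 = 1 := by
  sorry
theorem pst_nonneg (k n m : ℕ) : 0 ≤ pst k n m := by
  sorry
theorem pst_le_one (k n m : ℕ) : pst k n m ≤ 1 := by
  sorry
theorem pst_succ_le (k n m : ℕ) : pst k n (m + 1) ≤ pst k n m := by
  sorry
theorem RC_nonneg {n k : ℕ} (s : ℕ) (A : Set (Cg n k)) : 0 ≤ RC s A := by
  sorry
theorem RC_mono {n k : ℕ} (s : ℕ) {A B : Set (Cg n k)} (h : A ⊆ B) : RC s A ≤ RC s B := by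
  sorry
theorem RC_empty {n : ℕ} (k s : ℕ) : RC s (∅ : Set (Cg n k)) = 0 := by
  sorry
theorem E_RC_ge (k n m s : ℕ) :
    (s : ℝ) * pst k n (m + s) ≤ E (fun F : Fin m → Ed n => RC s (SolC k F)) := by
  sorry

/-! ### Task FM (first moment) -/
theorem pst_first_moment (k n m : ℕ) (hk : 1 ≤ k) (hn : 2 * k ≤ n) :
    pst k n m ≤ (k : ℝ) ^ n * (1 - 1 / (2 * k)) ^ m := by
  sorry

/-! ### Task SH (uses ES, DD, LK, AS, BA) -/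
theorem sharp_genC (k n m T : ℕ) (hk : 3 ≤ k) (hn : 2 ≤ n) (hT : 1 ≤ T) (hTn : T ^ 10 ≤ n) :
    (1 - pst k n m) * (((T : ℝ) ^ 10) * pst k n (m + T ^ 10)) ^ 2 ≤
      m * (2 * (T : ℝ) ^ 5 *
      (((m : ℝ) + (T : ℝ) ^ 10) ^ 4 * ((2 / ((n : ℝ) - 1)) ^ 4 * (34 * (T : ℝ) ^ 4)) +
      (T : ℝ) ^ 10 * (((m : ℝ) + (T : ℝ) ^ 10) ^ 3 * ((2 / ((n : ℝ) - 1)) ^ 3 * (1 / n))))) := by
  sorry

/-! ### Task SA (pure algebra from sharp_genC) -/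
theorem sharpC (k : ℕ) (hk : 3 ≤ k) (Λ : ℝ) : ∃ C : ℝ, 0 < C ∧ ∀ n m T : ℕ, 2 ≤ n → 1 ≤ T →
    T ^ 10 ≤ n → (m : ℝ) + (T : ℝ) ^ 10 ≤ Λ * n →
    (1 - pst k n m) * pst k n (m + T ^ 10) ^ 2 ≤ C * n / (T : ℝ) ^ 11 := by
  sorry

/-! ### Task ON (one edge: split against whole) -/
theorem one_edge (N1 N2 : ℕ) (h1 : 0 < N1) (h2 : 0 < N2) {γ : Type} (f : Fin (N1 + N2) → γ) :
    E (fun e : Fin (N1 + N2) × Fin (N1 + N2) => ind (f e.1 = f e.2)) ≤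
      ((N1 : ℝ) / (N1 + N2)) * E (fun e : Fin N1 × Fin N1 =>
        ind (f (Fin.castAdd N2 e.1) = f (Fin.castAdd N2 e.2))) +
      ((N2 : ℝ) / (N1 + N2)) * E (fun e : Fin N2 × Fin N2 =>
        ind (f (Fin.natAdd N1 e.1) = f (Fin.natAdd N1 e.2))) := by
  sorry

/-! ### Task IN (interpolation, uses ON) -/
theorem interpC (N1 N2 k m : ℕ) (h1 : 0 < N1) (h2 : 0 < N2)
    (A1 : Set (Cg N1 k)) (A2 : Set (Cg N2 k)) :
    ∑ j ∈ range (m + 1), (m.choose j : ℝ) * ((N1 : ℝ) / (N1 + N2)) ^ j *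
      ((N2 : ℝ) / (N1 + N2)) ^ (m - j) * (svp j A1 * svp (m - j) A2) ≤
      svp m (rectC A1 A2) := by
  sorry

/-! ### Task SM (supermultiplicativity, from IN) -/
theorem super_twoC (N1 N2 k m m1 m2 : ℕ) (d : ℝ) (h1 : 0 < N1) (h2 : 0 < N2)
    (hd : 0 ≤ d) (hdm : 4 * (m : ℝ) ≤ d ^ 2)
    (hm1 : m * (N1 : ℝ) / (N1 + N2) + d ≤ m1) (hm2 : m * (N2 : ℝ) / (N1 + N2) + d ≤ m2) :
    1 / 2 * (plp k N1 m1 * plp k N2 m2) ≤ plp k (N1 + N2) m := by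
  sorry

/-! ### Task LP (loops) -/
theorem plp_eq (k n m : ℕ) (hn : 1 ≤ n) :
    plp k n m = (((n : ℝ) - 1) / n) ^ m * pst k n m := by
  sorry

/-! ### Task HT (uses SM, LP) -/
theorem htwoC (k : ℕ) (Λ : ℝ) : ∃ c : ℝ, 0 < c ∧ ∀ (N1 N2 m m1 m2 : ℕ) (d : ℝ), 2 ≤ N1 →
    2 ≤ N2 → (m1 : ℝ) ≤ Λ * N1 → (m2 : ℝ) ≤ Λ * N2 → 0 ≤ d → 4 * (m : ℝ) ≤ d ^ 2 →
    m * (N1 : ℝ) / (N1 + N2) + d ≤ m1 → m * (N2 : ℝ) / (N1 + N2) + d ≤ m2 →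
    c * (pst k N1 m1 * pst k N2 m2) ≤ pst k (N1 + N2) m := by
  sorry

/-! ### Task HO (one more vertex) -/
theorem honeC (k : ℕ) (hk : 1 ≤ k) (Λ : ℝ) : ∃ c : ℝ, 0 < c ∧ ∀ n m : ℕ, 2 ≤ n →
    (m : ℝ) ≤ Λ * n → c * pst k n m ≤ pst k (n + 1) m := by
  sorry

/-! ### Task SQ: `Pool.Agent.H999R2.KSat.seq_lemma` -/
theorem seq_lemma' (r : ℕ → ℝ) (c C Λ : ℝ) (n0 : ℕ) (hc : 0 < c) (hC : 0 < C)
    (hr0 : ∀ n, 0 ≤ r n) (hrΛ : ∀ n, r n ≤ Λ)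
    (h2 : ∀ N1 N2 : ℕ, n0 ≤ N1 → n0 ≤ N2 → N1 + N2 ≤ 4 * N1 → N1 + N2 ≤ 4 * N2 →
      min (r N1) (r N2) - C * ((N1 + N2 : ℕ) : ℝ) ^ (-c) ≤ r (N1 + N2))
    (h1 : ∀ N : ℕ, n0 ≤ N → r N - C * (N : ℝ) ^ (-c) ≤ r (N + 1)) :
    ∃ L : ℝ, Tendsto r atTop (nhds L) := by
  sorry

/-! ### Task CV1 -/
theorem HypC.le_one {n1 : ℕ} {p : ℕ → ℕ → ℝ} (h : HypC n1 p) (n m : ℕ) (hn : n1 ≤ n) :
    p n m ≤ 1 := by
  sorry
theorem HypC.anti {n1 : ℕ} {p : ℕ → ℕ → ℝ} (h : HypC n1 p) (n : ℕ) {m m' : ℕ} (hm : m ≤ m') :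
    p n m' ≤ p n m := by
  sorry
theorem HypC.first_bound {n1 : ℕ} {p : ℕ → ℕ → ℝ} (h : HypC n1 p) (δ : ℝ) (hδ : 0 < δ) :
    ∃ Λ : ℝ, 0 < Λ ∧ ∀ n m : ℕ, n1 ≤ n → δ ≤ p n m → (m : ℝ) ≤ Λ * n := by
  sorry
theorem HypC.MxC_spec {n1 : ℕ} {p : ℕ → ℕ → ℝ} (h : HypC n1 p) (n : ℕ) (hn : n1 ≤ n) :
    1 / 2 ≤ p n (MxC p n) ∧ ∀ m, 1 / 2 ≤ p n m → m ≤ MxC p n := by
  sorry

/-! ### Task CV2 (uses CV1) -/
theorem TnC_bounds (n : ℕ) (hn : 0 < n) :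
    1 ≤ TnC n ∧ (TnC n) ^ 10 ≤ n ∧ (TnC n : ℝ) ^ 10 ≤ (n : ℝ) ^ (1 - (1 : ℝ) / 21) := by
  sorry
theorem TnC_tendsto :
    Tendsto (fun n : ℕ => (n : ℝ) / (TnC n : ℝ) ^ 11) atTop (nhds 0) := by
  sorry
theorem HypC.stepA {n1 : ℕ} {p : ℕ → ℕ → ℝ} (h : HypC n1 p) (δ : ℝ) (hδ : 0 < δ) :
    ∃ n0 : ℕ, ∀ n m : ℕ, n0 ≤ n → δ ≤ p n m →
      (m : ℝ) ≤ MxC p n + (n : ℝ) ^ (1 - (1 : ℝ) / 21) := by
  sorry
theorem HypC.stepA' {n1 : ℕ} {p : ℕ → ℕ → ℝ} (h : HypC n1 p) (ε : ℝ) (hε : 0 < ε) :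
    ∃ n0 : ℕ, ∀ n m : ℕ, n0 ≤ n →
      (m : ℝ) + (n : ℝ) ^ (1 - (1 : ℝ) / 21) ≤ MxC p n → 1 - ε ≤ p n m := by
  sorry

/-! ### Task CV3 (uses CV1, CV2) -/
theorem HypC.stepB {n1 : ℕ} {p : ℕ → ℕ → ℝ} (h : HypC n1 p) :
    ∃ C : ℝ, 0 < C ∧ ∃ n0 : ℕ, ∀ N1 N2 : ℕ, n0 ≤ N1 → n0 ≤ N2 →
      N1 + N2 ≤ 4 * N1 → N1 + N2 ≤ 4 * N2 →
      min ((MxC p N1 : ℝ) / N1) ((MxC p N2 : ℝ) / N2) -
        C * ((N1 + N2 : ℕ) : ℝ) ^ (-((1 : ℝ) / 21)) ≤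
        (MxC p (N1 + N2) : ℝ) / ((N1 + N2 : ℕ) : ℝ) := by
  sorry

/-! ### Task CV4 (uses CV1, CV2) -/
theorem HypC.stepC {n1 : ℕ} {p : ℕ → ℕ → ℝ} (h : HypC n1 p) :
    ∃ C : ℝ, 0 < C ∧ ∃ n0 : ℕ, ∀ N : ℕ, n0 ≤ N →
      (MxC p N : ℝ) / N - C * (N : ℝ) ^ (-((1 : ℝ) / 21)) ≤
        (MxC p (N + 1) : ℝ) / ((N + 1 : ℕ) : ℝ) := by
  sorry

/-! ### Task CV5 (uses SQ, CV1-CV4) -/
theorem HypC.convergence {n1 : ℕ} {p : ℕ → ℕ → ℝ} (h : HypC n1 p) :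
    ∃ rs : ℝ, (∀ r, r < rs → Tendsto (fun n : ℕ => p n ⌊r * (n : ℝ)⌋₊) atTop (nhds 1)) ∧
      (∀ r, rs < r → Tendsto (fun n : ℕ => p n ⌊r * (n : ℝ)⌋₊) atTop (nhds 0)) := by
  sorry

/-! ### Task TC (counting: sequences of distinct edges vs graphs) -/
open Classical in
/-- number of sequences of `m` edges that are pairwise different as unordered pairs -/
noncomputable def dcC (n m : ℕ) : ℕ :=
  (univ.filter (fun F : Fin m → Ed n =>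
    Function.Injective (fun i => s((F i).1.1, (F i).1.2)))).card

open Classical in
/-- the same, `k`-colourable -/
noncomputable def dscC (k n m : ℕ) : ℕ :=
  (univ.filter (fun F : Fin m → Ed n =>
    Function.Injective (fun i => s((F i).1.1, (F i).1.2)) ∧ (SolC k F).Nonempty)).card

theorem den_countC (n m : ℕ) :
    Nat.card {G : SimpleGraph (Fin n) // G.edgeSet.ncard = m} * (2 ^ m * m.factorial) =
      dcC n m := by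
  sorry

theorem num_countC (k n m : ℕ) :
    Nat.card {G : SimpleGraph (Fin n) // G.edgeSet.ncard = m ∧ G.Colorable k} *
      (2 ^ m * m.factorial) = dscC k n m := by
  sorry

/-! ### Task TL -/
theorem dcC_lower (Λ : ℝ) : ∃ c : ℝ, 0 < c ∧ ∃ n0 : ℕ, ∀ n m : ℕ, n0 ≤ n →
    (m : ℝ) ≤ Λ * n → c * ((n : ℝ) * (n - 1)) ^ m ≤ dcC n m := by
  sorry
theorem dscC_le (k n m : ℕ) : (dscC k n m : ℝ) ≤ pst k n m * ((n : ℝ) * (n - 1)) ^ m := by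
  sorry
theorem dcC_sub_le (k n m : ℕ) :
    (dcC n m : ℝ) - dscC k n m ≤ (1 - pst k n m) * ((n : ℝ) * (n - 1)) ^ m := by
  sorry
theorem dscC_le_dcC (k n m : ℕ) : dscC k n m ≤ dcC n m := by
  sorry

/-! ### Task TT (limit transfer, uses TC, TL) -/
theorem transferC (k : ℕ) (rs : ℝ)
    (h1 : ∀ r, r < rs → Tendsto (fun n : ℕ => pst k n ⌊r * (n : ℝ)⌋₊) atTop (nhds 1))
    (h0 : ∀ r, rs < r → Tendsto (fun n : ℕ => pst k n ⌊r * (n : ℝ)⌋₊) atTop (nhds 0))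
    (ε : ℝ) (hε : 0 < ε) :
      Filter.Tendsto
        (fun n : ℕ =>
          (Nat.card {G : SimpleGraph (Fin n) //
              G.edgeSet.ncard = ⌊(rs - ε) * (n : ℝ)⌋₊ ∧ G.Colorable k} : ℝ) /
          (Nat.card {G : SimpleGraph (Fin n) //
              G.edgeSet.ncard = ⌊(rs - ε) * (n : ℝ)⌋₊} : ℝ))
        Filter.atTop (nhds 1) ∧
      Filter.Tendsto
        (fun n : ℕ =>
          (Nat.card {G : SimpleGraph (Fin n) //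
              G.edgeSet.ncard = ⌊(rs + ε) * (n : ℝ)⌋₊ ∧ G.Colorable k} : ℝ) /
          (Nat.card {G : SimpleGraph (Fin n) //
              G.edgeSet.ncard = ⌊(rs + ε) * (n : ℝ)⌋₊} : ℝ))
        Filter.atTop (nhds 0) := by
  sorry

/-! ### The frozen statement S13275, by assembly -/
theorem mainC :
    ∀ k : ℕ, 3 ≤ k → ∃ c : ℝ, ∀ ε : ℝ, 0 < ε →
      Filter.Tendsto
        (fun n : ℕ =>
          (Nat.card {G : SimpleGraph (Fin n) //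
              G.edgeSet.ncard = ⌊(c - ε) * (n : ℝ)⌋₊ ∧ G.Colorable k} : ℝ) /
          (Nat.card {G : SimpleGraph (Fin n) //
              G.edgeSet.ncard = ⌊(c - ε) * (n : ℝ)⌋₊} : ℝ))
        Filter.atTop (nhds 1) ∧
      Filter.Tendsto
        (fun n : ℕ =>
          (Nat.card {G : SimpleGraph (Fin n) //
              G.edgeSet.ncard = ⌊(c + ε) * (n : ℝ)⌋₊ ∧ G.Colorable k} : ℝ) /
          (Nat.card {G : SimpleGraph (Fin n) //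
              G.edgeSet.ncard = ⌊(c + ε) * (n : ℝ)⌋₊} : ℝ))
        Filter.atTop (nhds 0) := by
  intro k hk
  have hyp : HypC (2 * k) (fun n m => pst k n m) :=
    { hn1 := by omega
      h0 := fun n _ => pst_zero k n (by omega)
      hnn := fun n m => pst_nonneg k n m
      hanti := fun n m => pst_succ_le k n m
      hfm := ⟨k, 1 - 1 / (2 * k), by exact_mod_cast (by omega : 1 ≤ k), by
          have hk' : (3 : ℝ) ≤ k := by exact_mod_cast hk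
          have : (1 : ℝ) / (2 * k) ≤ 1 := by
            rw [div_le_one (by linarith)]; linarith
          linarith, by
          have hk' : (3 : ℝ) ≤ k := by exact_mod_cast hk
          have : (0 : ℝ) < 1 / (2 * k) := by positivity
          linarith, fun n m hn => pst_first_moment k n m (by omega) hn⟩
      hsharp := by
        intro Λ
        obtain ⟨C, hC, h⟩ := sharpC k hk Λ
        exact ⟨C, hC, fun n m T hn hT hTn hm => h n m T (by omega) hT hTn hm⟩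
      hone := by
        intro Λ
        obtain ⟨c, hc, h⟩ := honeC k (by omega) Λ
        exact ⟨c, hc, fun n m hn hm => h n m (by omega) hm⟩
      htwo := by
        intro Λ
        obtain ⟨c, hc, h⟩ := htwoC k Λ
        exact ⟨c, hc, fun N1 N2 m m1 m2 d h1 h2 => h N1 N2 m m1 m2 d (by omega) (by omega)⟩ }
  obtain ⟨rs, h1, h0⟩ := hyp.convergence
  exact ⟨rs, fun ε hε => transferC k rs h1 h0 ε hε⟩

end Pool.Agent.H285R2.Col
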