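import Pool.Agent.H285R2.Col.Defs

/-! Task CH: the deterministic chain. -/

set_option autoImplicit false

namespace Pool.Agent.H285R2.Col
open Finset Filter Pool.Agent.H999R2.KSat

/-- least index principle -/
theorem least_index {α : Type} {N : ℕ} (C : Set α) (hC : C.Nonempty) (I : Fin N → Prop)
    (R : α → Fin N → Prop) (h : ¬ ∃ a ∈ C, ∀ i, I i → R a i) :
    ∃ i, I i ∧ (∃ a ∈ C, ∀ i', i' < i → I i' → R a i') ∧
      ∀ a ∈ C, (∀ i', i' < i → I i' → R a i') → ¬ R a i := by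
  classical
  have hex : ∃ m : ℕ, ¬ ∃ a ∈ C, ∀ i : Fin N, i.val < m → I i → R a i := by
    refine ⟨N, ?_⟩
    rintro ⟨a, ha, hR⟩
    exact h ⟨a, ha, fun i hi => hR i i.2 hi⟩
  obtain ⟨m, hm, hmin⟩ : ∃ m : ℕ, (¬ ∃ a ∈ C, ∀ i : Fin N, i.val < m → I i → R a i) ∧
      ∀ m' < m, ∃ a ∈ C, ∀ i : Fin N, i.val < m' → I i → R a i := by
    refine ⟨Nat.find hex, Nat.find_spec hex, fun m' hm' => ?_⟩
    have := Nat.find_min hex hm'
    push Not at this
    exact this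
  have hm0 : m ≠ 0 := by
    rintro rfl
    obtain ⟨a, ha⟩ := hC
    exact hm ⟨a, ha, fun i hi => absurd hi (Nat.not_lt_zero _)⟩
  obtain ⟨m', rfl⟩ := Nat.exists_eq_succ_of_ne_zero hm0
  obtain ⟨a, ha, haR⟩ := hmin m' (Nat.lt_succ_self m')
  have hmN : m' < N := by
    by_contra hcon
    exact h ⟨a, ha, fun i hi => haR i (lt_of_lt_of_le i.2 (not_lt.mp hcon)) hi⟩
  have key : ∀ b ∈ C, (∀ i' : Fin N, i' < ⟨m', hmN⟩ → I i' → R b i') →
      ¬ (I ⟨m', hmN⟩ → R b ⟨m', hmN⟩) := by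
    intro b hb hbR hlast
    apply hm
    refine ⟨b, hb, fun i hi hI => ?_⟩
    rcases Nat.lt_succ_iff_lt_or_eq.mp hi with h1 | h1
    · exact hbR i h1 hI
    · have : i = ⟨m', hmN⟩ := Fin.ext h1
      subst this
      exact hlast hI
  have hIi : I ⟨m', hmN⟩ := by
    by_contra hI
    exact key a ha (fun i' hi' hI' => haR i' hi' hI') fun hI' => absurd hI' hI
  exact ⟨⟨m', hmN⟩, hIi, ⟨a, ha, fun i' hi' hI' => haR i' hi' hI'⟩,
    fun b hb hbR hR => key b hb hbR fun _ => hR⟩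

/-! ### incidence -/

lemma ch_ok_inc {n k : ℕ} {e : Ed n} {v : Fin n} (h : inc e v) (a : Cg n k) :
    ok a e ↔ a v ≠ a (oth e v) := by
  unfold inc at h
  unfold ok oth
  rcases h with h | h
  · rw [if_pos h, h]
  · have h1 : e.1.1 ≠ v := fun h2 => e.2 (h2.trans h.symm)
    rw [if_neg h1, h]
    exact ⟨fun h => h.symm, fun h => h.symm⟩

lemma ch_oth_ne {n : ℕ} {e : Ed n} {v : Fin n} (h : inc e v) : oth e v ≠ v := by
  unfold inc at h
  unfold oth
  rcases h with h | h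
  · rw [if_pos h]
    exact fun h2 => e.2 (h.trans h2.symm)
  · have h1 : e.1.1 ≠ v := fun h2 => e.2 (h2.trans h.symm)
    rw [if_neg h1]
    exact h1

lemma ch_inc_oth {n : ℕ} {e : Ed n} {v : Fin n} (h : inc e v) : inc e (oth e v) := by
  unfold inc at h ⊢
  unfold oth
  rcases h with h | h
  · rw [if_pos h]
    exact Or.inr rfl
  · have h1 : e.1.1 ≠ v := fun h2 => e.2 (h2.trans h.symm)
    rw [if_neg h1]
    exact Or.inl rfl

lemma ch_ok_update {n k : ℕ} {e : Ed n} {v : Fin n} (h : ¬ inc e v) (a : Cg n k) (d : Fin k) :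
    ok (Function.update a v d) e ↔ ok a e := by
  unfold inc at h
  push Not at h
  unfold ok
  rw [Function.update_of_ne h.1, Function.update_of_ne h.2]

lemma ch_ok_update_inc {n k : ℕ} {e : Ed n} {v : Fin n} (h : inc e v) (a : Cg n k) (d : Fin k) :
    ok (Function.update a v d) e ↔ d ≠ a (oth e v) := by
  rw [ch_ok_inc h, Function.update_self, Function.update_of_ne (ch_oth_ne h)]

lemma ch_av {n : ℕ} {e : Ed n} {v w x : Fin n} :
    av {v, w, x} e ↔ ¬ inc e v ∧ ¬ inc e w ∧ ¬ inc e x := by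
  unfold av inc
  simp only [Set.mem_insert_iff, Set.mem_singleton_iff]
  tauto

/-! ### the base sets without exclusions -/

/-- the base set of step 4 -/
def ch_C {n k N : ℕ} (c : Fin k) (v w x : Fin n) (j i0 : Fin N) (M : ℕ)
    (ω : Fin N → Ed n) : Set (Cg n k) :=
  {a | (∀ i : Fin N, i.val < M → av {v, w, x} (ω i) → ok a (ω i)) ∧
    (∀ i : Fin N, i < j → inc (ω i) v → a (oth (ω i) v) = c) ∧
    (∀ i : Fin N, i < i0 → inc (ω i) w → ¬ inc (ω i) v → a (oth (ω i) w) ≠ c)}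

/-- the special edges at `x` -/
def ch_I {n N : ℕ} (v w x : Fin n) (ω : Fin N → Ed n) (i : Fin N) : Prop :=
  inc (ω i) x ∧ ¬ inc (ω i) v ∧ ¬ inc (ω i) w

lemma ch_CB {n k N : ℕ} (c : Fin k) (v w x : Fin n) (j i0 i1 i2 : Fin N) (M : ℕ)
    (ω : Fin N → Ed n) (hj : inc (ω j) v) (h0 : inc (ω i0) w) (h0' : ¬ inc (ω i0) v)
    (h1 : ch_I v w x ω i1) (h2 : ch_I v w x ω i2) :
    CB c (XX j i0 i1 i2) v w x j i0 M ω = ch_C c v w x j i0 M ω := by
  obtain ⟨h1a, h1b, h1c⟩ := h1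
  obtain ⟨h2a, h2b, h2c⟩ := h2
  ext a
  unfold CB ch_C XX
  simp only [Set.mem_ofPred_eq]
  constructor
  · rintro ⟨ha, hb, hc⟩
    refine ⟨fun i hi hav => ha i hi ?_ hav, fun i hi hv => hb i hi ?_ hv,
      fun i hi hw hv => hc i hi ?_ hw hv⟩
    · have := ch_av.mp hav
      rintro (rfl | rfl | rfl | rfl)
      · exact this.1 hj
      · exact this.2.1 h0
      · exact this.2.2 h1a
      · exact this.2.2 h2a
    · rintro (rfl | rfl | rfl | rfl)
      · exact lt_irrefl _ hi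
      · exact h0' hv
      · exact h1b hv
      · exact h2b hv
    · rintro (rfl | rfl | rfl | rfl)
      · exact hv hj
      · exact lt_irrefl _ hi
      · exact h1c hw
      · exact h2c hw
  · rintro ⟨ha, hb, hc⟩
    exact ⟨fun i hi _ hav => ha i hi hav, fun i hi _ hv => hb i hi hv,
      fun i hi _ hw hv => hc i hi hw hv⟩

/-- the condition of `TQ` without exclusions -/
def ch_T {n k N : ℕ} (q : Fin k) (v w x : Fin n) (i1 : Fin N) (ω : Fin N → Ed n) :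
    Set (Cg n k) :=
  {a | ∀ i : Fin N, i < i1 → ch_I v w x ω i → a (oth (ω i) x) ≠ q}

lemma ch_TQ1 {n k N : ℕ} (q : Fin k) (v w x : Fin n) (j i0 i1 i2 : Fin N)
    (ω : Fin N → Ed n) (hj : inc (ω j) v) (h0 : inc (ω i0) w) (h12 : i1 < i2) :
    TQ q (XX j i0 i1 i2) v w x i1 ω = ch_T q v w x i1 ω := by
  ext a
  unfold TQ ch_T XX ch_I
  simp only [Set.mem_ofPred_eq]
  constructor
  · intro h i hi hI
    refine h i hi ?_ hI.1 hI.2.1 hI.2.2
    rintro (rfl | rfl | rfl | rfl)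
    · exact hI.2.1 hj
    · exact hI.2.2 h0
    · exact lt_irrefl _ hi
    · exact lt_asymm hi h12
  · intro h i hi _ ha hb hc
    exact h i hi ⟨ha, hb, hc⟩

lemma ch_TQ2 {n k N : ℕ} (q : Fin k) (v w x : Fin n) (j i0 i1 i2 : Fin N)
    (ω : Fin N → Ed n) (hj : inc (ω j) v) (h0 : inc (ω i0) w) (h1 : ch_I v w x ω i1)
    (h12 : i1 < i2) (B : Set (Cg n k)) :
    B ∩ TQ q (XX j i0 i1 i2) v w x i2 ω ∩ {a | a (oth (ω i1) x) ≠ q} =
      B ∩ ch_T q v w x i2 ω := by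
  ext a
  unfold TQ ch_T XX ch_I
  simp only [Set.mem_ofPred_eq, Set.mem_inter_iff]
  constructor
  · rintro ⟨⟨hB, h⟩, h'⟩
    refine ⟨hB, fun i hi hI => ?_⟩
    by_cases hi1 : i = i1
    · subst hi1
      exact h'
    · refine h i hi ?_ hI.1 hI.2.1 hI.2.2
      rintro (rfl | rfl | rfl | rfl)
      · exact hI.2.1 hj
      · exact hI.2.2 h0
      · exact hi1 rfl
      · exact lt_irrefl _ hi
  · rintro ⟨hB, h⟩
    exact ⟨⟨hB, fun i hi _ ha hb hc => h i hi ⟨ha, hb, hc⟩⟩, h i1 h12 h1⟩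

lemma ch_notMem {n : ℕ} {e : Ed n} {v w x : Fin n} (h1 : inc e x) (h2 : ¬ inc e v)
    (h3 : ¬ inc e w) : oth e x ∉ ({v, w, x} : Set (Fin n)) := by
  simp only [Set.mem_insert_iff, Set.mem_singleton_iff, not_or]
  have h := ch_inc_oth h1
  refine ⟨?_, ?_, ch_oth_ne h1⟩
  · intro h4
    exact h2 (h4 ▸ h)
  · intro h4
    exact h3 (h4 ▸ h)

lemma ch_f2 {n k N : ℕ} (c p q : Fin k) (v w x : Fin n) (j i0 i1 i2 : Fin N) (M : ℕ)
    (ω : Fin N → Ed n) (hj : inc (ω j) v) (h0 : inc (ω i0) w) (h0' : ¬ inc (ω i0) v)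
    (h1 : ch_I v w x ω i1) (h2 : ch_I v w x ω i2) (h12 : i1 < i2)
    (hp : (ch_C c v w x j i0 M ω ∩ ch_T p v w x i1 ω).Nonempty)
    (hp' : ∀ a ∈ ch_C c v w x j i0 M ω ∩ ch_T p v w x i1 ω, a (oth (ω i1) x) = p)
    (hq : (ch_C c v w x j i0 M ω ∩ ch_T q v w x i2 ω).Nonempty)
    (hq' : ∀ a ∈ ch_C c v w x j i0 M ω ∩ ch_T q v w x i2 ω, a (oth (ω i2) x) = q) :
    RelF c p q v w x j i0 i1 i2 M ω (oth (ω i1) x) (oth (ω i2) x) := by
  unfold RelF f2 fr
  rw [ch_CB c v w x j i0 i1 i2 M ω hj h0 h0' h1 h2, ch_TQ1 p v w x j i0 i1 i2 ω hj h0 h12,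
    ch_TQ2 q v w x j i0 i1 i2 ω hj h0 h1 h12]
  exact ⟨hp, ⟨ch_notMem h1.1 h1.2.1 h1.2.2, hp'⟩, hq, ⟨ch_notMem h2.1 h2.2.1 h2.2.2, hq'⟩⟩

lemma ch_ik {n k N : ℕ} (c q : Fin k) (v w x : Fin n) (j i0 i1 i2 : Fin N) (M : ℕ)
    (ω : Fin N → Ed n) (hj : inc (ω j) v) (h0 : inc (ω i0) w) (h0' : ¬ inc (ω i0) v)
    (h1 : ch_I v w x ω i1) (h2 : ch_I v w x ω i2) (h12 : i1 < i2)
    (hA : ∀ a ∈ ch_C c v w x j i0 M ω ∩ ch_T q v w x i1 ω,
      a (oth (ω i1) x) = q ∨ a (oth (ω i2) x) = q)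
    (hB : ∃ a ∈ ch_C c v w x j i0 M ω ∩ ch_T q v w x i1 ω, a (oth (ω i1) x) ≠ q)
    (hC : ∃ a ∈ ch_C c v w x j i0 M ω ∩ ch_T q v w x i1 ω, a (oth (ω i2) x) ≠ q) :
    RelK c q v w x j i0 i1 i2 M ω (oth (ω i1) x) (oth (ω i2) x) := by
  unfold RelK ik
  rw [ch_CB c v w x j i0 i1 i2 M ω hj h0 h0' h1 h2, ch_TQ1 q v w x j i0 i1 i2 ω hj h0 h12]
  exact ⟨ch_notMem h1.1 h1.2.1 h1.2.2, ch_notMem h2.1 h2.2.1 h2.2.2, hA, hB, hC⟩

/-- step 4 -/
lemma ch_step4 {n k N : ℕ} (c p q : Fin k) (hpq : p ≠ q) (v w x : Fin n) (j i0 : Fin N) (M : ℕ)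
    (ω : Fin N → Ed n) (hj : inc (ω j) v) (h0 : inc (ω i0) w) (h0' : ¬ inc (ω i0) v)
    (hC : (ch_C c v w x j i0 M ω).Nonempty)
    (hp : ¬ ∃ a ∈ ch_C c v w x j i0 M ω, ∀ i : Fin N, (i.val < M ∧ ch_I v w x ω i) →
      a (oth (ω i) x) ≠ p)
    (hq : ¬ ∃ a ∈ ch_C c v w x j i0 M ω, ∀ i : Fin N, (i.val < M ∧ ch_I v w x ω i) →
      a (oth (ω i) x) ≠ q) :
    ∃ i1 i2 : Fin N, i1 < i2 ∧ i2.val < M ∧ ch_I v w x ω i1 ∧ ch_I v w x ω i2 ∧
      Rel c p q v w x j i0 i1 i2 M ω (oth (ω i1) x) (oth (ω i2) x) := by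
  obtain ⟨jp, hjp, ⟨ap, hap, hap'⟩, hjp'⟩ := least_index _ hC
    (fun i : Fin N => i.val < M ∧ ch_I v w x ω i) (fun a i => a (oth (ω i) x) ≠ p) hp
  obtain ⟨jq, hjq, ⟨aq, haq, haq'⟩, hjq'⟩ := least_index _ hC
    (fun i : Fin N => i.val < M ∧ ch_I v w x ω i) (fun a i => a (oth (ω i) x) ≠ q) hq
  -- `ch_T` in terms of the least index conditions
  have hT : ∀ (d : Fin k) (a : Cg n k) (jd : Fin N), jd.val < M →
      ((∀ i' : Fin N, i' < jd → (i'.val < M ∧ ch_I v w x ω i') → a (oth (ω i') x) ≠ d) ↔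
        a ∈ ch_T d v w x jd ω) := by
    intro d a jd hjd
    constructor
    · intro h i hi hI
      exact h i hi ⟨lt_trans hi hjd, hI⟩
    · intro h i hi hI
      exact h i hi hI.2
  have hpn : (ch_C c v w x j i0 M ω ∩ ch_T p v w x jp ω).Nonempty :=
    ⟨ap, hap, (hT p ap jp hjp.1).mp hap'⟩
  have hqn : (ch_C c v w x j i0 M ω ∩ ch_T q v w x jq ω).Nonempty :=
    ⟨aq, haq, (hT q aq jq hjq.1).mp haq'⟩
  have hpf : ∀ a ∈ ch_C c v w x j i0 M ω ∩ ch_T p v w x jp ω, a (oth (ω jp) x) = p := by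
    intro a ha
    have := hjp' a ha.1 ((hT p a jp hjp.1).mpr ha.2)
    exact not_ne_iff.mp this
  have hqf : ∀ a ∈ ch_C c v w x j i0 M ω ∩ ch_T q v w x jq ω, a (oth (ω jq) x) = q := by
    intro a ha
    have := hjq' a ha.1 ((hT q a jq hjq.1).mpr ha.2)
    exact not_ne_iff.mp this
  rcases lt_trichotomy jp jq with hlt | heq | hgt
  · exact ⟨jp, jq, hlt, hjq.1, hjp.2, hjq.2, Or.inl
      (ch_f2 c p q v w x j i0 jp jq M ω hj h0 h0' hjp.2 hjq.2 hlt hpn hpf hqn hqf)⟩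
  · subst heq
    -- the doubly restricted condition
    let G : ℕ → Prop := fun m => ∀ a ∈ ch_C c v w x j i0 M ω,
      ((∃ l : Fin N, l.val < m ∧ l < jp ∧ ch_I v w x ω l ∧ a (oth (ω l) x) = p) ∨
        a (oth (ω jp) x) = p) ∧
      ((∃ l : Fin N, l.val < m ∧ l < jp ∧ ch_I v w x ω l ∧ a (oth (ω l) x) = q) ∨
        a (oth (ω jp) x) = q)
    have hG : G jp.val := by
      intro a ha
      constructor
      · by_cases h : a ∈ ch_T p v w x jp ω
        · exact Or.inr (hpf a ⟨ha, h⟩)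
        · unfold ch_T at h
          simp only [Set.mem_ofPred_eq, not_forall] at h
          obtain ⟨l, hl, hI, hl'⟩ := h
          exact Or.inl ⟨l, hl, hl, hI, not_ne_iff.mp hl'⟩
      · by_cases h : a ∈ ch_T q v w x jp ω
        · exact Or.inr (hqf a ⟨ha, h⟩)
        · unfold ch_T at h
          simp only [Set.mem_ofPred_eq, not_forall] at h
          obtain ⟨l, hl, hI, hl'⟩ := h
          exact Or.inl ⟨l, hl, hl, hI, not_ne_iff.mp hl'⟩
    have hG0 : ¬ G 0 := by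
      intro h
      obtain ⟨a, ha⟩ := hC
      obtain ⟨h1, h2⟩ := h a ha
      rcases h1 with ⟨l, hl, _⟩ | h1
      · exact absurd hl (Nat.not_lt_zero _)
      rcases h2 with ⟨l, hl, _⟩ | h2
      · exact absurd hl (Nat.not_lt_zero _)
      exact hpq (h1.symm.trans h2)
    classical
    have hex : ∃ m, G m := ⟨_, hG⟩
    obtain ⟨m, hm, hmin, hmle⟩ : ∃ m, G m ∧ (∀ m' < m, ¬ G m') ∧ m ≤ jp.val :=
      ⟨Nat.find hex, Nat.find_spec hex, fun m' hm' => Nat.find_min hex hm',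
        Nat.find_min' hex hG⟩
    have hm0 : m ≠ 0 := by
      rintro rfl
      exact hG0 hm
    obtain ⟨m', rfl⟩ := Nat.exists_eq_succ_of_ne_zero hm0
    have hm'j : m' < jp.val := hmle
    have hm'N : m' < N := lt_trans hm'j jp.2
    let i1 : Fin N := ⟨m', hm'N⟩
    have h12 : i1 < jp := hm'j
    have hnG := hmin m' (Nat.lt_succ_self m')
    have hI1 : ch_I v w x ω i1 := by
      by_contra hI
      apply hnG
      intro a ha
      obtain ⟨h1, h2⟩ := hm a ha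
      constructor
      · rcases h1 with ⟨l, hl, hl2, hl3, hl4⟩ | h1
        · rcases Nat.lt_succ_iff_lt_or_eq.mp hl with h5 | h5
          · exact Or.inl ⟨l, h5, hl2, hl3, hl4⟩
          · have : l = i1 := Fin.ext h5
            subst this
            exact absurd hl3 hI
        · exact Or.inr h1
      · rcases h2 with ⟨l, hl, hl2, hl3, hl4⟩ | h2
        · rcases Nat.lt_succ_iff_lt_or_eq.mp hl with h5 | h5
          · exact Or.inl ⟨l, h5, hl2, hl3, hl4⟩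
          · have : l = i1 := Fin.ext h5
            subst this
            exact absurd hl3 hI
        · exact Or.inr h2
    -- `y` or `z` has the colour
    have hyz : ∀ a ∈ ch_C c v w x j i0 M ω,
        (a ∈ ch_T p v w x i1 ω → a (oth (ω i1) x) = p ∨ a (oth (ω jp) x) = p) ∧
        (a ∈ ch_T q v w x i1 ω → a (oth (ω i1) x) = q ∨ a (oth (ω jp) x) = q) := by
      intro a ha
      obtain ⟨h1, h2⟩ := hm a ha
      constructor
      · intro hTa
        rcases h1 with ⟨l, hl, hl2, hl3, hl4⟩ | h1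
        · rcases Nat.lt_succ_iff_lt_or_eq.mp hl with h5 | h5
          · exact absurd hl4 (hTa l h5 hl3)
          · have : l = i1 := Fin.ext h5
            subst this
            exact Or.inl hl4
        · exact Or.inr h1
      · intro hTa
        rcases h2 with ⟨l, hl, hl2, hl3, hl4⟩ | h2
        · rcases Nat.lt_succ_iff_lt_or_eq.mp hl with h5 | h5
          · exact absurd hl4 (hTa l h5 hl3)
          · have : l = i1 := Fin.ext h5
            subst this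
            exact Or.inl hl4
        · exact Or.inr h2
    have hmono : ∀ (d : Fin k) (a : Cg n k), a ∈ ch_T d v w x jp ω →
        a ∈ ch_T d v w x i1 ω ∧ a (oth (ω i1) x) ≠ d := by
      intro d a h
      exact ⟨fun i hi hI => h i (lt_trans hi h12) hI, h i1 h12 hI1⟩
    -- the failure of `G m'`
    have hfail : ∃ a ∈ ch_C c v w x j i0 M ω,
        (a ∈ ch_T p v w x i1 ω ∧ a (oth (ω jp) x) ≠ p) ∨
        (a ∈ ch_T q v w x i1 ω ∧ a (oth (ω jp) x) ≠ q) := by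
      by_contra hcon
      push Not at hcon
      apply hnG
      intro a ha
      obtain ⟨h1, h2⟩ := hcon a ha
      constructor
      · by_cases h : a ∈ ch_T p v w x i1 ω
        · exact Or.inr (h1 h)
        · unfold ch_T at h
          simp only [Set.mem_ofPred_eq, not_forall] at h
          obtain ⟨l, hl, hI, hl'⟩ := h
          exact Or.inl ⟨l, hl, lt_trans hl h12, hI, not_ne_iff.mp hl'⟩
      · by_cases h : a ∈ ch_T q v w x i1 ω
        · exact Or.inr (h2 h)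
        · unfold ch_T at h
          simp only [Set.mem_ofPred_eq, not_forall] at h
          obtain ⟨l, hl, hI, hl'⟩ := h
          exact Or.inl ⟨l, hl, lt_trans hl h12, hI, not_ne_iff.mp hl'⟩
    obtain ⟨b, hb, hb'⟩ := hfail
    refine ⟨i1, jp, h12, hjp.1, hI1, hjp.2, Or.inr (Or.inr ?_)⟩
    rcases hb' with ⟨hb1, hb2⟩ | ⟨hb1, hb2⟩
    · right
      obtain ⟨a, ha⟩ := hpn
      have := hmono p a ha.2
      exact ch_ik c p v w x j i0 i1 jp M ω hj h0 h0' hI1 hjp.2 h12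
        (fun a' ha' => (hyz a' ha'.1).1 ha'.2) ⟨a, ⟨ha.1, this.1⟩, this.2⟩ ⟨b, ⟨hb, hb1⟩, hb2⟩
    · left
      obtain ⟨a, ha⟩ := hqn
      have := hmono q a ha.2
      exact ch_ik c q v w x j i0 i1 jp M ω hj h0 h0' hI1 hjp.2 h12
        (fun a' ha' => (hyz a' ha'.1).2 ha'.2) ⟨a, ⟨ha.1, this.1⟩, this.2⟩ ⟨b, ⟨hb, hb1⟩, hb2⟩
  · exact ⟨jq, jp, hgt, hjp.1, hjq.2, hjp.2, Or.inr (Or.inl
      (ch_f2 c q p v w x j i0 jq jp M ω hj h0 h0' hjq.2 hjp.2 hgt hqn hqf hpn hpf))⟩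

theorem chain_det {n k N : ℕ} (c p q : Fin k) (hcp : c ≠ p) (hcq : c ≠ q) (hpq : p ≠ q)
    (ω : Fin N → Ed n) (M : ℕ) (v : Fin n) (h : nontriv (PS k M ω) v) :
    Tri ω v ∨ ∃ j i0 i1 i2 : Fin N, Dis j i0 i1 i2 ∧ Chain c p q v j i0 i1 i2 M ω := by
  obtain ⟨⟨a0, ha0⟩, ws, hws, hvw⟩ := h
  -- step 1
  have s1 : ¬ ∃ a ∈ {a : Cg n k | ∀ i : Fin N, i.val < M → ¬ inc (ω i) v → ok a (ω i)},
      ∀ i : Fin N, (i.val < M ∧ inc (ω i) v) → a (oth (ω i) v) = c := by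
    rintro ⟨a, ha, hac⟩
    obtain ⟨d, hdc, hdw⟩ : ∃ d : Fin k, d ≠ c ∧ d ≠ a ws := by
      by_cases hp : p = a ws
      · exact ⟨q, hcq.symm, fun hq => hpq (hp.trans hq.symm)⟩
      · exact ⟨p, hcp.symm, hp⟩
    have hmem : Function.update a v d ∈ PS k M ω := by
      intro i hi
      by_cases hv : inc (ω i) v
      · rw [ch_ok_update_inc hv, hac i ⟨hi, hv⟩]
        exact hdc
      · rw [ch_ok_update hv]
        exact ha i hi hv
    have := hvw _ hmem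
    rw [Function.update_self, Function.update_of_ne hws] at this
    exact hdw this
  have n1 : ({a : Cg n k | ∀ i : Fin N, i.val < M → ¬ inc (ω i) v → ok a (ω i)}).Nonempty :=
    ⟨a0, fun i hi _ => ha0 i hi⟩
  obtain ⟨j, ⟨hjM, hjv⟩, ⟨a1, ha1, ha1'⟩, hj'⟩ := least_index _ n1
    (fun i : Fin N => i.val < M ∧ inc (ω i) v) (fun a i => a (oth (ω i) v) = c) s1
  -- step 2
  set w := oth (ω j) v with hw
  have hjw : inc (ω j) w := ch_inc_oth hjv
  have hwv : w ≠ v := ch_oth_ne hjv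
  have s2 : ¬ ∃ a ∈ {a : Cg n k | (∀ i : Fin N, i.val < M → ¬ inc (ω i) v → ¬ inc (ω i) w →
        ok a (ω i)) ∧ ∀ i : Fin N, i < j → inc (ω i) v → a (oth (ω i) v) = c},
      ∀ i : Fin N, (i.val < M ∧ inc (ω i) w ∧ ¬ inc (ω i) v) → a (oth (ω i) w) ≠ c := by
    rintro ⟨a, ⟨ha, hpin⟩, hac⟩
    refine hj' (Function.update a w c) ?_ ?_ (Function.update_self _ _ _)
    · intro i hi hv
      by_cases hiw : inc (ω i) w
      · rw [ch_ok_update_inc hiw]
        exact (hac i ⟨hi, hiw, hv⟩).symm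
      · rw [ch_ok_update hiw]
        exact ha i hi hv hiw
    · intro i hi hI
      by_cases hx : oth (ω i) v = w
      · rw [hx, Function.update_self]
      · rw [Function.update_of_ne hx]
        exact hpin i hi hI.2
  have n2 : ({a : Cg n k | (∀ i : Fin N, i.val < M → ¬ inc (ω i) v → ¬ inc (ω i) w →
        ok a (ω i)) ∧ ∀ i : Fin N, i < j → inc (ω i) v → a (oth (ω i) v) = c}).Nonempty :=
    ⟨a1, ⟨fun i hi hv _ => ha1 i hi hv, fun i hi hv => ha1' i hi ⟨lt_trans hi hjM, hv⟩⟩⟩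
  obtain ⟨i0, ⟨h0M, h0w, h0v⟩, ⟨a2, ha2, ha2'⟩, h0'⟩ := least_index _ n2
    (fun i : Fin N => i.val < M ∧ inc (ω i) w ∧ ¬ inc (ω i) v) (fun a i => a (oth (ω i) w) ≠ c) s2
  set x := oth (ω i0) w with hx
  have h0x : inc (ω i0) x := ch_inc_oth h0w
  have hxw : x ≠ w := ch_oth_ne h0w
  have hxv : x ≠ v := fun h => h0v (h ▸ h0x)
  -- step 3
  by_cases hT : ∃ l : Fin N, l < j ∧ inc (ω l) v ∧ oth (ω l) v = x
  · left
    obtain ⟨l, hlj, hlv, hlx⟩ := hT
    refine ⟨l, j, i0, ne_of_lt hlj, ?_, ?_, hlv, hjv, ?_, ?_, ?_⟩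
    · rintro rfl
      exact h0v hlv
    · rintro rfl
      exact h0v hjv
    · rw [hlx, ← hw]
      exact hxw
    · rw [hlx]
      exact h0x
    · rw [← hw]
      exact h0w
  · right
    have hC : (ch_C c v w x j i0 M ω).Nonempty := by
      refine ⟨a2, fun i hi hav => ?_, fun i hi hv => ha2.2 i hi hv, fun i hi hiw hv => ?_⟩
      · have := ch_av.mp hav
        exact ha2.1 i hi this.1 this.2.1
      · exact ha2' i hi ⟨lt_trans hi h0M, hiw, hv⟩
    have s3 : ∀ d : Fin k, d ≠ c → ¬ ∃ a ∈ ch_C c v w x j i0 M ω,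
        ∀ i : Fin N, (i.val < M ∧ ch_I v w x ω i) → a (oth (ω i) x) ≠ d := by
      rintro d hd ⟨a, ⟨ha, hpin, hfil⟩, had⟩
      refine h0' (Function.update a x d) ⟨?_, ?_⟩ ?_ ?_
      · intro i hi hv hiw
        by_cases hix : inc (ω i) x
        · rw [ch_ok_update_inc hix]
          exact (had i ⟨hi, hix, hv, hiw⟩).symm
        · rw [ch_ok_update hix]
          exact ha i hi (ch_av.mpr ⟨hv, hiw, hix⟩)
      · intro i hi hv
        have hne : oth (ω i) v ≠ x := fun h => hT ⟨i, hi, hv, h⟩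
        rw [Function.update_of_ne hne]
        exact hpin i hi hv
      · intro i hi hI
        by_cases hne : oth (ω i) w = x
        · rw [hne, Function.update_self]
          exact hd
        · rw [Function.update_of_ne hne]
          exact hfil i hi hI.2.1 hI.2.2
      · rw [Function.update_self]
        exact hd
    obtain ⟨i1, i2, h12, h2M, hI1, hI2, hR⟩ := ch_step4 c p q hpq v w x j i0 M ω hjv h0w h0v hC
      (s3 p hcp.symm) (s3 q hcq.symm)
    refine ⟨j, i0, i1, i2, ⟨?_, ?_, ?_, ?_, ?_, ne_of_lt h12⟩, hjM, h0M, lt_trans h12 h2M, h2M, hjv,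
      h0w, hI1.1, hI2.1, hR⟩
    · rintro rfl
      exact h0v hjv
    · rintro rfl
      exact hI1.2.1 hjv
    · rintro rfl
      exact hI2.2.1 hjv
    · rintro rfl
      exact hI1.2.2 h0w
    · rintro rfl
      exact hI2.2.2 h0w

end Pool.Agent.H285R2.Col
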