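import Pool.Agent.H285R2.Col.Defs
import Pool.Agent.H999R2.KSat.SQ

/-!
# Task CV: the convergence argument

Adaptation of `Pool.Agent.H999R2.KSat.CV1`-`CV5` to the structure `HypC`.
-/

set_option autoImplicit false

namespace Pool.Agent.H285R2.Col
open Finset Filter Pool.Agent.H999R2.KSat

/-! ### CV1 -/

theorem HypC.anti {n1 : ℕ} {p : ℕ → ℕ → ℝ} (h : HypC n1 p) (n : ℕ) {m m' : ℕ} (hm : m ≤ m') :
    p n m' ≤ p n m :=
  antitone_nat_of_succ_le (h.hanti n) hm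

theorem HypC.le_one {n1 : ℕ} {p : ℕ → ℕ → ℝ} (h : HypC n1 p) (n m : ℕ) (hn : n1 ≤ n) :
    p n m ≤ 1 := by
  have h1 := h.anti n (Nat.zero_le m)
  rw [h.h0 n hn] at h1
  exact h1

theorem cv_pos {n1 n : ℕ} {p : ℕ → ℕ → ℝ} (h : HypC n1 p) (hn : n1 ≤ n) : 0 < n := by
  have := h.hn1
  omega

theorem HypC.first_bound {n1 : ℕ} {p : ℕ → ℕ → ℝ} (h : HypC n1 p) (δ : ℝ) (hδ : 0 < δ) :
    ∃ Λ : ℝ, 0 < Λ ∧ ∀ n m : ℕ, n1 ≤ n → δ ≤ p n m → (m : ℝ) ≤ Λ * n := by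
  obtain ⟨K, q, hK, hq0, hq1, hq⟩ := h.hfm
  rcases hq0.eq_or_lt with h0 | h0
  · refine ⟨1, one_pos, ?_⟩
    intro n m hn hp
    have h1 := hq n m hn
    rcases Nat.eq_zero_or_pos m with hm | hm
    · subst hm
      simp
    · rw [← h0, zero_pow (by omega), mul_zero] at h1
      linarith
  · have hL : 0 < -Real.log q := by
      have := Real.log_neg h0 hq1
      linarith
    have hlogK : 0 ≤ Real.log K := Real.log_nonneg hK
    have hK0 : 0 < K := by linarith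
    refine ⟨(Real.log K + 1 + |Real.log δ|) / (-Real.log q), by positivity, ?_⟩
    intro n m hn hp
    have hn' : (1 : ℝ) ≤ n := by exact_mod_cast cv_pos h hn
    have h1 : δ ≤ K ^ n * q ^ m := hp.trans (hq n m hn)
    have h2 := Real.log_le_log hδ h1
    rw [Real.log_mul (by positivity) (by positivity), Real.log_pow, Real.log_pow] at h2
    have h3 : -|Real.log δ| ≤ Real.log δ := neg_abs_le _
    have h4 : |Real.log δ| ≤ |Real.log δ| * n := by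
      have := abs_nonneg (Real.log δ)
      nlinarith
    rw [div_mul_eq_mul_div, le_div_iff₀ hL]
    nlinarith

theorem HypC.MxC_spec {n1 : ℕ} {p : ℕ → ℕ → ℝ} (h : HypC n1 p) (n : ℕ) (hn : n1 ≤ n) :
    1 / 2 ≤ p n (MxC p n) ∧ ∀ m, 1 / 2 ≤ p n m → m ≤ MxC p n := by
  obtain ⟨Λ, _, hb⟩ := h.first_bound (1 / 2) (by norm_num)
  have hne : {m : ℕ | 1 / 2 ≤ p n m}.Nonempty := by
    refine ⟨0, ?_⟩
    show 1 / 2 ≤ p n 0
    rw [h.h0 n hn]
    norm_num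
  have hbdd : BddAbove {m : ℕ | 1 / 2 ≤ p n m} := by
    refine ⟨⌊Λ * n⌋₊, ?_⟩
    intro m hm
    exact Nat.le_floor (hb n m hn hm)
  constructor
  · exact Nat.sSup_mem hne hbdd
  · intro m hm
    exact le_csSup hbdd hm

/-! ### CV2 -/

theorem cv2_floor_half {x : ℝ} (hx : 1 ≤ x) : x / 2 ≤ (⌊x⌋₊ : ℝ) := by
  have h1 : (1 : ℝ) ≤ (⌊x⌋₊ : ℝ) := by
    have : 1 ≤ ⌊x⌋₊ := Nat.le_floor (by simpa using hx)
    exact_mod_cast this
  have h2 := (Nat.lt_floor_add_one x).le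
  linarith

theorem cv2_base (n : ℕ) (hn : 0 < n) : (1 : ℝ) ≤ (n : ℝ) ^ ((2 : ℝ) / 21) := by
  apply Real.one_le_rpow
  · exact_mod_cast hn
  · positivity

theorem TnC_bounds (n : ℕ) (hn : 0 < n) :
    1 ≤ TnC n ∧ (TnC n) ^ 10 ≤ n ∧ (TnC n : ℝ) ^ 10 ≤ (n : ℝ) ^ (1 - (1 : ℝ) / 21) := by
  have hn1 : (1 : ℝ) ≤ n := by exact_mod_cast hn
  have hn0 : (0 : ℝ) ≤ n := by linarith
  have hb := cv2_base n hn
  have hfl : (TnC n : ℝ) ≤ (n : ℝ) ^ ((2 : ℝ) / 21) := Nat.floor_le (by linarith)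
  have h3 : (TnC n : ℝ) ^ 10 ≤ (n : ℝ) ^ (1 - (1 : ℝ) / 21) := by
    calc (TnC n : ℝ) ^ 10 ≤ ((n : ℝ) ^ ((2 : ℝ) / 21)) ^ 10 :=
          pow_le_pow_left₀ (Nat.cast_nonneg _) hfl _
      _ = (n : ℝ) ^ ((2 : ℝ) / 21 * ((10 : ℕ) : ℝ)) := by
          rw [Real.rpow_mul hn0, Real.rpow_natCast]
      _ = _ := by
          congr 1
          norm_num
  refine ⟨?_, ?_, h3⟩
  · exact Nat.le_floor (by simpa using hb)
  · have h1 : (n : ℝ) ^ (1 - (1 : ℝ) / 21) ≤ (n : ℝ) ^ (1 : ℝ) := by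
      apply Real.rpow_le_rpow_of_exponent_le hn1
      norm_num
    rw [Real.rpow_one] at h1
    exact_mod_cast h3.trans h1

theorem TnC_tendsto :
    Tendsto (fun n : ℕ => (n : ℝ) / (TnC n : ℝ) ^ 11) atTop (nhds 0) := by
  have ha0 : (0 : ℝ) < 1 / 21 := by norm_num
  have h1 : Tendsto (fun n : ℕ => (2 : ℝ) ^ 11 * (n : ℝ) ^ (-((1 : ℝ) / 21))) atTop (nhds 0) := by
    have h2 := (tendsto_rpow_neg_atTop ha0).comp (tendsto_natCast_atTop_atTop (R := ℝ))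
    have h3 := h2.const_mul ((2 : ℝ) ^ 11)
    rw [mul_zero] at h3
    exact h3
  apply squeeze_zero' _ _ h1
  · exact Eventually.of_forall fun n => by positivity
  · filter_upwards [eventually_gt_atTop 0] with n hn
    have hn1 : (1 : ℝ) ≤ n := by exact_mod_cast hn
    have hn0 : (0 : ℝ) < n := by linarith
    have hb := cv2_base n hn
    have hh : (n : ℝ) ^ ((2 : ℝ) / 21) / 2 ≤ (TnC n : ℝ) := cv2_floor_half hb
    have hT : 0 < (n : ℝ) ^ ((2 : ℝ) / 21) / 2 := by linarith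
    calc (n : ℝ) / (TnC n : ℝ) ^ 11
        ≤ (n : ℝ) / ((n : ℝ) ^ ((2 : ℝ) / 21) / 2) ^ 11 := by
          apply div_le_div_of_nonneg_left hn0.le (pow_pos hT _)
          exact pow_le_pow_left₀ hT.le hh _
      _ = (2 : ℝ) ^ 11 * ((n : ℝ) ^ (1 : ℝ) / (n : ℝ) ^ ((2 : ℝ) / 21 * ((11 : ℕ) : ℝ))) := by
          rw [div_pow, Real.rpow_mul hn0.le, Real.rpow_natCast, Real.rpow_one]
          field_simp
      _ = (2 : ℝ) ^ 11 * (n : ℝ) ^ (-((1 : ℝ) / 21)) := by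
          rw [← Real.rpow_sub hn0]
          congr 2
          norm_num

/-- Step A -/
theorem HypC.stepA {n1 : ℕ} {p : ℕ → ℕ → ℝ} (h : HypC n1 p) (δ : ℝ) (hδ : 0 < δ) :
    ∃ n0 : ℕ, ∀ n m : ℕ, n0 ≤ n → δ ≤ p n m →
      (m : ℝ) ≤ MxC p n + (n : ℝ) ^ (1 - (1 : ℝ) / 21) := by
  obtain ⟨Λ, hΛ, hΛm⟩ := h.first_bound δ hδ
  obtain ⟨C, hC, hsh⟩ := h.hsharp Λ
  have hlim := TnC_tendsto.const_mul C
  rw [mul_zero] at hlim
  have hev : ∀ᶠ n : ℕ in atTop, C * ((n : ℝ) / (TnC n : ℝ) ^ 11) < δ ^ 2 / 2 :=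
    hlim.eventually_lt_const (by positivity)
  obtain ⟨n0, hn0⟩ := eventually_atTop.mp hev
  refine ⟨max n0 n1, fun n m hn hm => ?_⟩
  have hn1 : n1 ≤ n := (le_max_right n0 n1).trans hn
  have hn2 : n0 ≤ n := (le_max_left n0 n1).trans hn
  obtain ⟨hT1, hT2, hT3⟩ := TnC_bounds n (cv_pos h hn1)
  have hMx : (0 : ℝ) ≤ MxC p n := Nat.cast_nonneg _
  rcases Nat.lt_or_ge m (TnC n ^ 10) with hc | hc
  · have : (m : ℝ) ≤ ((TnC n ^ 10 : ℕ) : ℝ) := by exact_mod_cast hc.le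
    push_cast at this
    linarith
  · obtain ⟨m', hm'⟩ := Nat.exists_eq_add_of_le hc
    rw [add_comm] at hm'
    have h1 : (m' : ℝ) + (TnC n : ℝ) ^ 10 ≤ Λ * n := by
      have := hΛm n m hn1 hm
      rw [hm'] at this
      push_cast at this
      exact this
    have h2 := hsh n m' (TnC n) hn1 hT1 hT2 h1
    rw [← hm'] at h2
    have h3 := hn0 n hn2
    have h4 : C * n / (TnC n : ℝ) ^ 11 < δ ^ 2 / 2 := by
      rw [mul_div_assoc]; exact h3
    have h5 : δ ^ 2 ≤ p n m ^ 2 := pow_le_pow_left₀ hδ.le hm 2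
    have hp1 := h.le_one n m' hn1
    have h6 : (1 - p n m') * δ ^ 2 ≤ (1 - p n m') * p n m ^ 2 :=
      mul_le_mul_of_nonneg_left h5 (by linarith)
    have h7 : 1 / 2 ≤ p n m' := by
      by_contra hcon
      push Not at hcon
      have h8 : 0 < δ ^ 2 := by positivity
      nlinarith
    have h9 := (h.MxC_spec n hn1).2 m' h7
    have h10 : (m' : ℝ) ≤ MxC p n := by exact_mod_cast h9
    have h11 : (m : ℝ) = m' + (TnC n : ℝ) ^ 10 := by rw [hm']; push_cast; rfl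
    rw [h11]
    linarith

/-- Step A' -/
theorem HypC.stepA' {n1 : ℕ} {p : ℕ → ℕ → ℝ} (h : HypC n1 p) (ε : ℝ) (hε : 0 < ε) :
    ∃ n0 : ℕ, ∀ n m : ℕ, n0 ≤ n →
      (m : ℝ) + (n : ℝ) ^ (1 - (1 : ℝ) / 21) ≤ MxC p n → 1 - ε ≤ p n m := by
  obtain ⟨Λ, hΛ, hΛm⟩ := h.first_bound (1 / 2) (by norm_num)
  obtain ⟨C, hC, hsh⟩ := h.hsharp Λ
  have hlim := TnC_tendsto.const_mul C
  rw [mul_zero] at hlim
  have hev : ∀ᶠ n : ℕ in atTop, C * ((n : ℝ) / (TnC n : ℝ) ^ 11) < ε / 4 :=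
    hlim.eventually_lt_const (by positivity)
  obtain ⟨n0, hn0⟩ := eventually_atTop.mp hev
  refine ⟨max n0 n1, fun n m hn hm => ?_⟩
  have hn1 : n1 ≤ n := (le_max_right n0 n1).trans hn
  have hn2 : n0 ≤ n := (le_max_left n0 n1).trans hn
  obtain ⟨hT1, hT2, hT3⟩ := TnC_bounds n (cv_pos h hn1)
  obtain ⟨hM1, hM2⟩ := h.MxC_spec n hn1
  have hle : m + TnC n ^ 10 ≤ MxC p n := by
    have : (m : ℝ) + (TnC n : ℝ) ^ 10 ≤ MxC p n := by linarith
    exact_mod_cast this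
  have h1 : 1 / 2 ≤ p n (m + TnC n ^ 10) := hM1.trans (h.anti n hle)
  have h2 : (m : ℝ) + (TnC n : ℝ) ^ 10 ≤ Λ * n := by
    have := hΛm n _ hn1 h1
    push_cast at this
    exact this
  have h3 := hsh n m (TnC n) hn1 hT1 hT2 h2
  have h4 := hn0 n hn2
  have h5 : C * n / (TnC n : ℝ) ^ 11 < ε / 4 := by
    rw [mul_div_assoc]; exact h4
  have hp1 := h.le_one n m hn1
  have h6 : (1 / 2 : ℝ) ^ 2 ≤ p n (m + TnC n ^ 10) ^ 2 :=
    pow_le_pow_left₀ (by norm_num) h1 2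
  have h7 : (1 - p n m) * (1 / 2 : ℝ) ^ 2 ≤ (1 - p n m) * p n (m + TnC n ^ 10) ^ 2 :=
    mul_le_mul_of_nonneg_left h6 (by linarith)
  nlinarith

/-! ### CV3 -/

/-- Step B -/
theorem HypC.stepB {n1 : ℕ} {p : ℕ → ℕ → ℝ} (h : HypC n1 p) :
    ∃ C : ℝ, 0 < C ∧ ∃ n0 : ℕ, ∀ N1 N2 : ℕ, n0 ≤ N1 → n0 ≤ N2 →
      N1 + N2 ≤ 4 * N1 → N1 + N2 ≤ 4 * N2 →
      min ((MxC p N1 : ℝ) / N1) ((MxC p N2 : ℝ) / N2) -
        C * ((N1 + N2 : ℕ) : ℝ) ^ (-((1 : ℝ) / 21)) ≤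
        (MxC p (N1 + N2) : ℝ) / ((N1 + N2 : ℕ) : ℝ) := by
  obtain ⟨L0, hL0, hL⟩ := h.first_bound (1 / 2) (by norm_num)
  have hspec := fun n hn => h.MxC_spec n hn
  set L : ℝ := max L0 1 with hLdef
  have hL1 : 1 ≤ L := le_max_right _ _
  obtain ⟨c2, hc2pos, htwo⟩ := h.htwo L
  obtain ⟨nA, hnA⟩ := h.stepA (c2 / 4) (by positivity)
  refine ⟨8 * Real.sqrt L + 2, by positivity, max nA n1, ?_⟩
  intro N1 N2 h1 h2 h3 h4
  have hN1n : n1 ≤ N1 := (le_max_right _ _).trans h1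
  have hN2n : n1 ≤ N2 := (le_max_right _ _).trans h2
  have hN1 : 0 < N1 := cv_pos h hN1n
  have hN2 : 0 < N2 := cv_pos h hN2n
  have hN1' : (0 : ℝ) < N1 := by exact_mod_cast hN1
  have hN2' : (0 : ℝ) < N2 := by exact_mod_cast hN2
  set x : ℝ := ((N1 + N2 : ℕ) : ℝ) with hx
  have hxs : x = (N1 : ℝ) + N2 := by rw [hx]; push_cast; ring
  have hx1 : 1 ≤ x := by
    have : (1 : ℝ) ≤ N1 := by exact_mod_cast hN1
    linarith
  have hx0 : 0 < x := by linarith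
  have h3' : x ≤ 4 * N1 := by rw [hx]; exact_mod_cast h3
  have h4' : x ≤ 4 * N2 := by rw [hx]; exact_mod_cast h4
  set c : ℝ := (1 : ℝ) / 21 with hc
  clear_value c
  have hc0 : 0 < c := by rw [hc]; norm_num
  have hc2 : c ≤ 1 / 2 := by rw [hc]; norm_num
  have e1 : x ^ (1 - c) = x * x ^ (-c) := by
    rw [sub_eq_add_neg, Real.rpow_add hx0, Real.rpow_one]
  have e2 : 1 ≤ x * x ^ (-c) := by
    rw [← e1]; exact Real.one_le_rpow hx1 (by linarith)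
  have e3 : Real.sqrt x ≤ x * x ^ (-c) := by
    rw [← e1, Real.sqrt_eq_rpow]
    exact Real.rpow_le_rpow_of_exponent_le hx1 (by linarith)
  set y : ℝ := x * x ^ (-c) with hy
  set ρ : ℝ := min ((MxC p N1 : ℝ) / N1) ((MxC p N2 : ℝ) / N2) with hρ
  have hρ1 : ρ * N1 ≤ MxC p N1 := by
    have : ρ ≤ (MxC p N1 : ℝ) / N1 := min_le_left _ _
    rwa [le_div_iff₀ hN1'] at this
  have hρ2 : ρ * N2 ≤ MxC p N2 := by
    have : ρ ≤ (MxC p N2 : ℝ) / N2 := min_le_right _ _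
    rwa [le_div_iff₀ hN2'] at this
  have hρ0 : 0 ≤ ρ := le_min (by positivity) (by positivity)
  have hMx1 : (MxC p N1 : ℝ) ≤ L * N1 := by
    have a1 := hL N1 _ hN1n (hspec N1 hN1n).1
    have : L0 * N1 ≤ L * N1 := mul_le_mul_of_nonneg_right (le_max_left _ _) hN1'.le
    linarith
  have hMx2 : (MxC p N2 : ℝ) ≤ L * N2 := by
    have a1 := hL N2 _ hN2n (hspec N2 hN2n).1
    have : L0 * N2 ≤ L * N2 := mul_le_mul_of_nonneg_right (le_max_left _ _) hN2'.le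
    linarith
  have hρL : ρ ≤ L := by
    have a2 : (MxC p N1 : ℝ) / N1 ≤ L := by rw [div_le_iff₀ hN1']; exact hMx1
    exact (min_le_left _ _).trans a2
  set d : ℝ := 2 * Real.sqrt (L * x) with hd
  have hd0 : 0 ≤ d := by positivity
  have hdd : d ^ 2 = 4 * (L * x) := by
    rw [hd, mul_pow, Real.sq_sqrt (by positivity)]; ring
  have hdy : 4 * d ≤ 8 * Real.sqrt L * y := by
    rw [hd, Real.sqrt_mul (by linarith)]
    have : Real.sqrt L * Real.sqrt x ≤ Real.sqrt L * y :=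
      mul_le_mul_of_nonneg_left e3 (Real.sqrt_nonneg _)
    linarith
  -- it suffices to multiply by x
  suffices hs : ρ * x - (8 * Real.sqrt L + 2) * y ≤ MxC p (N1 + N2) by
    rw [le_div_iff₀ hx0]
    have : (ρ - (8 * Real.sqrt L + 2) * x ^ (-c)) * x =
        ρ * x - (8 * Real.sqrt L + 2) * y := by rw [hy]; ring
    rw [this]; exact hs
  by_cases hcase : ρ * x < 4 * d
  · have hM0 : (0 : ℝ) ≤ MxC p (N1 + N2) := Nat.cast_nonneg _
    have hy0 : 0 ≤ y := by linarith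
    nlinarith
  · push Not at hcase
    set m : ℕ := ⌊ρ * x - 4 * d⌋₊ with hm
    have hm1 : (m : ℝ) ≤ ρ * x - 4 * d := Nat.floor_le (by linarith)
    have hm2 : ρ * x - 4 * d < m + 1 := Nat.lt_floor_add_one _
    have hmm : 4 * (m : ℝ) ≤ d ^ 2 := by
      rw [hdd]
      have : ρ * x ≤ L * x := mul_le_mul_of_nonneg_right hρL hx0.le
      linarith
    have key : ∀ t : ℝ, 0 < t → x ≤ 4 * t → m * t / x + d ≤ ρ * t := by
      intro t ht hxt
      have b1 : (m : ℝ) * t / x ≤ (ρ * x - 4 * d) * t / x := by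
        apply div_le_div_of_nonneg_right _ hx0.le
        exact mul_le_mul_of_nonneg_right hm1 ht.le
      have b2 : (ρ * x - 4 * d) * t / x = ρ * t - d * (4 * t / x) := by
        field_simp
      have b3 : 1 ≤ 4 * t / x := by rwa [le_div_iff₀ hx0, one_mul]
      have b4 : d * 1 ≤ d * (4 * t / x) := mul_le_mul_of_nonneg_left b3 hd0
      linarith
    have k1 := htwo N1 N2 m (MxC p N1) (MxC p N2) d hN1n hN2n hMx1 hMx2 hd0 hmm
      (by rw [← hxs]; exact (key N1 hN1' h3').trans hρ1)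
      (by rw [← hxs]; exact (key N2 hN2' h4').trans hρ2)
    have k2 := (hspec N1 hN1n).1
    have k3 := (hspec N2 hN2n).1
    have k4 : c2 / 4 ≤ p (N1 + N2) m := by
      have k41 : (1 : ℝ) / 2 * (1 / 2) ≤ p N1 (MxC p N1) * p N2 (MxC p N2) :=
        mul_le_mul k2 k3 (by norm_num) (by linarith)
      have k42 : c2 * (1 / 2 * (1 / 2)) ≤ c2 * (p N1 (MxC p N1) * p N2 (MxC p N2)) :=
        mul_le_mul_of_nonneg_left k41 hc2pos.le
      linarith
    have k5 := hnA (N1 + N2) m ((le_max_left _ _).trans (h1.trans (Nat.le_add_right _ _))) k4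
    rw [e1] at k5
    nlinarith [e2]

/-! ### CV4 -/

/-- Step C: one more vertex -/
theorem HypC.stepC {n1 : ℕ} {p : ℕ → ℕ → ℝ} (h : HypC n1 p) :
    ∃ C : ℝ, 0 < C ∧ ∃ n0 : ℕ, ∀ N : ℕ, n0 ≤ N →
      (MxC p N : ℝ) / N - C * (N : ℝ) ^ (-((1 : ℝ) / 21)) ≤
        (MxC p (N + 1) : ℝ) / ((N + 1 : ℕ) : ℝ) := by
  obtain ⟨Λ, hΛ, hfb⟩ := h.first_bound (1 / 2) (by norm_num)
  obtain ⟨c1, hc1pos, hone⟩ := h.hone Λ
  have hδ : 0 < c1 / 2 := by positivity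
  obtain ⟨nA, hA⟩ := h.stepA _ hδ
  refine ⟨Λ + 1, by linarith, max n1 nA, fun N hN => ?_⟩
  have hN1 : n1 ≤ N := le_trans (le_max_left _ _) hN
  have hNn : nA ≤ N + 1 := le_trans (le_trans (le_max_right _ _) hN) (Nat.le_succ _)
  have hNpos : 0 < N := cv_pos h hN1
  have hNr : (1 : ℝ) ≤ N := by exact_mod_cast hNpos
  have hN0 : (0 : ℝ) < N := by linarith
  set c : ℝ := (1 : ℝ) / 21 with hc
  clear_value c
  have hc0 : 0 < c := by rw [hc]; norm_num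
  have hc1 : c ≤ 1 := by rw [hc]; norm_num
  have hm := (h.MxC_spec N hN1).1
  set m : ℕ := MxC p N with hmdef
  have hmΛ : (m : ℝ) ≤ Λ * N := hfb N m hN1 hm
  have hlow : c1 / 2 ≤ p (N + 1) m := by
    have h1 := hone N m hN1 hmΛ
    have h2 : c1 * (1 / 2) ≤ c1 * p N m := mul_le_mul_of_nonneg_left hm hc1pos.le
    linarith
  have hstep := hA (N + 1) m hNn hlow
  have hNs : (0 : ℝ) < ((N + 1 : ℕ) : ℝ) := by positivity
  have hNs' : ((N + 1 : ℕ) : ℝ) = (N : ℝ) + 1 := by push_cast; ring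
  -- divide
  have hdiv : (m : ℝ) / ((N + 1 : ℕ) : ℝ) ≤ (MxC p (N + 1) : ℝ) / ((N + 1 : ℕ) : ℝ) +
      ((N + 1 : ℕ) : ℝ) ^ (-c) := by
    have e : ((N + 1 : ℕ) : ℝ) ^ (-c) = ((N + 1 : ℕ) : ℝ) ^ (1 - c) / ((N + 1 : ℕ) : ℝ) := by
      rw [show (-c : ℝ) = (1 - c) - 1 by ring, Real.rpow_sub_one hNs.ne']
    rw [e, ← add_div]
    exact div_le_div_of_nonneg_right hstep hNs.le
  have hle : ((N + 1 : ℕ) : ℝ) ^ (-c) ≤ (N : ℝ) ^ (-c) := by
    apply Real.rpow_le_rpow_of_nonpos hN0 (by rw [hNs']; linarith) (by linarith)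
  have hinv : 1 / (N : ℝ) ≤ (N : ℝ) ^ (-c) := by
    rw [one_div, ← Real.rpow_neg_one]
    exact Real.rpow_le_rpow_of_exponent_le hNr (by linarith)
  have hdiff : (m : ℝ) / N - (m : ℝ) / ((N + 1 : ℕ) : ℝ) ≤ Λ * (N : ℝ) ^ (-c) := by
    have e : (m : ℝ) / N - (m : ℝ) / ((N + 1 : ℕ) : ℝ) = ((m : ℝ) / N) * (1 / ((N : ℝ) + 1)) := by
      rw [hNs']; field_simp; ring
    rw [e]
    have h1 : (m : ℝ) / N ≤ Λ := by rw [div_le_iff₀ hN0]; exact hmΛ
    have h2 : 1 / ((N : ℝ) + 1) ≤ (N : ℝ) ^ (-c) :=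
      le_trans (one_div_le_one_div_of_le hN0 (by linarith)) hinv
    exact mul_le_mul h1 h2 (by positivity) hΛ.le
  have : (Λ + 1) * (N : ℝ) ^ (-c) = Λ * (N : ℝ) ^ (-c) + (N : ℝ) ^ (-c) := by ring
  linarith

/-! ### CV5 -/

theorem cv5_rpow (c η : ℝ) (hc : 0 < c) (hη : 0 < η) :
    ∀ᶠ n : ℕ in atTop, (n : ℝ) ^ (1 - c) ≤ η * n := by
  have h1 : Tendsto (fun n : ℕ => (n : ℝ) ^ (-c)) atTop (nhds 0) :=
    (tendsto_rpow_neg_atTop hc).comp tendsto_natCast_atTop_atTop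
  filter_upwards [h1.eventually (gt_mem_nhds hη), eventually_gt_atTop 0] with n hn hn0
  have hn' : (0 : ℝ) < n := by exact_mod_cast hn0
  have e : (n : ℝ) ^ (1 - c) = n * (n : ℝ) ^ (-c) := by
    rw [sub_eq_add_neg, Real.rpow_add hn', Real.rpow_one]
  rw [e, mul_comm]
  exact mul_le_mul_of_nonneg_right (le_of_lt hn) hn'.le

theorem HypC.convergence {n1 : ℕ} {p : ℕ → ℕ → ℝ} (h : HypC n1 p) :
    ∃ rs : ℝ, (∀ r, r < rs → Tendsto (fun n : ℕ => p n ⌊r * (n : ℝ)⌋₊) atTop (nhds 1)) ∧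
      (∀ r, rs < r → Tendsto (fun n : ℕ => p n ⌊r * (n : ℝ)⌋₊) atTop (nhds 0)) := by
  set c : ℝ := (1 : ℝ) / 21 with hc
  clear_value c
  have hcp : 0 < c := by rw [hc]; norm_num
  obtain ⟨Λ, hΛ, hfb⟩ := h.first_bound (1 / 2) (by norm_num)
  obtain ⟨C1, hC1, nB, hB⟩ := h.stepB
  obtain ⟨C2, hC2, nC, hC⟩ := h.stepC
  rw [← hc] at hB hC
  set r0 : ℕ → ℝ := fun n => if n1 ≤ n then (MxC p n : ℝ) / n else 0 with hr0def
  have hr0eq : ∀ n, n1 ≤ n → r0 n = (MxC p n : ℝ) / n := fun n hn => by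
    simp only [hr0def, if_pos hn]
  have hr0 : ∀ n : ℕ, 0 ≤ r0 n := fun n => by
    simp only [hr0def]
    split_ifs
    · positivity
    · exact le_rfl
  obtain ⟨L, hL'⟩ := seq_lemma r0 c (max C1 C2) Λ (max n1 (max nB nC)) hcp
    (lt_max_of_lt_left hC1) hr0
    (fun n => by
      by_cases hn : n1 ≤ n
      · rw [hr0eq n hn]
        have hn' : (0 : ℝ) < n := by exact_mod_cast cv_pos h hn
        rw [div_le_iff₀ hn']
        exact hfb n _ hn (h.MxC_spec n hn).1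
      · simp only [hr0def, if_neg hn]
        exact hΛ.le)
    (fun N1 N2 h1 h2 h3 h4 => by
      have g1 : n1 ≤ N1 := le_trans (le_max_left _ _) h1
      have g2 : n1 ≤ N2 := le_trans (le_max_left _ _) h2
      have g3 : nB ≤ N1 := le_trans (le_trans (le_max_left _ _) (le_max_right _ _)) h1
      have g4 : nB ≤ N2 := le_trans (le_trans (le_max_left _ _) (le_max_right _ _)) h2
      rw [hr0eq N1 g1, hr0eq N2 g2, hr0eq (N1 + N2) (g1.trans (Nat.le_add_right _ _))]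
      have h5 := hB N1 N2 g3 g4 h3 h4
      have h6 : (0 : ℝ) ≤ ((N1 + N2 : ℕ) : ℝ) ^ (-c) := by positivity
      have h7 : C1 * ((N1 + N2 : ℕ) : ℝ) ^ (-c) ≤ max C1 C2 * ((N1 + N2 : ℕ) : ℝ) ^ (-c) :=
        mul_le_mul_of_nonneg_right (le_max_left _ _) h6
      linarith)
    (fun N h1 => by
      have g1 : n1 ≤ N := le_trans (le_max_left _ _) h1
      have g3 : nC ≤ N := le_trans (le_trans (le_max_right _ _) (le_max_right _ _)) h1
      rw [hr0eq N g1, hr0eq (N + 1) (g1.trans (Nat.le_succ _))]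
      have h5 := hC N g3
      have h6 : (0 : ℝ) ≤ (N : ℝ) ^ (-c) := by positivity
      have h7 : C2 * (N : ℝ) ^ (-c) ≤ max C1 C2 * (N : ℝ) ^ (-c) :=
        mul_le_mul_of_nonneg_right (le_max_right _ _) h6
      linarith)
  have hL : Tendsto (fun n : ℕ => (MxC p n : ℝ) / n) atTop (nhds L) := by
    refine hL'.congr' ?_
    filter_upwards [eventually_ge_atTop n1] with n hn
    exact hr0eq n hn
  have hL0 : 0 ≤ L := ge_of_tendsto' hL' hr0
  refine ⟨L, fun r hr => ?_, fun r hr => ?_⟩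
  · by_cases hr0' : r ≤ 0
    · refine Tendsto.congr' ?_ (tendsto_const_nhds (x := (1 : ℝ)))
      filter_upwards [eventually_ge_atTop n1] with n hn
      have : ⌊r * (n : ℝ)⌋₊ = 0 :=
        Nat.floor_of_nonpos (mul_nonpos_of_nonpos_of_nonneg hr0' (Nat.cast_nonneg n))
      rw [this, h.h0 n hn]
    · rw [not_le] at hr0'
      rw [Metric.tendsto_atTop']
      intro ε hε
      obtain ⟨n3, hA⟩ := h.stepA' (ε / 2) (by positivity)
      rw [← hc] at hA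
      set η := (L - r) / 2 with hη
      have hηp : 0 < η := by rw [hη]; linarith
      have ev := ((hL.eventually (lt_mem_nhds (show r + η < L by rw [hη]; linarith))).and
        (cv5_rpow c η hcp hηp)).and ((eventually_ge_atTop n3).and (eventually_ge_atTop n1))
      obtain ⟨N, hN⟩ := eventually_atTop.1 ev
      refine ⟨N, fun n hn => ?_⟩
      obtain ⟨⟨h1, h2⟩, h3, h4⟩ := hN n hn.le
      have hn' : (0 : ℝ) < n := by exact_mod_cast cv_pos h h4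
      have h5 : (⌊r * (n : ℝ)⌋₊ : ℝ) ≤ r * n := Nat.floor_le (by positivity)
      have h6 : (r + η) * n < MxC p n := by rwa [lt_div_iff₀ hn'] at h1
      have h7 := hA n ⌊r * (n : ℝ)⌋₊ h3 (by nlinarith)
      have h8 := h.le_one n ⌊r * (n : ℝ)⌋₊ h4
      rw [Real.dist_eq, abs_lt]
      constructor <;> linarith
  · rw [Metric.tendsto_atTop']
    intro ε hε
    obtain ⟨n3, hA⟩ := h.stepA ε hε
    rw [← hc] at hA
    set η := (r - L) / 3 with hη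
    have hηp : 0 < η := by rw [hη]; linarith
    have ev := ((hL.eventually (gt_mem_nhds (show L < L + η by linarith))).and
      (cv5_rpow c η hcp hηp)).and ((eventually_ge_atTop n3).and
      ((eventually_gt_atTop 0).and (tendsto_natCast_atTop_atTop.eventually
        (eventually_gt_atTop (1 / η)))))
    obtain ⟨N, hN⟩ := eventually_atTop.1 ev
    refine ⟨N, fun n hn => ?_⟩
    obtain ⟨⟨h1, h2⟩, h3, h4, h5⟩ := hN n hn.le
    have hn' : (0 : ℝ) < n := by exact_mod_cast h4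
    have h6 : (MxC p n : ℝ) < (L + η) * n := by rwa [div_lt_iff₀ hn'] at h1
    have h7 : r * n < ⌊r * (n : ℝ)⌋₊ + 1 := Nat.lt_floor_add_one _
    have h8 : 1 < η * n := by
      rw [div_lt_iff₀ hηp] at h5
      linarith
    have h9 := h.hnn n ⌊r * (n : ℝ)⌋₊
    rw [Real.dist_eq, sub_zero, abs_of_nonneg h9]
    by_contra hcon
    rw [not_lt] at hcon
    have h10 := hA n _ h3 hcon
    have h11 : (r - L - 2 * η) * n = η * n := by rw [hη]; ring
    nlinarith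

end Pool.Agent.H285R2.Col
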