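import Pool.Agent.H285R2.Col.Defs

/-! Averages over edges. -/

set_option autoImplicit false

namespace Pool.Agent.H285R2.Col
open Finset Filter Pool.Agent.H999R2.KSat

theorem pr_card_Ed (n : ℕ) : (Fintype.card (Ed n) : ℝ) = (n : ℝ) * (n - 1) := by
  classical
  have h1 : Fintype.card (Ed n) = ((univ : Finset (Fin n)).offDiag).card := by
    rw [Fintype.card_subtype]
    congr 1
    ext e
    simp [Finset.mem_offDiag]
  rw [h1, Finset.offDiag_card]
  simp only [card_univ, Fintype.card_fin]
  rcases Nat.eq_zero_or_pos n with h | h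
  · subst h; simp
  · rw [Nat.cast_sub (Nat.le_mul_of_pos_left n h)]
    push_cast; ring

theorem pr_sum_Ed {n : ℕ} (f : Fin n → Fin n → ℝ) :
    ∑ e : Ed n, f e.1.1 e.1.2 = ∑ x : Fin n, ∑ y : Fin n, ind (x ≠ y) * f x y := by
  classical
  have h1 : ∑ e : Ed n, f e.1.1 e.1.2 =
      ∑ e ∈ (univ : Finset (Fin n × Fin n)).filter (fun e => e.1 ≠ e.2), f e.1 e.2 := by
    rw [Finset.sum_subtype (p := fun e : Fin n × Fin n => e.1 ≠ e.2) _ (by simp)]
  rw [h1, Finset.sum_filter, Fintype.sum_prod_type]
  refine Finset.sum_congr rfl fun x _ => Finset.sum_congr rfl fun y _ => ?_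
  by_cases h : x = y
  · simp [h, ind]
  · simp [h, ind]

theorem E_Ed {n : ℕ} (hn : 2 ≤ n) (f : Fin n → Fin n → ℝ) :
    E (fun e : Ed n => f e.1.1 e.1.2) =
      ((n : ℝ) / (n - 1)) * E (fun x : Fin n => E (fun y : Fin n => ind (x ≠ y) * f x y)) := by
  have hn' : (2 : ℝ) ≤ n := by exact_mod_cast hn
  unfold E
  rw [pr_sum_Ed, pr_card_Ed, ← Finset.sum_div, Fintype.card_fin]
  have h1 : (n : ℝ) ≠ 0 := by positivity
  have h2 : (n : ℝ) - 1 ≠ 0 := by linarith
  field_simp

theorem pr_E_ind {n : ℕ} (Z : Fin n → Prop) :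
    ∃ c : ℕ, c ≤ n ∧ E (fun z => ind (Z z)) = (c : ℝ) / n := by
  classical
  refine ⟨(univ.filter Z).card, ?_, ?_⟩
  · simpa using Finset.card_filter_le (univ : Finset (Fin n)) Z
  · unfold E
    rw [Fintype.card_fin]
    congr 1
    rw [Finset.card_filter]
    push_cast
    refine Finset.sum_congr rfl fun x _ => ?_
    unfold ind
    by_cases h : Z x <;> simp [h]

theorem E_ind_mul_nonneg {n : ℕ} (Z : Fin n → Prop) :
    0 ≤ E (fun z => ind (Z z)) * (E (fun z => ind (Z z)) - 1 / n) := by
  obtain ⟨c, hc, h⟩ := pr_E_ind Z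
  rw [h]
  rcases Nat.eq_zero_or_pos c with h0 | h0
  · subst h0; simp
  · have h1 : (1 : ℝ) ≤ c := by exact_mod_cast h0
    apply mul_nonneg (by positivity)
    rw [← sub_div]
    exact div_nonneg (by linarith) (by positivity)

theorem pr_pair {n : ℕ} (hn : 2 ≤ n) (Z : Fin n → Prop) :
    E (fun z => ind (Z z)) * (E (fun z => ind (Z z)) - 1 / n) ≤
      E (fun e : Ed n => ind (Z e.1.1 ∧ Z e.1.2)) := by
  classical
  have hn' : (2 : ℝ) ≤ n := by exact_mod_cast hn
  rw [E_Ed hn (fun x y => ind (Z x ∧ Z y))]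
  set S : ℝ := ∑ z : Fin n, ind (Z z) with hS
  have hE : E (fun z : Fin n => ind (Z z)) = S / n := by
    unfold E; rw [Fintype.card_fin]
  have hdouble : E (fun x : Fin n => E (fun y : Fin n => ind (x ≠ y) * ind (Z x ∧ Z y))) =
      (S * S - S) / (n * n) := by
    have hin : ∀ x : Fin n, E (fun y : Fin n => ind (x ≠ y) * ind (Z x ∧ Z y)) =
        (ind (Z x) * S - ind (Z x)) / n := by
      intro x
      unfold E
      rw [Fintype.card_fin]
      congr 1
      have : ∀ y : Fin n, ind (x ≠ y) * ind (Z x ∧ Z y) =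
          ind (Z x) * ind (Z y) - (if y = x then ind (Z x) else 0) := by
        intro y
        by_cases hxy : x = y
        · subst hxy
          simp only [ne_eq, not_true_eq_false, if_true]
          rw [ind_false (by simp), ind_sq]; ring
        · have : ¬ (y = x) := fun h => hxy h.symm
          rw [ind_true (by simpa using hxy), ind_and]
          simp [this]
      rw [Finset.sum_congr rfl fun y _ => this y, Finset.sum_sub_distrib, ← Finset.mul_sum]
      simp [hS]
    rw [E_congr hin]
    unfold E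
    rw [Fintype.card_fin, ← Finset.sum_div, Finset.sum_sub_distrib, ← Finset.sum_mul, div_div]
  rw [hdouble, hE]
  obtain ⟨c, hc, hc'⟩ := pr_E_ind Z
  rw [hE] at hc'
  have hn0 : (n : ℝ) ≠ 0 := by positivity
  have hSc : S = c := by
    field_simp at hc'; exact hc'
  rw [hSc]
  have hnn : (0 : ℝ) ≤ (c : ℝ) * c - c := by
    rcases Nat.eq_zero_or_pos c with h0 | h0
    · subst h0; simp
    · have h1 : (1 : ℝ) ≤ c := by exact_mod_cast h0
      nlinarith
  have h2 : (0 : ℝ) < (n : ℝ) - 1 := by linarith
  have e1 : (c : ℝ) / n * ((c : ℝ) / n - 1 / n) = ((c : ℝ) * c - c) / (n * n) := by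
    field_simp
  rw [e1]
  have h3 : (1 : ℝ) ≤ (n : ℝ) / (n - 1) := by
    rw [le_div_iff₀ h2]; linarith
  have h4 : (0 : ℝ) ≤ ((c : ℝ) * c - c) / (n * n) := by positivity
  nlinarith

theorem E_inc {n : ℕ} (hn : 2 ≤ n) (v : Fin n) (h : Fin n → ℝ) (h0 : ∀ y, 0 ≤ h y) :
    E (fun e : Ed n => ind (inc e v) * h (oth e v)) ≤ 2 / ((n : ℝ) - 1) * E h := by
  classical
  have hn' : (2 : ℝ) ≤ n := by exact_mod_cast hn
  have key : ∑ e : Ed n, ind (inc e v) * h (oth e v) ≤ 2 * ∑ y, h y := by
    have := pr_sum_Ed (fun x y : Fin n =>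
      ind (x = v ∨ y = v) * h (if x = v then y else x))
    have h1 : ∑ e : Ed n, ind (inc e v) * h (oth e v) =
        ∑ x : Fin n, ∑ y : Fin n, ind (x ≠ y) *
          (ind (x = v ∨ y = v) * h (if x = v then y else x)) := by
      rw [← this]; rfl
    rw [h1]
    have hb : ∀ x y : Fin n, ind (x ≠ y) * (ind (x = v ∨ y = v) * h (if x = v then y else x)) ≤
        (if x = v then h y else 0) + (if y = v then h x else 0) := by
      intro x y
      have hx := h0 x
      have hy := h0 y
      by_cases hxv : x = v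
      · by_cases hyv : y = v
        · subst hxv; subst hyv
          rw [ind_false (by simp)]; simp [hy]
        · simp only [hxv, true_or, if_true, hyv, if_false, add_zero]
          rw [ind_true trivial]
          have := ind_le_one (v ≠ y)
          nlinarith
      · by_cases hyv : y = v
        · simp only [hyv, or_true, if_true, hxv, if_false, zero_add]
          rw [ind_true trivial]
          have := ind_le_one (x ≠ v)
          nlinarith
        · rw [ind_false (P := (x = v ∨ y = v)) (by tauto)]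
          simp [hxv, hyv]
    calc ∑ x : Fin n, ∑ y : Fin n, ind (x ≠ y) *
          (ind (x = v ∨ y = v) * h (if x = v then y else x))
        ≤ ∑ x : Fin n, ∑ y : Fin n, ((if x = v then h y else 0) + (if y = v then h x else 0)) :=
          Finset.sum_le_sum fun x _ => Finset.sum_le_sum fun y _ => hb x y
      _ = 2 * ∑ y, h y := by
          simp only [Finset.sum_add_distrib]
          have ha : ∑ x : Fin n, ∑ y : Fin n, (if x = v then h y else 0) = ∑ y, h y := by
            rw [Finset.sum_comm]
            refine Finset.sum_congr rfl fun y _ => ?_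
            simp
          have hb : ∑ x : Fin n, ∑ y : Fin n, (if y = v then h x else 0) = ∑ y, h y := by
            refine Finset.sum_congr rfl fun y _ => ?_
            simp
          rw [ha, hb]; ring
  unfold E
  rw [pr_card_Ed, Fintype.card_fin]
  have h1 : (n : ℝ) ≠ 0 := by positivity
  have h2 : (0 : ℝ) < (n : ℝ) - 1 := by linarith
  have h3 : (0 : ℝ) < (n : ℝ) * (n - 1) := by positivity
  rw [div_mul_div_comm, div_le_div_iff₀ h3 (by positivity)]
  nlinarith [mul_le_mul_of_nonneg_right key h3.le]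

end Pool.Agent.H285R2.Col
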