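import Pool.Agent.H285R2.Col.Defs
import Pool.Agent.H285R2.Col.PR

/-!
# Task KS: telescoping sums over a filtered process
-/

set_option autoImplicit false

namespace Pool.Agent.H285R2.Col
open Finset Filter Pool.Agent.H999R2.KSat

theorem ks_inter {n k : ℕ} (S : Set (Fin n)) (Q : Set (Cg n k)) (e : Ed n) :
    ind (Q ∩ {a | av S e → ok a e}).Nonempty =
      ind Q.Nonempty - ind Q.Nonempty * ind (av S e ∧ ∀ a ∈ Q, ¬ ok a e) := by
  by_cases hQ : Q.Nonempty
  · by_cases hk : av S e ∧ ∀ a ∈ Q, ¬ ok a e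
    · rw [ind_true hQ, ind_true hk, ind_false]
      · norm_num
      · rintro ⟨a, ha, hb⟩
        exact hk.2 a ha (hb hk.1)
    · rw [ind_true hQ, ind_false hk, ind_true]
      · norm_num
      · by_cases hav : av S e
        · have : ∃ a ∈ Q, ok a e := by
            by_contra hcon
            apply hk
            refine ⟨hav, fun a ha hok => hcon ⟨a, ha, hok⟩⟩
          obtain ⟨a, ha, hok⟩ := this
          exact ⟨a, ha, fun _ => hok⟩
        · obtain ⟨a, ha⟩ := hQ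
          exact ⟨a, ha, fun h => absurd h hav⟩
  · rw [ind_false hQ, ind_false]
    · norm_num
    · rintro ⟨a, ha, _⟩
      exact hQ ⟨a, ha⟩

theorem ks_step {n k N : ℕ} [Nonempty (Ed n)] (S : Set (Fin n)) (t0 : ℕ)
    (Q : ℕ → (Fin N → Ed n) → Set (Cg n k)) (hQ : Proc S t0 Q) (M : ℕ) (h0 : t0 ≤ M)
    (hM : M < N) :
    E (fun ω => ind (Q M ω).Nonempty *
      E (fun e : Ed n => ind (av S e ∧ ∀ a ∈ Q M ω, ¬ ok a e))) =
    E (fun ω => ind (Q M ω).Nonempty) - E (fun ω => ind (Q (M + 1) ω).Nonempty) := by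
  have h1 : E (fun ω => ind (Q (M + 1) ω).Nonempty) =
      E (fun ω : Fin N → Ed n => ind (Q M ω).Nonempty - ind (Q M ω).Nonempty *
        E (fun e : Ed n => ind (av S e ∧ ∀ a ∈ Q M ω, ¬ ok a e))) := by
    rw [E_update (⟨M, hM⟩ : Fin N)]
    refine E_congr fun ω => ?_
    have h2 : ∀ e : Ed n, ind (Q (M + 1) (Function.update ω ⟨M, hM⟩ e)).Nonempty =
        ind (Q M ω).Nonempty - ind (Q M ω).Nonempty *
          ind (av S e ∧ ∀ a ∈ Q M ω, ¬ ok a e) := by
      intro e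
      have h3 := hQ.step ⟨M, hM⟩ (Function.update ω ⟨M, hM⟩ e) h0
      have h4 := hQ.inv ⟨M, hM⟩ ω e h0
      simp only [Function.update_self] at h3 h4
      rw [h3, h4]
      exact ks_inter S (Q M ω) e
    rw [E_congr h2, E_sub, E_const, E_mul_left]
  rw [h1, E_sub]
  ring

theorem kill_sum {n k N : ℕ} (S : Set (Fin n)) (t0 : ℕ)
    (Q : ℕ → (Fin N → Ed n) → Set (Cg n k)) (hQ : Proc S t0 Q) :
    ∑ M ∈ Ico t0 N, E (fun ω => ind (Q M ω).Nonempty *
      E (fun e : Ed n => ind (av S e ∧ ∀ a ∈ Q M ω, ¬ ok a e))) ≤ 1 := by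
  rcases isEmpty_or_nonempty (Ed n) with hE | hE
  · have : ∀ M ∈ Ico t0 N, E (fun ω : Fin N → Ed n => ind (Q M ω).Nonempty *
        E (fun e : Ed n => ind (av S e ∧ ∀ a ∈ Q M ω, ¬ ok a e))) = 0 := by
      intro M hM
      rw [mem_Ico] at hM
      have : IsEmpty (Fin N → Ed n) := ⟨fun F => hE.false (F ⟨M, hM.2⟩)⟩
      simp [E]
    rw [Finset.sum_eq_zero this]
    norm_num
  · rw [Finset.sum_congr rfl (fun M hM => ks_step S t0 Q hQ M (mem_Ico.1 hM).1 (mem_Ico.1 hM).2)]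
    rw [Finset.sum_Ico_eq_sum_range]
    have h := Finset.sum_range_sub' (fun i => E (fun ω : Fin N → Ed n =>
      ind (Q (t0 + i) ω).Nonempty)) (N - t0)
    simp only [← add_assoc] at h
    rw [h]
    have h1 : E (fun ω : Fin N → Ed n => ind (Q (t0 + 0) ω).Nonempty) ≤ 1 :=
      E_le_of_nonneg (by norm_num) fun ω => ind_le_one _
    have h2 : 0 ≤ E (fun ω : Fin N → Ed n => ind (Q (t0 + (N - t0)) ω).Nonempty) :=
      E_nonneg fun ω => ind_nonneg _
    linarith

theorem xi_sq_sum {n k N : ℕ} (hn : 2 ≤ n) (S : Set (Fin n)) (c : Fin k) (t0 : ℕ)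
    (Q : ℕ → (Fin N → Ed n) → Set (Cg n k)) (hQ : Proc S t0 Q) :
    ∑ M ∈ Ico t0 N, E (fun ω => ind (Q M ω).Nonempty *
      (xi S c (Q M ω) * (xi S c (Q M ω) - 1 / n))) ≤ 1 := by
  refine le_trans ?_ (kill_sum S t0 Q hQ)
  refine Finset.sum_le_sum fun M _ => E_mono fun ω => ?_
  refine mul_le_mul_of_nonneg_left ?_ (ind_nonneg _)
  refine le_trans (pr_pair hn (fun z => fr S c (Q M ω) z)) ?_
  refine E_mono fun e => ind_mono ?_
  rintro ⟨h1, h2⟩
  refine ⟨⟨h1.1, h2.1⟩, fun a ha hok => hok ?_⟩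
  rw [h1.2 a ha, h2.2 a ha]

theorem xi_sum {n k N : ℕ} (hn : 2 ≤ n) (S : Set (Fin n)) (c : Fin k) (t0 : ℕ) (ht0 : t0 ≤ N)
    (Q : ℕ → (Fin N → Ed n) → Set (Cg n k)) (hQ : Proc S t0 Q) (lam : ℝ) (hlam : 0 < lam) :
    ∑ M ∈ Ico t0 N, E (fun ω => ind (Q M ω).Nonempty * xi S c (Q M ω)) ≤
      ((N : ℝ) - t0) * (1 / n + lam) + 1 / lam := by
  have hn0 : (0 : ℝ) < n := by exact_mod_cast (by omega : 0 < n)
  have key : ∀ M ∈ Ico t0 N, E (fun ω : Fin N → Ed n => ind (Q M ω).Nonempty * xi S c (Q M ω)) ≤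
      (1 / (n : ℝ) + lam) + (1 / lam) * E (fun ω : Fin N → Ed n => ind (Q M ω).Nonempty *
        (xi S c (Q M ω) * (xi S c (Q M ω) - 1 / n))) := by
    intro M _
    have h1 : E (fun ω : Fin N → Ed n => ind (Q M ω).Nonempty * xi S c (Q M ω)) ≤
        E (fun ω : Fin N → Ed n => ind (Q M ω).Nonempty * (1 / (n : ℝ) + lam) +
          (1 / lam) * (ind (Q M ω).Nonempty *
            (xi S c (Q M ω) * (xi S c (Q M ω) - 1 / n)))) := by
      refine E_mono fun ω => ?_
      have hx0 : 0 ≤ xi S c (Q M ω) := E_nonneg fun _ => ind_nonneg _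
      have hx1 : 0 ≤ xi S c (Q M ω) * (xi S c (Q M ω) - 1 / n) :=
        E_ind_mul_nonneg (fun z => fr S c (Q M ω) z)
      have hx2 : xi S c (Q M ω) ≤ (1 / (n : ℝ) + lam) +
          (1 / lam) * (xi S c (Q M ω) * (xi S c (Q M ω) - 1 / n)) := by
        by_cases hc : xi S c (Q M ω) - 1 / n ≤ lam
        · have : 0 ≤ (1 / lam) * (xi S c (Q M ω) * (xi S c (Q M ω) - 1 / n)) := by positivity
          linarith
        · rw [not_le] at hc
          have h2 : xi S c (Q M ω) * lam ≤ xi S c (Q M ω) * (xi S c (Q M ω) - 1 / n) :=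
            mul_le_mul_of_nonneg_left hc.le hx0
          have h3 : xi S c (Q M ω) ≤
              (1 / lam) * (xi S c (Q M ω) * (xi S c (Q M ω) - 1 / n)) := by
            rw [one_div, inv_mul_eq_div, le_div_iff₀ hlam]
            exact h2
          have h4 : 0 ≤ 1 / (n : ℝ) := by positivity
          linarith
      calc ind (Q M ω).Nonempty * xi S c (Q M ω)
          ≤ ind (Q M ω).Nonempty * ((1 / (n : ℝ) + lam) +
          (1 / lam) * (xi S c (Q M ω) * (xi S c (Q M ω) - 1 / n))) :=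
            mul_le_mul_of_nonneg_left hx2 (ind_nonneg _)
        _ = _ := by ring
    refine h1.trans ?_
    rw [E_add, E_mul_left]
    have h5 : E (fun ω : Fin N → Ed n => ind (Q M ω).Nonempty * (1 / (n : ℝ) + lam)) ≤
        1 / (n : ℝ) + lam := by
      have h6 : 0 ≤ 1 / (n : ℝ) + lam := by positivity
      refine E_le_of_nonneg h6 fun ω => ?_
      calc ind (Q M ω).Nonempty * (1 / (n : ℝ) + lam) ≤ 1 * (1 / (n : ℝ) + lam) :=
            mul_le_mul_of_nonneg_right (ind_le_one _) h6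
        _ = _ := one_mul _
    linarith
  refine (Finset.sum_le_sum key).trans ?_
  rw [Finset.sum_add_distrib, ← Finset.mul_sum, Finset.sum_const, Nat.card_Ico, nsmul_eq_mul,
    Nat.cast_sub ht0]
  have h7 := xi_sq_sum hn S c t0 Q hQ
  have h8 : (1 / lam) * ∑ M ∈ Ico t0 N, E (fun ω : Fin N → Ed n => ind (Q M ω).Nonempty *
      (xi S c (Q M ω) * (xi S c (Q M ω) - 1 / n))) ≤ (1 / lam) * 1 :=
    mul_le_mul_of_nonneg_left h7 (by positivity)
  linarith

end Pool.Agent.H285R2.Col
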