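import Pool.Agent.H285R2.Col.PR
import Pool.Agent.H285R2.Col.KS

/-! Task DD: the effect of one random edge. -/

set_option autoImplicit false

namespace Pool.Agent.H285R2.Col
open Finset Pool.Agent.H999R2.KSat

/-- the probing process is filtered -/
theorem dd_proc {n k N : ℕ} (A : Set (Cg n k)) :
    Proc (N := N) (∅ : Set (Fin n)) 0 (fun M W => cut A W M) := by
  refine ⟨fun M ω _ => ?_, fun M ω e _ => ?_⟩
  · ext a
    simp only [cut, av, Set.mem_ofPred_eq, Set.mem_inter_iff, Set.mem_empty_iff_false,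
      not_false_eq_true, and_self, true_implies]
    constructor
    · rintro ⟨h1, h2⟩
      exact ⟨⟨h1, fun l hl => h2 l (by omega)⟩, h2 M (by omega)⟩
    · rintro ⟨⟨h1, h2⟩, h3⟩
      refine ⟨h1, fun l hl => ?_⟩
      rcases Nat.lt_succ_iff_lt_or_eq.1 hl with h | h
      · exact h2 l h
      · have : l = M := Fin.ext h
        rw [this]; exact h3
  · ext a
    simp only [cut, Set.mem_ofPred_eq]
    refine and_congr_right fun _ => forall_congr' fun l => ?_
    refine imp_congr_right fun hl => ?_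
    rw [Function.update_of_ne]
    rintro rfl
    exact absurd hl (lt_irrefl _)

/-- indicator that the edge `e` kills the surviving set at time `u` -/
noncomputable def ddkl {n k : ℕ} (Q : Set (Cg n k)) (e : Ed n) : ℝ :=
  ind (Q.Nonempty ∧ ∀ a ∈ Q, ¬ ok a e)

/-- the effect of the pair `x`, `y` -/
noncomputable def dddl {n k : ℕ} (s : ℕ) (A : Set (Cg n k)) (x y : Fin n) : ℝ :=
  E (fun W : Fin s → Ed n => ∑ u ∈ range s,
    ind ((cut A W u).Nonempty ∧ ∀ a ∈ cut A W u, a x = a y))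

theorem dd_not_ok {n k : ℕ} (a : Cg n k) (e : Ed n) : ¬ ok a e ↔ a e.1.1 = a e.1.2 := by
  unfold ok; exact not_not

theorem dd_diff {n k : ℕ} (s : ℕ) (A : Set (Cg n k)) (e : Ed n) :
    RC s A - RC s (A ∩ {a | ok a e}) = dddl s A e.1.1 e.1.2 := by
  unfold RC dddl
  rw [← E_sub]
  refine E_congr fun W => ?_
  rw [← Finset.sum_sub_distrib]
  refine Finset.sum_congr rfl fun u _ => ?_
  have hc : cut (A ∩ {a | ok a e}) W u = cut A W u ∩ {a | ok a e} := by
    ext a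
    simp only [cut, Set.mem_ofPred_eq, Set.mem_inter_iff]
    tauto
  rw [hc]
  have h1 : ind ((cut A W u).Nonempty ∧ ∀ a ∈ cut A W u, a e.1.1 = a e.1.2) =
      ind ((cut A W u).Nonempty ∧ ¬ (cut A W u ∩ {a | ok a e}).Nonempty) := by
    refine ind_congr (and_congr_right fun _ => ?_)
    rw [Set.not_nonempty_iff_eq_empty, Set.eq_empty_iff_forall_notMem]
    refine forall_congr' fun a => ?_
    rw [Set.mem_inter_iff, not_and, Set.mem_ofPred_eq, dd_not_ok]
  rw [h1, ind_and, ind_not]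
  have h2 : ind (cut A W u ∩ {a | ok a e}).Nonempty =
      ind (cut A W u).Nonempty * ind (cut A W u ∩ {a | ok a e}).Nonempty := by
    rw [← ind_and]
    refine ind_congr ⟨fun h => ⟨?_, h⟩, fun h => h.2⟩
    obtain ⟨a, ha⟩ := h
    exact ⟨a, ha.1⟩
  rw [mul_sub, mul_one, ← h2]

theorem dd_dddl_nonneg {n k : ℕ} (s : ℕ) (A : Set (Cg n k)) (x y : Fin n) :
    0 ≤ dddl s A x y :=
  E_nonneg fun _ => Finset.sum_nonneg fun _ _ => ind_nonneg _

theorem dd_dddl_le {n k : ℕ} (s : ℕ) (A : Set (Cg n k)) (x y : Fin n) (h : x ≠ y) :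
    dddl s A x y ≤ D1 s A x := by
  unfold dddl D1
  refine E_mono fun W => Finset.sum_le_sum fun u _ => ind_mono ?_
  rintro ⟨h1, h2⟩
  exact ⟨h1, y, h.symm, h2⟩

theorem dd_D1_nonneg {n k : ℕ} (s : ℕ) (A : Set (Cg n k)) (x : Fin n) :
    0 ≤ D1 s A x :=
  E_nonneg fun _ => Finset.sum_nonneg fun _ _ => ind_nonneg _

theorem dd_E_eq {n : ℕ} (x : Fin n) : E (fun y : Fin n => ind (x = y)) = 1 / n := by
  unfold E
  rw [Finset.sum_eq_single x, ind_true rfl, Fintype.card_fin]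
  · intro y _ hy
    exact ind_false fun h => hy h.symm
  · intro h
    exact absurd (Finset.mem_univ x) h

/-- the basic estimate for one set -/
theorem dd_basic {n k : ℕ} (hn : 2 ≤ n) (Q : Set (Cg n k)) (x : Fin n) :
    (((n : ℝ) / (n - 1)) * E (fun y : Fin n => ind (x ≠ y) *
      ind (Q.Nonempty ∧ ∀ a ∈ Q, a x = a y))) ^ 2 ≤
      ind Q.Nonempty * E (fun e : Ed n => ind (av ∅ e ∧ ∀ a ∈ Q, ¬ ok a e)) := by
  by_cases hQ : Q.Nonempty
  swap
  · rw [ind_false hQ, zero_mul]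
    have : ∀ y : Fin n, ind (x ≠ y) * ind (Q.Nonempty ∧ ∀ a ∈ Q, a x = a y) = 0 := by
      intro y
      rw [ind_false (P := Q.Nonempty ∧ _) (fun h => hQ h.1), mul_zero]
    rw [E_congr this, E_zero]
    simp
  rw [ind_true hQ, one_mul]
  have hn0 : (0 : ℝ) < n := by exact_mod_cast (by omega : 0 < n)
  have hn1 : (0 : ℝ) < (n : ℝ) - 1 := by
    have : (2 : ℝ) ≤ n := by exact_mod_cast hn
    linarith
  -- the class of `x`
  set Z : Fin n → Prop := fun y => ∀ a ∈ Q, a x = a y with hZ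
  set z : ℝ := E (fun y => ind (Z y)) with hz
  have hZx : Z x := fun a _ => rfl
  have hfin : Nonempty (Fin n) := ⟨x⟩
  have hEx : E (fun y : Fin n => ind (x = y)) = 1 / n := dd_E_eq x
  have h1 : ∀ x' : Fin n, Z x' → E (fun y : Fin n => ind (x' ≠ y) * ind (Z y)) = z - 1 / n := by
    intro x' hx'
    have hEx' : E (fun y : Fin n => ind (x' = y)) = 1 / n := dd_E_eq x'
    rw [hz, ← hEx', ← E_sub]
    refine E_congr fun y => ?_
    by_cases hy : x' = y
    · subst hy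
      rw [ind_false (P := x' ≠ x') (by simp), ind_true hx', ind_true (P := x' = x') rfl]
      ring
    · rw [ind_true (P := x' ≠ y) hy, ind_false (P := x' = y) hy]
      ring
  have hL : E (fun y : Fin n => ind (x ≠ y) * ind (Q.Nonempty ∧ ∀ a ∈ Q, a x = a y)) =
      z - 1 / n := by
    rw [← h1 x hZx]
    refine E_congr fun y => ?_
    rw [ind_congr (P := Q.Nonempty ∧ ∀ a ∈ Q, a x = a y) (Q := Z y)
      ⟨fun h => h.2, fun h => ⟨hQ, h⟩⟩]
  rw [hL]
  have hz1 : z ≤ 1 := E_le_const fun y => ind_le_one _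
  have hz0 : 1 / n ≤ z := by
    rw [← hEx]
    refine E_mono fun y => ind_mono ?_
    rintro rfl
    exact hZx
  have hR : ((n : ℝ) / (n - 1)) * (z * (z - 1 / n)) ≤
      E (fun e : Ed n => ind (av ∅ e ∧ ∀ a ∈ Q, ¬ ok a e)) := by
    have h2 : ((n : ℝ) / (n - 1)) * (z * (z - 1 / n)) =
        E (fun e : Ed n => ind (Z e.1.1) * ind (Z e.1.2)) := by
      rw [E_Ed hn (fun x y => ind (Z x) * ind (Z y))]
      congr 1
      have h3 : ∀ x' : Fin n, E (fun y : Fin n => ind (x' ≠ y) * (ind (Z x') * ind (Z y))) =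
          ind (Z x') * (z - 1 / n) := by
        intro x'
        by_cases hx' : Z x'
        · rw [ind_true hx', ← h1 x' hx', one_mul]
          refine E_congr fun y => ?_
          rw [one_mul]
        · rw [ind_false hx', zero_mul]
          rw [E_congr (g := fun _ => 0) (fun y => by ring), E_zero]
      rw [E_congr h3, E_mul_right]
    rw [h2]
    refine E_mono fun e => ?_
    rw [← ind_and]
    refine ind_mono ?_
    rintro ⟨h3, h4⟩
    refine ⟨⟨by simp, by simp⟩, fun a ha => ?_⟩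
    rw [dd_not_ok]
    exact (h3 a ha).symm.trans (h4 a ha)
  refine le_trans ?_ hR
  have h4 : ((n : ℝ) / (n - 1)) * (z - 1 / n) ≤ z := by
    have : ((n : ℝ) / (n - 1)) * (z - 1 / n) = (n * z - 1) / (n - 1) := by
      field_simp
    rw [this, div_le_iff₀ hn1]
    linarith
  have h5 : 0 ≤ z - 1 / n := by linarith
  have h6 : 0 ≤ ((n : ℝ) / (n - 1)) * (z - 1 / n) := by positivity
  calc (((n : ℝ) / (n - 1)) * (z - 1 / n)) ^ 2 =
      (((n : ℝ) / (n - 1)) * (z - 1 / n)) * (((n : ℝ) / (n - 1)) * (z - 1 / n)) := by ring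
    _ ≤ z * (((n : ℝ) / (n - 1)) * (z - 1 / n)) := mul_le_mul_of_nonneg_right h4 h6
    _ = ((n : ℝ) / (n - 1)) * (z * (z - 1 / n)) := by ring

/-- the average over the second endpoint -/
theorem dd_avg {n k : ℕ} (T : ℕ) (hn : 2 ≤ n) (hT : 1 ≤ T) (A : Set (Cg n k)) (x : Fin n) :
    ((n : ℝ) / (n - 1)) * E (fun y : Fin n => ind (x ≠ y) * dddl (T ^ 10) A x y) ≤
      2 * (T : ℝ) ^ 5 := by
  have hT0 : (0 : ℝ) < (T : ℝ) ^ 5 := by
    have : (0 : ℝ) < T := by exact_mod_cast hT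
    positivity
  have hE : Nonempty (Ed n) :=
    ⟨⟨(⟨0, by omega⟩, ⟨1, by omega⟩), by simp⟩⟩
  have hW : Nonempty (Fin (T ^ 10) → Ed n) := inferInstance
  -- exchange the averages
  have h1 : ((n : ℝ) / (n - 1)) * E (fun y : Fin n => ind (x ≠ y) * dddl (T ^ 10) A x y) =
      E (fun W : Fin (T ^ 10) → Ed n => ∑ u ∈ range (T ^ 10), ((n : ℝ) / (n - 1)) *
        E (fun y : Fin n => ind (x ≠ y) *
          ind ((cut A W u).Nonempty ∧ ∀ a ∈ cut A W u, a x = a y))) := by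
    unfold dddl
    have e1 : ∀ y : Fin n, ind (x ≠ y) * E (fun W : Fin (T ^ 10) → Ed n =>
        ∑ u ∈ range (T ^ 10), ind ((cut A W u).Nonempty ∧ ∀ a ∈ cut A W u, a x = a y)) =
        E (fun W : Fin (T ^ 10) → Ed n => ∑ u ∈ range (T ^ 10), ind (x ≠ y) *
          ind ((cut A W u).Nonempty ∧ ∀ a ∈ cut A W u, a x = a y)) := by
      intro y
      rw [← E_mul_left]
      refine E_congr fun W => ?_
      rw [Finset.mul_sum]
    rw [E_congr e1, E_comm, ← E_mul_left]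
    refine E_congr fun W => ?_
    rw [E_sum, Finset.mul_sum]
  rw [h1]
  have h2 : ∀ (W : Fin (T ^ 10) → Ed n) (u : ℕ), ((n : ℝ) / (n - 1)) *
        E (fun y : Fin n => ind (x ≠ y) *
          ind ((cut A W u).Nonempty ∧ ∀ a ∈ cut A W u, a x = a y)) ≤
      1 / (T : ℝ) ^ 5 + (T : ℝ) ^ 5 * (ind (cut A W u).Nonempty *
        E (fun e : Ed n => ind (av ∅ e ∧ ∀ a ∈ cut A W u, ¬ ok a e))) := by
    intro W u
    have hb := dd_basic hn (cut A W u) x
    set al := ((n : ℝ) / (n - 1)) * E (fun y : Fin n => ind (x ≠ y) *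
          ind ((cut A W u).Nonempty ∧ ∀ a ∈ cut A W u, a x = a y)) with hal
    have h3 : al ≤ 1 / (T : ℝ) ^ 5 + (T : ℝ) ^ 5 * al ^ 2 := by
      have h4 : al * (1 / (T : ℝ) ^ 5) ≤ (1 / (T : ℝ) ^ 5) ^ 2 + al ^ 2 := by
        nlinarith [sq_nonneg (al - 1 / (T : ℝ) ^ 5), sq_nonneg al,
          sq_nonneg (1 / (T : ℝ) ^ 5), sq_nonneg (al + 1 / (T : ℝ) ^ 5)]
      have h5 : (T : ℝ) ^ 5 * (1 / (T : ℝ) ^ 5) = 1 := by
        field_simp
      calc al = (T : ℝ) ^ 5 * (al * (1 / (T : ℝ) ^ 5)) := by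
            rw [mul_left_comm, h5, mul_one]
        _ ≤ (T : ℝ) ^ 5 * ((1 / (T : ℝ) ^ 5) ^ 2 + al ^ 2) :=
            mul_le_mul_of_nonneg_left h4 hT0.le
        _ = ((T : ℝ) ^ 5 * (1 / (T : ℝ) ^ 5)) * (1 / (T : ℝ) ^ 5) + (T : ℝ) ^ 5 * al ^ 2 := by
            ring
        _ = _ := by rw [h5, one_mul]
    refine h3.trans ?_
    have := mul_le_mul_of_nonneg_left hb hT0.le
    linarith
  refine (E_mono fun W => Finset.sum_le_sum fun u _ => h2 W u).trans ?_
  rw [E_sum]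
  have h6 : ∀ u ∈ range (T ^ 10), E (fun W : Fin (T ^ 10) → Ed n =>
      1 / (T : ℝ) ^ 5 + (T : ℝ) ^ 5 * (ind (cut A W u).Nonempty *
        E (fun e : Ed n => ind (av ∅ e ∧ ∀ a ∈ cut A W u, ¬ ok a e)))) =
      1 / (T : ℝ) ^ 5 + (T : ℝ) ^ 5 * E (fun W : Fin (T ^ 10) → Ed n =>
        ind (cut A W u).Nonempty *
        E (fun e : Ed n => ind (av ∅ e ∧ ∀ a ∈ cut A W u, ¬ ok a e))) := by
    intro u _
    rw [E_add, E_const, E_mul_left]
  rw [Finset.sum_congr rfl h6, Finset.sum_add_distrib, ← Finset.mul_sum, Finset.sum_const,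
    Finset.card_range, nsmul_eq_mul]
  have hk := kill_sum (N := T ^ 10) (∅ : Set (Fin n)) 0 (fun M W => cut A W M) (dd_proc A)
  rw [← Finset.range_eq_Ico] at hk
  have h7 : ((T ^ 10 : ℕ) : ℝ) * (1 / (T : ℝ) ^ 5) = (T : ℝ) ^ 5 := by
    push_cast
    field_simp
  rw [h7]
  have h8 := mul_le_mul_of_nonneg_left hk hT0.le
  linarith

theorem delta_le {n k : ℕ} (T : ℕ) (hn : 2 ≤ n) (hT : 1 ≤ T) (A : Set (Cg n k)) :
    E (fun e : Ed n => (RC (T ^ 10) A - RC (T ^ 10) (A ∩ {a | ok a e})) ^ 2) ≤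
      2 * (T : ℝ) ^ 5 * E (fun v : Fin n => D1 (T ^ 10) A v) := by
  have h1 : ∀ e : Ed n, (RC (T ^ 10) A - RC (T ^ 10) (A ∩ {a | ok a e})) ^ 2 ≤
      D1 (T ^ 10) A e.1.1 * dddl (T ^ 10) A e.1.1 e.1.2 := by
    intro e
    rw [dd_diff, sq]
    exact mul_le_mul_of_nonneg_right (dd_dddl_le _ _ _ _ e.2) (dd_dddl_nonneg _ _ _ _)
  refine (E_mono h1).trans ?_
  rw [E_Ed hn (fun x y => D1 (T ^ 10) A x * dddl (T ^ 10) A x y), ← E_mul_left, ← E_mul_left]
  refine E_mono fun x => ?_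
  have h2 : E (fun y : Fin n => ind (x ≠ y) * (D1 (T ^ 10) A x * dddl (T ^ 10) A x y)) =
      D1 (T ^ 10) A x * E (fun y : Fin n => ind (x ≠ y) * dddl (T ^ 10) A x y) := by
    rw [← E_mul_left]
    exact E_congr fun y => by ring
  rw [h2]
  have h3 := mul_le_mul_of_nonneg_left (dd_avg T hn hT A x) (dd_D1_nonneg (T ^ 10) A x)
  calc (n : ℝ) / (n - 1) * (D1 (T ^ 10) A x * E (fun y : Fin n => ind (x ≠ y) *
        dddl (T ^ 10) A x y)) = D1 (T ^ 10) A x * ((n : ℝ) / (n - 1) *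
        E (fun y : Fin n => ind (x ≠ y) * dddl (T ^ 10) A x y)) := by ring
    _ ≤ D1 (T ^ 10) A x * (2 * (T : ℝ) ^ 5) := h3
    _ = _ := by ring

end Pool.Agent.H285R2.Col
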