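import Pool.Agent.H999R2.KSat.Defs

/-!
# k-colourability of sparse random graphs: definitions

`E`, `ind` and their calculus come from `Pool.Agent.H999R2.KSat.Defs`.
-/

set_option autoImplicit false

namespace Pool.Agent.H285R2.Col

open Finset Pool.Agent.H999R2.KSat

/-- ordered pairs of distinct vertices (the random edges; repetitions are allowed) -/
abbrev Ed (n : ℕ) := {e : Fin n × Fin n // e.1 ≠ e.2}

/-- assignments of colours to vertices -/
abbrev Cg (n k : ℕ) := Fin n → Fin k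

/-- the edge `e` is properly coloured by `a` -/
def ok {n k : ℕ} (a : Cg n k) (e : Ed n) : Prop := a e.1.1 ≠ a e.1.2

/-- proper colourings of the multigraph with edges `F` -/
def SolC {n : ℕ} (k : ℕ) {m : ℕ} (F : Fin m → Ed n) : Set (Cg n k) := {a | ∀ j, ok a (F j)}

/-- probability that `m` independent uniform edges on `n` vertices give a `k`-colourable graph -/
noncomputable def pst (k n m : ℕ) : ℝ :=
  E (fun F : Fin m → Ed n => ind (SolC k F).Nonempty)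

/-- the assignments of `A` that are proper for all `W l`, `l < u` -/
def cut {n k s : ℕ} (A : Set (Cg n k)) (W : Fin s → Ed n) (u : ℕ) : Set (Cg n k) :=
  {a | a ∈ A ∧ ∀ l : Fin s, l.val < u → ok a (W l)}

/-- the smoothed survival functional with `s` probing edges -/
noncomputable def RC {n k : ℕ} (s : ℕ) (A : Set (Cg n k)) : ℝ :=
  E (fun W : Fin s → Ed n => ∑ u ∈ range s, ind (cut A W u).Nonempty)

/-- `v` is in a nontrivial colour class of `Q`: some other vertex always has the same colour -/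
def nontriv {n k : ℕ} (Q : Set (Cg n k)) (v : Fin n) : Prop :=
  Q.Nonempty ∧ ∃ w, w ≠ v ∧ ∀ a ∈ Q, a v = a w

/-- expected number of probing times at which `v` is in a nontrivial class -/
noncomputable def D1 {n k : ℕ} (s : ℕ) (A : Set (Cg n k)) (v : Fin n) : ℝ :=
  E (fun W : Fin s → Ed n => ∑ u ∈ range s, ind (nontriv (cut A W u) v))

/-! ### Incidence -/

/-- the vertex `v` is an endpoint of `e` -/
def inc {n : ℕ} (e : Ed n) (v : Fin n) : Prop := e.1.1 = v ∨ e.1.2 = v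

/-- the other endpoint -/
def oth {n : ℕ} (e : Ed n) (v : Fin n) : Fin n := if e.1.1 = v then e.1.2 else e.1.1

/-! ### Filtered processes -/

/-- the edge `e` avoids the vertex set `S` -/
def av {n : ℕ} (S : Set (Fin n)) (e : Ed n) : Prop := e.1.1 ∉ S ∧ e.1.2 ∉ S

/-- `Q M ω` (`M = t0, t0+1, ..., N`) is a filtered process: the edge `ω M` is applied at time `M`
if it avoids `S`, and `Q M ω` does not depend on `ω M`. -/
structure Proc {n k N : ℕ} (S : Set (Fin n)) (t0 : ℕ)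
    (Q : ℕ → (Fin N → Ed n) → Set (Cg n k)) : Prop where
  step : ∀ (M : Fin N) (ω : Fin N → Ed n), t0 ≤ M.val →
    Q (M.val + 1) ω = Q M.val ω ∩ {a | av S (ω M) → ok a (ω M)}
  inv : ∀ (M : Fin N) (ω : Fin N → Ed n) (e : Ed n), t0 ≤ M.val →
    Q M.val (Function.update ω M e) = Q M.val ω

/-- `z ∉ S` and `z` has colour `c` in every element of `Q` -/
def fr {n k : ℕ} (S : Set (Fin n)) (c : Fin k) (Q : Set (Cg n k)) (z : Fin n) : Prop :=
  z ∉ S ∧ ∀ a ∈ Q, a z = c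

/-- the proportion of vertices outside `S` frozen to `c` -/
noncomputable def xi {n k : ℕ} (S : Set (Fin n)) (c : Fin k) (Q : Set (Cg n k)) : ℝ :=
  E (fun z : Fin n => ind (fr S c Q z))

/-- irreducible pair: one of `y`, `z` always has colour `q`, but none of the two is frozen to `q` -/
def ik {n k : ℕ} (S : Set (Fin n)) (q : Fin k) (Q : Set (Cg n k)) (y z : Fin n) : Prop :=
  y ∉ S ∧ z ∉ S ∧ (∀ a ∈ Q, a y = q ∨ a z = q) ∧ (∃ a ∈ Q, a y ≠ q) ∧ (∃ a ∈ Q, a z ≠ q)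

/-- proportion of the partners of `y` in irreducible pairs -/
noncomputable def beta {n k : ℕ} (S : Set (Fin n)) (q : Fin k) (Q : Set (Cg n k)) (y : Fin n) : ℝ :=
  E (fun z : Fin n => ind (ik S q Q y z))

/-- partners `z` of `y` whose own proportion of partners is at most `η` -/
def iko {n k : ℕ} (S : Set (Fin n)) (q : Fin k) (η : ℝ) (Q : Set (Cg n k)) (y z : Fin n) : Prop :=
  ik S q Q y z ∧ beta S q Q z ≤ η

/-- proportion of the partners of `y` whose own proportion of partners is at most `η` -/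
noncomputable def betao {n k : ℕ} (S : Set (Fin n)) (q : Fin k) (η : ℝ) (Q : Set (Cg n k))
    (y : Fin n) : ℝ :=
  E (fun z : Fin n => ind (iko S q η Q y z))

/-- `Q` is nonempty and the proportion of frozen vertices is below `η` -/
def good {n k : ℕ} (S : Set (Fin n)) (q : Fin k) (η : ℝ) (Q : Set (Cg n k)) : Prop :=
  Q.Nonempty ∧ xi S q Q < η

/-- the two frozen vertices event -/
def f2 {n k : ℕ} (S : Set (Fin n)) (p q : Fin k) (X Y : Set (Cg n k)) (y z : Fin n) : Prop :=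
  X.Nonempty ∧ fr S p X y ∧ Y.Nonempty ∧ fr S q Y z

/-! ### The base sets of the chain -/

/-- prefix solutions -/
def PS {n N : ℕ} (k : ℕ) (M : ℕ) (ω : Fin N → Ed n) : Set (Cg n k) :=
  {a | ∀ i : Fin N, i.val < M → ok a (ω i)}

/-- base set: proper for all `ω i`, `i < M`, avoiding `v,w,x`; the neighbours of `v` through edges
before `j` have colour `c`; the neighbours of `w` through edges before `i0` avoiding `v` do not have
colour `c`. Indices in `X` are ignored. -/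
def CB {n k N : ℕ} (c : Fin k) (X : Fin N → Prop) (v w x : Fin n) (j i0 : Fin N) (M : ℕ)
    (ω : Fin N → Ed n) : Set (Cg n k) :=
  {a | (∀ i : Fin N, i.val < M → ¬ X i → av {v, w, x} (ω i) → ok a (ω i)) ∧
    (∀ i : Fin N, i < j → ¬ X i → inc (ω i) v → a (oth (ω i) v) = c) ∧
    (∀ i : Fin N, i < i0 → ¬ X i → inc (ω i) w → ¬ inc (ω i) v → a (oth (ω i) w) ≠ c)}

/-- the neighbours of `x` through edges before `i1` avoiding `v`, `w` do not have colour `q` -/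
def TQ {n k N : ℕ} (q : Fin k) (X : Fin N → Prop) (v w x : Fin n) (i1 : Fin N)
    (ω : Fin N → Ed n) : Set (Cg n k) :=
  {a | ∀ i : Fin N, i < i1 → ¬ X i → inc (ω i) x → ¬ inc (ω i) v → ¬ inc (ω i) w →
    a (oth (ω i) x) ≠ q}

/-- the excluded indices -/
def XX {N : ℕ} (j i0 i1 i2 : Fin N) : Fin N → Prop := fun i => i = j ∨ i = i0 ∨ i = i1 ∨ i = i2

/-- `f2` for the base sets of the chain -/
def RelF {n k N : ℕ} (c p q : Fin k) (v w x : Fin n) (j i0 i1 i2 : Fin N) (M : ℕ)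
    (ω : Fin N → Ed n) (y z : Fin n) : Prop :=
  f2 {v, w, x} p q (CB c (XX j i0 i1 i2) v w x j i0 M ω ∩ TQ p (XX j i0 i1 i2) v w x i1 ω)
    (CB c (XX j i0 i1 i2) v w x j i0 M ω ∩ TQ q (XX j i0 i1 i2) v w x i2 ω ∩ {a | a y ≠ q}) y z

/-- `ik` for the base sets of the chain -/
def RelK {n k N : ℕ} (c q : Fin k) (v w x : Fin n) (j i0 i1 i2 : Fin N) (M : ℕ)
    (ω : Fin N → Ed n) (y z : Fin n) : Prop :=
  ik {v, w, x} q (CB c (XX j i0 i1 i2) v w x j i0 M ω ∩ TQ q (XX j i0 i1 i2) v w x i1 ω) y z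

/-- the relation at the end of the chain -/
def Rel {n k N : ℕ} (c p q : Fin k) (v w x : Fin n) (j i0 i1 i2 : Fin N) (M : ℕ)
    (ω : Fin N → Ed n) (y z : Fin n) : Prop :=
  RelF c p q v w x j i0 i1 i2 M ω y z ∨ RelF c q p v w x j i0 i1 i2 M ω y z ∨
  RelK c q v w x j i0 i1 i2 M ω y z ∨ RelK c p v w x j i0 i1 i2 M ω y z

/-- there is a triangle through `v` -/
def Tri {n N : ℕ} (ω : Fin N → Ed n) (v : Fin n) : Prop :=
  ∃ l j i : Fin N, l ≠ j ∧ l ≠ i ∧ j ≠ i ∧ inc (ω l) v ∧ inc (ω j) v ∧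
    oth (ω l) v ≠ oth (ω j) v ∧ inc (ω i) (oth (ω l) v) ∧ inc (ω i) (oth (ω j) v)

/-- the chain event with all special indices -/
def Chain {n k N : ℕ} (c p q : Fin k) (v : Fin n) (j i0 i1 i2 : Fin N) (M : ℕ)
    (ω : Fin N → Ed n) : Prop :=
  j.val < M ∧ i0.val < M ∧ i1.val < M ∧ i2.val < M ∧
  inc (ω j) v ∧ inc (ω i0) (oth (ω j) v) ∧
  inc (ω i1) (oth (ω i0) (oth (ω j) v)) ∧ inc (ω i2) (oth (ω i0) (oth (ω j) v)) ∧
  Rel c p q v (oth (ω j) v) (oth (ω i0) (oth (ω j) v)) j i0 i1 i2 M ω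
    (oth (ω i1) (oth (ω i0) (oth (ω j) v))) (oth (ω i2) (oth (ω i0) (oth (ω j) v)))

/-- the special indices are pairwise different -/
def Dis {N : ℕ} (j i0 i1 i2 : Fin N) : Prop :=
  j ≠ i0 ∧ j ≠ i1 ∧ j ≠ i2 ∧ i0 ≠ i1 ∧ i0 ≠ i2 ∧ i1 ≠ i2

/-! ### Loops allowed, and two blocks of vertices -/

/-- probability that `m` independent uniform pairs (loops allowed, a loop is never properly
coloured) on `n` vertices are `k`-colourable -/
noncomputable def plp (k n m : ℕ) : ℝ :=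
  E (fun F : Fin m → Fin n × Fin n => ind (∃ a : Cg n k, ∀ j, a (F j).1 ≠ a (F j).2))

/-- survival probability of the set `A` under `m` uniform pairs -/
noncomputable def svp {n k : ℕ} (m : ℕ) (A : Set (Cg n k)) : ℝ :=
  E (fun F : Fin m → Fin n × Fin n => ind (∃ a ∈ A, ∀ j, a (F j).1 ≠ a (F j).2))

/-- product set -/
def rectC {N1 N2 k : ℕ} (A1 : Set (Cg N1 k)) (A2 : Set (Cg N2 k)) : Set (Cg (N1 + N2) k) :=
  {a | (fun i => a (Fin.castAdd N2 i)) ∈ A1 ∧ (fun i => a (Fin.natAdd N1 i)) ∈ A2}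

/-! ### Abstract hypotheses for the convergence argument -/

/-- the properties of `p n m = pst k n m`, `n ≥ n1`, used in the convergence argument -/
structure HypC (n1 : ℕ) (p : ℕ → ℕ → ℝ) : Prop where
  hn1 : 2 ≤ n1
  h0 : ∀ n : ℕ, n1 ≤ n → p n 0 = 1
  hnn : ∀ n m : ℕ, 0 ≤ p n m
  hanti : ∀ n m : ℕ, p n (m + 1) ≤ p n m
  hfm : ∃ K q : ℝ, 1 ≤ K ∧ 0 ≤ q ∧ q < 1 ∧ ∀ n m : ℕ, n1 ≤ n → p n m ≤ K ^ n * q ^ m
  hsharp : ∀ Λ : ℝ, ∃ C : ℝ, 0 < C ∧ ∀ n m T : ℕ, n1 ≤ n → 1 ≤ T → T ^ 10 ≤ n →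
      (m : ℝ) + (T : ℝ) ^ 10 ≤ Λ * n →
      (1 - p n m) * p n (m + T ^ 10) ^ 2 ≤ C * n / (T : ℝ) ^ 11
  hone : ∀ Λ : ℝ, ∃ c : ℝ, 0 < c ∧ ∀ n m : ℕ, n1 ≤ n → (m : ℝ) ≤ Λ * n →
      c * p n m ≤ p (n + 1) m
  htwo : ∀ Λ : ℝ, ∃ c : ℝ, 0 < c ∧ ∀ (N1 N2 m m1 m2 : ℕ) (d : ℝ), n1 ≤ N1 → n1 ≤ N2 →
      (m1 : ℝ) ≤ Λ * N1 → (m2 : ℝ) ≤ Λ * N2 → 0 ≤ d → 4 * (m : ℝ) ≤ d ^ 2 →
      m * (N1 : ℝ) / (N1 + N2) + d ≤ m1 → m * (N2 : ℝ) / (N1 + N2) + d ≤ m2 →
      c * (p N1 m1 * p N2 m2) ≤ p (N1 + N2) m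

/-- the largest `m` with `p n m ≥ 1/2` -/
noncomputable def MxC (p : ℕ → ℕ → ℝ) (n : ℕ) : ℕ := sSup {m : ℕ | 1 / 2 ≤ p n m}

/-- the window parameter -/
noncomputable def TnC (n : ℕ) : ℕ := ⌊(n : ℝ) ^ ((2 : ℝ) / 21)⌋₊

end Pool.Agent.H285R2.Col
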