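import Pool.Agent.H285R2.Col.Defs

/-! Task FM: the first moment bound for the colourability probability. -/

set_option autoImplicit false

namespace Pool.Agent.H285R2.Col

open Finset Pool.Agent.H999R2.KSat

theorem fm_card (n : ℕ) : (Fintype.card (Ed n) : ℝ) = (n : ℝ) * n - n := by
  have h : Fintype.card (Ed n) = n * n - n := by
    rw [Fintype.card_subtype]
    have : (univ.filter fun e : Fin n × Fin n => e.1 ≠ e.2) = (univ : Finset (Fin n)).offDiag := by
      ext e; simp
    rw [this, offDiag_card, card_univ, Fintype.card_fin]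
  rw [h, Nat.cast_sub (Nat.le_mul_self n)]
  push_cast
  ring

theorem fm_pairs {n k : ℕ} (hk : 1 ≤ k) (a : Cg n k) :
    (n : ℝ) * n / k ≤ ∑ p : Fin n × Fin n, ind (a p.1 = a p.2) := by
  classical
  have h1 : ∑ p : Fin n × Fin n, ind (a p.1 = a p.2) =
      ∑ c : Fin k, (∑ x : Fin n, ind (a x = c)) ^ 2 := by
    have h2 : ∀ c : Fin k, (∑ x : Fin n, ind (a x = c)) ^ 2 =
        ∑ x : Fin n, ∑ y : Fin n, ind (a x = c) * ind (a y = c) := by
      intro c
      rw [sq, sum_mul_sum]
    simp_rw [h2]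
    rw [Fintype.sum_prod_type, sum_comm]
    have h3 : ∀ y : Fin n, ∑ x : Fin n, ind (a x = a y) =
        ∑ x : Fin n, ∑ c : Fin k, ind (a x = c) * ind (a y = c) := by
      intro y
      refine sum_congr rfl fun x _ => ?_
      rw [sum_eq_single (a y)]
      · rw [ind_true rfl, mul_one]
      · intro c _ hc
        rw [ind_false (P := a y = c) (fun h => hc h.symm), mul_zero]
      · simp
    simp_rw [h3]
    rw [sum_comm]
    have h4 : ∀ x : Fin n, ∑ y : Fin n, ∑ c : Fin k, ind (a x = c) * ind (a y = c) =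
        ∑ c : Fin k, ∑ y : Fin n, ind (a x = c) * ind (a y = c) := fun x => sum_comm
    simp_rw [h4]
    rw [sum_comm]
  have h5 : ∑ c : Fin k, ∑ x : Fin n, ind (a x = c) = n := by
    rw [sum_comm]
    have : ∀ x : Fin n, ∑ c : Fin k, ind (a x = c) = 1 := by
      intro x
      rw [sum_eq_single (a x)]
      · exact ind_true rfl
      · intro c _ hc
        exact ind_false fun h => hc h.symm
      · simp
    simp_rw [this]
    simp
  have h6 := sq_sum_le_card_mul_sum_sq (s := (univ : Finset (Fin k)))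
    (f := fun c => ∑ x : Fin n, ind (a x = c))
  rw [h5, card_univ, Fintype.card_fin] at h6
  rw [h1, div_le_iff₀ (by exact_mod_cast hk)]
  nlinarith

theorem fm_one {n k : ℕ} (hk : 1 ≤ k) (hn : 2 * k ≤ n) (a : Cg n k) :
    E (fun e : Ed n => ind (ok a e)) ≤ 1 - 1 / (2 * k) := by
  classical
  have h1 : ∑ e : Ed n, ind (ok a e) = (n : ℝ) * n - ∑ p : Fin n × Fin n, ind (a p.1 = a p.2) := by
    have h3 : ∑ e : Ed n, ind (ok a e) =
        ∑ p ∈ univ.filter (fun p : Fin n × Fin n => p.1 ≠ p.2), ind (a p.1 ≠ a p.2) :=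
      (sum_subtype (univ.filter fun p : Fin n × Fin n => p.1 ≠ p.2)
        (by simp) (fun p : Fin n × Fin n => ind (a p.1 ≠ a p.2))).symm
    rw [h3, sum_filter]
    have h4 : ∀ p : Fin n × Fin n, (if p.1 ≠ p.2 then ind (a p.1 ≠ a p.2) else 0) =
        1 - ind (a p.1 = a p.2) := by
      intro p
      rw [← ind_not]
      split_ifs with h
      · rfl
      · rw [not_not] at h
        rw [ind_false]
        rw [not_not, h]
    simp_rw [h4]
    rw [sum_sub_distrib]
    simp
  unfold E
  rw [h1, fm_card]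
  have h5 := fm_pairs hk a
  have hk' : (1 : ℝ) ≤ k := by exact_mod_cast hk
  have hn' : 2 * (k : ℝ) ≤ n := by exact_mod_cast hn
  have hpos : (0 : ℝ) < (n : ℝ) * n - n := by nlinarith
  rw [div_le_iff₀ hpos]
  have h6 : (n : ℝ) * n - n * n / k ≤ (1 - 1 / (2 * k)) * (n * n - n) := by
    rw [← sub_nonneg]
    have : (1 - 1 / (2 * (k : ℝ))) * (n * n - n) - (n * n - n * n / k) =
        n * (n - 2 * k + 1) / (2 * k) := by
      field_simp
      ring
    rw [this]
    apply div_nonneg _ (by linarith)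
    apply mul_nonneg (by linarith)
    linarith
  linarith

/-- Task FM -/
theorem pst_first_moment (k n m : ℕ) (hk : 1 ≤ k) (hn : 2 * k ≤ n) :
    pst k n m ≤ (k : ℝ) ^ n * (1 - 1 / (2 * k)) ^ m := by
  classical
  unfold pst
  have h1 : ∀ F : Fin m → Ed n, ind (SolC k F).Nonempty ≤
      ∑ a : Cg n k, ∏ j, ind (ok a (F j)) := by
    intro F
    have h2 : ind (SolC k F).Nonempty ≤ ∑ a : Cg n k, ind (∀ j, ok a (F j)) :=
      ind_exists_le (fun a : Cg n k => ∀ j, ok a (F j))
    refine h2.trans (le_of_eq (sum_congr rfl fun a _ => ?_))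
    rw [ind_forall]
  refine (E_mono h1).trans ?_
  rw [E_sum]
  have h3 : ∀ a : Cg n k, E (fun F : Fin m → Ed n => ∏ j, ind (ok a (F j))) ≤
      (1 - 1 / (2 * k)) ^ m := by
    intro a
    rw [E_pi (fun (_ : Fin m) (e : Ed n) => ind (ok a e)), prod_const, card_univ,
      Fintype.card_fin]
    exact pow_le_pow_left₀ (E_nonneg fun e => ind_nonneg _) (fm_one hk hn a) m
  refine (sum_le_sum fun a _ => h3 a).trans (le_of_eq ?_)
  rw [sum_const, card_univ, Fintype.card_fun, Fintype.card_fin, Fintype.card_fin, nsmul_eq_mul]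
  push_cast
  ring

end Pool.Agent.H285R2.Col
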