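import Pool.Agent.H285R2.Col.Defs

/-! Task HO: one more vertex. -/

set_option autoImplicit false

namespace Pool.Agent.H285R2.Col
open Finset Filter Pool.Agent.H999R2.KSat

theorem HO_card (n : ℕ) : Fintype.card (Ed n) = n * (n - 1) := by
  have h1 : Fintype.card {e : Fin n × Fin n // e.1 = e.2} = n := by
    have : {e : Fin n × Fin n // e.1 = e.2} ≃ Fin n :=
      { toFun := fun e => e.1.1
        invFun := fun x => ⟨(x, x), rfl⟩
        left_inv := by
          rintro ⟨⟨a, b⟩, h⟩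
          simp only at h
          subst h
          rfl
        right_inv := fun x => rfl }
    rw [Fintype.card_congr this, Fintype.card_fin]
  have h2 := Fintype.card_subtype_compl (fun e : Fin n × Fin n => e.1 = e.2)
  have h3 : Fintype.card (Ed n) = Fintype.card {e : Fin n × Fin n // ¬ e.1 = e.2} := by
    rfl
  rw [h3, h2, h1, Fintype.card_prod, Fintype.card_fin, Nat.mul_sub, Nat.mul_one]

/-- the inclusion of edges -/
def HO_up {n : ℕ} (e : Ed n) : Ed (n + 1) :=
  ⟨(e.1.1.castSucc, e.1.2.castSucc), fun h => e.2 (Fin.castSucc_injective n h)⟩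

theorem HO_up_inj {n : ℕ} : Function.Injective (HO_up (n := n)) := by
  intro e f h
  have h' := congrArg Subtype.val h
  simp only [HO_up, Prod.mk.injEq, Fin.castSucc_inj] at h'
  exact Subtype.ext (Prod.ext h'.1 h'.2)

theorem HO_sol {n k m : ℕ} (hk : 1 ≤ k) (F : Fin m → Ed n) (h : (SolC k F).Nonempty) :
    (SolC k (fun j => HO_up (F j))).Nonempty := by
  obtain ⟨a, ha⟩ := h
  refine ⟨Fin.snoc (α := fun _ => Fin k) a ⟨0, hk⟩, fun j => ?_⟩
  have := ha j
  simp only [ok, HO_up, Fin.snoc_castSucc] at this ⊢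
  exact this

theorem HO_main (k : ℕ) (hk : 1 ≤ k) (n m : ℕ) (hn : 2 ≤ n) :
    (((n : ℝ) - 1) / (n + 1)) ^ m * pst k n m ≤ pst k (n + 1) m := by
  have hn1 : (2 : ℝ) ≤ n := by exact_mod_cast hn
  have hc : (Fintype.card (Ed n) : ℝ) = (n : ℝ) * ((n : ℝ) - 1) := by
    rw [HO_card]
    push_cast [Nat.cast_sub (by omega : 1 ≤ n)]
    ring
  have hc' : (Fintype.card (Ed (n + 1)) : ℝ) = ((n : ℝ) + 1) * n := by
    rw [HO_card]
    push_cast
    simp
  unfold pst E
  have hsum : ∑ F : Fin m → Ed n, ind (SolC k F).Nonempty ≤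
      ∑ F : Fin m → Ed (n + 1), ind (SolC k F).Nonempty := by
    classical
    have hinj : Function.Injective (fun (F : Fin m → Ed n) (j : Fin m) => HO_up (F j)) := by
      intro F G h
      funext j
      exact HO_up_inj (congrFun h j)
    calc ∑ F : Fin m → Ed n, ind (SolC k F).Nonempty
        ≤ ∑ F : Fin m → Ed n, ind (SolC k (fun j => HO_up (F j))).Nonempty :=
          Finset.sum_le_sum fun F _ => ind_mono (HO_sol hk F)
      _ = ∑ F ∈ univ.image (fun (F : Fin m → Ed n) (j : Fin m) => HO_up (F j)),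
            ind (SolC k F).Nonempty := by
          rw [Finset.sum_image]
          intro F _ G _ h
          exact hinj h
      _ ≤ ∑ F : Fin m → Ed (n + 1), ind (SolC k F).Nonempty :=
          Finset.sum_le_sum_of_subset_of_nonneg (Finset.subset_univ _)
            (fun _ _ _ => ind_nonneg _)
  rw [Fintype.card_fun, Fintype.card_fun, Fintype.card_fin]
  push_cast
  rw [hc, hc']
  have e1 : (((n : ℝ) - 1) / (n + 1)) ^ m *
      ((∑ F : Fin m → Ed n, ind (SolC k F).Nonempty) / ((n : ℝ) * ((n : ℝ) - 1)) ^ m) =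
      (∑ F : Fin m → Ed n, ind (SolC k F).Nonempty) / (((n : ℝ) + 1) * n) ^ m := by
    have a1 : ((n : ℝ) - 1) ≠ 0 := by linarith
    have a2 : ((n : ℝ) + 1) ≠ 0 := by linarith
    have a3 : (n : ℝ) ≠ 0 := by linarith
    rw [div_pow, mul_pow, mul_pow]
    field_simp
  rw [e1]
  exact div_le_div_of_nonneg_right hsum (by positivity)

theorem honeC (k : ℕ) (hk : 1 ≤ k) (Λ : ℝ) : ∃ c : ℝ, 0 < c ∧ ∀ n m : ℕ, 2 ≤ n →
    (m : ℝ) ≤ Λ * n → c * pst k n m ≤ pst k (n + 1) m := by
  refine ⟨Real.exp (-(4 * Λ)), Real.exp_pos _, fun n m hn hm => ?_⟩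
  have hn1 : (2 : ℝ) ≤ n := by exact_mod_cast hn
  have hp : 0 ≤ pst k n m := E_nonneg fun _ => ind_nonneg _
  refine le_trans ?_ (HO_main k hk n m hn)
  refine mul_le_mul_of_nonneg_right ?_ hp
  have h1 : Real.exp (-(4 / n)) ≤ ((n : ℝ) - 1) / (n + 1) := by
    rw [Real.exp_neg, inv_le_comm₀ (Real.exp_pos _) (div_pos (by linarith) (by linarith)), inv_div]
    have h2 : (2 / ((n : ℝ) - 1)) + 1 ≤ Real.exp (2 / ((n : ℝ) - 1)) := Real.add_one_le_exp _
    have h3 : Real.exp (2 / ((n : ℝ) - 1)) ≤ Real.exp (4 / n) := by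
      apply Real.exp_le_exp.mpr
      rw [div_le_div_iff₀ (by linarith) (by linarith)]
      linarith
    have h4 : ((n : ℝ) + 1) / ((n : ℝ) - 1) = 2 / ((n : ℝ) - 1) + 1 := by
      have : ((n : ℝ) - 1) ≠ 0 := by linarith
      field_simp
      ring
    rw [h4]
    exact h2.trans h3
  calc Real.exp (-(4 * Λ)) ≤ Real.exp (m * (-(4 / n))) := by
        apply Real.exp_le_exp.mpr
        have : (m : ℝ) / n ≤ Λ := by
          rw [div_le_iff₀ (by linarith)]; exact hm
        have e : (m : ℝ) * (-(4 / n)) = -(4 * ((m : ℝ) / n)) := by ring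
        rw [e]
        linarith
    _ = Real.exp (-(4 / n)) ^ m := by rw [Real.exp_nat_mul]
    _ ≤ (((n : ℝ) - 1) / (n + 1)) ^ m := pow_le_pow_left₀ (Real.exp_pos _).le h1 m

end Pool.Agent.H285R2.Col
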