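import Pool.Agent.H285R2.Col.PR

/-! Task IK1: irreducible pairs with a fixed vertex. -/

set_option autoImplicit false

namespace Pool.Agent.H285R2.Col
open Finset Filter Pool.Agent.H999R2.KSat

theorem ik_symm {n k : ℕ} (S : Set (Fin n)) (q : Fin k) (Q : Set (Cg n k)) (y z : Fin n) :
    ik S q Q y z ↔ ik S q Q z y := by
  constructor
  · rintro ⟨h1, h2, h3, h4, h5⟩
    exact ⟨h2, h1, fun a ha => (h3 a ha).symm, h5, h4⟩
  · rintro ⟨h1, h2, h3, h4, h5⟩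
    exact ⟨h2, h1, fun a ha => (h3 a ha).symm, h5, h4⟩

theorem ik1_step {n k : ℕ} (S : Set (Fin n)) (q : Fin k) (Q : Set (Cg n k)) (y : Fin n)
    (e : Ed n) :
    ind (∃ a ∈ Q ∩ {a | av S e → ok a e}, a y ≠ q) +
      ind (ik S q Q y e.1.1 ∧ ik S q Q y e.1.2) ≤ ind (∃ a ∈ Q, a y ≠ q) := by
  by_cases h1 : ik S q Q y e.1.1 ∧ ik S q Q y e.1.2
  · obtain ⟨⟨hy, hx, hc, h4, _⟩, ⟨_, hx', hc', _, _⟩⟩ := h1
    have h2 : ¬ (∃ a ∈ Q ∩ {a | av S e → ok a e}, a y ≠ q) := by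
      rintro ⟨a, ⟨haQ, hae⟩, hne⟩
      have hok : ok a e := hae ⟨hx, hx'⟩
      rcases hc a haQ with h | h
      · exact hne h
      · rcases hc' a haQ with h' | h'
        · exact hne h'
        · exact hok (h.trans h'.symm)
    rw [ind_false h2, ind_true h4]
    have := ind_le_one (ik S q Q y e.1.1 ∧ ik S q Q y e.1.2)
    linarith
  · rw [ind_false h1, add_zero]
    exact ind_mono fun ⟨a, ha, hne⟩ => ⟨a, ha.1, hne⟩

theorem ik1_avg {n k N : ℕ} (hn : 2 ≤ n) (S : Set (Fin n)) (q : Fin k) (t0 : ℕ)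
    (Q : ℕ → (Fin N → Ed n) → Set (Cg n k)) (hQ : Proc S t0 Q) (y : Fin n)
    (M : ℕ) (h0 : t0 ≤ M) (h1 : M < N) :
    E (fun ω => beta S q (Q M ω) y * (beta S q (Q M ω) y - 1 / n)) ≤
      E (fun ω => ind (∃ a ∈ Q M ω, a y ≠ q)) - E (fun ω => ind (∃ a ∈ Q (M + 1) ω, a y ≠ q)) := by
  have hE : E (fun ω => ind (∃ a ∈ Q (M + 1) ω, a y ≠ q)) =
      E (fun ω => E (fun e : Ed n => ind (∃ a ∈ Q M ω ∩ {a | av S e → ok a e}, a y ≠ q))) := by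
    rw [E_update ⟨M, h1⟩ (fun ω => ind (∃ a ∈ Q (M + 1) ω, a y ≠ q))]
    refine E_congr fun ω => E_congr fun e => ?_
    have h2 : Q (M + 1) (Function.update ω ⟨M, h1⟩ e) = Q M ω ∩ {a | av S e → ok a e} := by
      have h3 := hQ.step ⟨M, h1⟩ (Function.update ω ⟨M, h1⟩ e) h0
      rw [Function.update_self, hQ.inv ⟨M, h1⟩ ω e h0] at h3
      exact h3
    rw [h2]
  rw [hE, ← E_sub]
  refine E_mono fun ω => ?_
  have hne : Nonempty (Ed n) :=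
    ⟨⟨(⟨0, by omega⟩, ⟨1, by omega⟩), by simp [Fin.ext_iff]⟩⟩
  have h4 := pr_pair hn (fun z => ik S q (Q M ω) y z)
  have h5 : E (fun e : Ed n => ind (∃ a ∈ Q M ω ∩ {a | av S e → ok a e}, a y ≠ q)) +
      E (fun e : Ed n => ind (ik S q (Q M ω) y e.1.1 ∧ ik S q (Q M ω) y e.1.2)) ≤
      ind (∃ a ∈ Q M ω, a y ≠ q) := by
    rw [← E_add]
    exact E_le_const fun e => ik1_step S q (Q M ω) y e
  unfold beta
  linarith

theorem beta_sq_sum {n k N : ℕ} (hn : 2 ≤ n) (S : Set (Fin n)) (q : Fin k) (t0 : ℕ)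
    (Q : ℕ → (Fin N → Ed n) → Set (Cg n k)) (hQ : Proc S t0 Q) (y : Fin n) :
    ∑ M ∈ Ico t0 N, E (fun ω =>
      beta S q (Q M ω) y * (beta S q (Q M ω) y - 1 / n)) ≤ 1 := by
  have h1 : ∑ M ∈ Ico t0 N, E (fun ω =>
      beta S q (Q M ω) y * (beta S q (Q M ω) y - 1 / n)) ≤
      ∑ M ∈ Ico t0 N, (E (fun ω => ind (∃ a ∈ Q M ω, a y ≠ q)) -
        E (fun ω => ind (∃ a ∈ Q (M + 1) ω, a y ≠ q))) := by
    refine Finset.sum_le_sum fun M hM => ?_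
    rw [Finset.mem_Ico] at hM
    exact ik1_avg hn S q t0 Q hQ y M hM.1 hM.2
  refine le_trans h1 ?_
  have h01 : ∀ M : ℕ, 0 ≤ E (fun ω : Fin N → Ed n => ind (∃ a ∈ Q M ω, a y ≠ q)) ∧
      E (fun ω : Fin N → Ed n => ind (∃ a ∈ Q M ω, a y ≠ q)) ≤ 1 := fun M =>
    ⟨E_nonneg fun _ => ind_nonneg _, E_le_of_nonneg zero_le_one fun _ => ind_le_one _⟩
  by_cases ht : t0 ≤ N
  · rw [Finset.sum_Ico_eq_sum_range]
    have h2 := Finset.sum_range_sub'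
      (fun M => E (fun ω : Fin N → Ed n => ind (∃ a ∈ Q (t0 + M) ω, a y ≠ q))) (N - t0)
    have h3 : ∑ M ∈ range (N - t0),
        (E (fun ω : Fin N → Ed n => ind (∃ a ∈ Q (t0 + M) ω, a y ≠ q)) -
          E (fun ω : Fin N → Ed n => ind (∃ a ∈ Q (t0 + M + 1) ω, a y ≠ q))) =
        E (fun ω : Fin N → Ed n => ind (∃ a ∈ Q (t0 + 0) ω, a y ≠ q)) -
        E (fun ω : Fin N → Ed n => ind (∃ a ∈ Q (t0 + (N - t0)) ω, a y ≠ q)) := h2
    rw [h3]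
    have h4 := (h01 (t0 + 0)).2
    have h5 := (h01 (t0 + (N - t0))).1
    linarith
  · rw [Finset.Ico_eq_empty (by omega), Finset.sum_empty]
    norm_num

end Pool.Agent.H285R2.Col
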