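import Pool.Agent.H285R2.Col.PR

/-! Task IK2: the key lemma `betao_sq_sum`. -/

set_option autoImplicit false

namespace Pool.Agent.H285R2.Col
open Finset Filter Pool.Agent.H999R2.KSat

/-- symmetry of irreducible pairs (private copy) -/
theorem ik2_symm {n k : ℕ} (S : Set (Fin n)) (q : Fin k) (Q : Set (Cg n k)) (y z : Fin n)
    (h : ik S q Q y z) : ik S q Q z y := by
  obtain ⟨h1, h2, h3, h4, h5⟩ := h
  exact ⟨h2, h1, fun a ha => (h3 a ha).symm, h5, h4⟩

/-- the increment at time `M` -/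
noncomputable def ik2_g {n k N : ℕ} (S : Set (Fin n)) (q : Fin k) (η : ℝ)
    (Q : ℕ → (Fin N → Ed n) → Set (Cg n k)) (M : ℕ) (w : Fin N → Ed n) : ℝ :=
  if h : M < N then ind (good S q η (Q M w)) *
    E (fun y : Fin n => ind (iko S q η (Q M w) y (w ⟨M, h⟩).1.1 ∧
      iko S q η (Q M w) y (w ⟨M, h⟩).1.2)) else 0

/-- `xi` is antitone in the set -/
theorem ik2_xi_mono {n k : ℕ} (S : Set (Fin n)) (q : Fin k) {A B : Set (Cg n k)} (h : A ⊆ B) :
    xi S q B ≤ xi S q A :=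
  E_mono fun _ => ind_mono fun hz => ⟨hz.1, fun a ha => hz.2 a (h ha)⟩

theorem ik2_iko_avg {n k : ℕ} (S : Set (Fin n)) (q : Fin k) (η : ℝ) (hη : 0 ≤ η)
    (Q : Set (Cg n k)) (x : Fin n) :
    E (fun y : Fin n => ind (iko S q η Q y x)) ≤ η := by
  by_cases hb : beta S q Q x ≤ η
  · refine le_trans ?_ hb
    exact E_mono fun y => ind_mono fun h => ik2_symm S q Q y x h.1
  · refine E_le_of_nonneg hη fun y => ?_
    rw [ind_false (fun h => hb h.2)]
    exact hη

/-- the new frozen vertices -/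
theorem ik2_step {n k : ℕ} (S : Set (Fin n)) (q : Fin k) (η : ℝ)
    (Q : Set (Cg n k)) (e : Ed n) :
    xi S q Q + E (fun y : Fin n => ind (iko S q η Q y e.1.1 ∧ iko S q η Q y e.1.2)) ≤
      xi S q (Q ∩ {a | av S e → ok a e}) := by
  unfold xi
  rw [← E_add]
  refine E_mono fun y => ?_
  by_cases h1 : iko S q η Q y e.1.1 ∧ iko S q η Q y e.1.2
  · obtain ⟨⟨⟨hy, hx, hc, ⟨a0, ha0, ha0'⟩, _⟩, _⟩, ⟨⟨_, hx', hc', _, _⟩, _⟩⟩ := h1
    have h2 : ¬ fr S q Q y := fun h => ha0' (h.2 a0 ha0)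
    have h3 : fr S q (Q ∩ {a | av S e → ok a e}) y := by
      refine ⟨hy, fun a ha => ?_⟩
      obtain ⟨haQ, hae⟩ := ha
      have hok : ok a e := hae ⟨hx, hx'⟩
      by_contra hne
      rcases hc a haQ with h | h
      · exact hne h
      · rcases hc' a haQ with h' | h'
        · exact hne h'
        · exact hok (h.trans h'.symm)
    rw [ind_false h2, ind_true h3]
    have := ind_le_one (iko S q η Q y e.1.1 ∧ iko S q η Q y e.1.2)
    linarith
  · rw [ind_false h1, add_zero]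
    exact ind_mono fun hz => ⟨hz.1, fun a ha => hz.2 a ha.1⟩

/-- the pathwise bound -/
theorem ik2_path {n k N : ℕ} (S : Set (Fin n)) (q : Fin k) (t0 : ℕ)
    (η : ℝ) (hη : 0 ≤ η) (Q : ℕ → (Fin N → Ed n) → Set (Cg n k)) (hQ : Proc S t0 Q)
    (w : Fin N → Ed n) (d : ℕ) (hd : t0 + d ≤ N) :
    (good S q η (Q (t0 + d) w) →
      ∑ l ∈ Ico t0 (t0 + d), ik2_g S q η Q l w ≤ xi S q (Q (t0 + d) w)) ∧
    (∑ l ∈ Ico t0 (t0 + d), ik2_g S q η Q l w ≤ 2 * η) := by
  induction d with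
  | zero =>
    constructor
    · intro _
      simp only [add_zero, Ico_self, sum_empty]
      exact E_nonneg fun _ => ind_nonneg _
    · simp only [add_zero, Ico_self, sum_empty]
      linarith
  | succ d ih =>
    obtain ⟨ih1, ih2⟩ := ih (by omega)
    have hM : t0 + d < N := by omega
    have hst : Q (t0 + (d + 1)) w = Q (t0 + d) w ∩
        {a | av S (w ⟨t0 + d, hM⟩) → ok a (w ⟨t0 + d, hM⟩)} :=
      hQ.step ⟨t0 + d, hM⟩ w (by simp)
    have hsum : ∑ l ∈ Ico t0 (t0 + (d + 1)), ik2_g S q η Q l w =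
        ∑ l ∈ Ico t0 (t0 + d), ik2_g S q η Q l w + ik2_g S q η Q (t0 + d) w := by
      rw [← add_assoc]
      exact Finset.sum_Ico_succ_top (by omega) _
    have hsub : Q (t0 + (d + 1)) w ⊆ Q (t0 + d) w := by
      rw [hst]; exact Set.inter_subset_left
    by_cases hg : good S q η (Q (t0 + d) w)
    · have hgv : ik2_g S q η Q (t0 + d) w =
          E (fun y : Fin n => ind (iko S q η (Q (t0 + d) w) y (w ⟨t0 + d, hM⟩).1.1 ∧
            iko S q η (Q (t0 + d) w) y (w ⟨t0 + d, hM⟩).1.2)) := by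
        unfold ik2_g
        rw [dif_pos hM, ind_true hg, one_mul]
      constructor
      · intro _
        rw [hsum, hgv, hst]
        have := ik2_step S q η (Q (t0 + d) w) (w ⟨t0 + d, hM⟩)
        have h3 := ih1 hg
        linarith
      · rw [hsum, hgv]
        have h3 := ih1 hg
        have h4 : E (fun y : Fin n => ind (iko S q η (Q (t0 + d) w) y (w ⟨t0 + d, hM⟩).1.1 ∧
            iko S q η (Q (t0 + d) w) y (w ⟨t0 + d, hM⟩).1.2)) ≤ η :=
          le_trans (E_mono fun y => ind_mono fun h => h.1)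
            (ik2_iko_avg S q η hη (Q (t0 + d) w) (w ⟨t0 + d, hM⟩).1.1)
        have h5 : xi S q (Q (t0 + d) w) < η := hg.2
        linarith
    · have hg0 : ik2_g S q η Q (t0 + d) w = 0 := by
        unfold ik2_g
        rw [dif_pos hM, ind_false hg, zero_mul]
      constructor
      · intro hg1
        exact absurd ⟨hg1.1.mono hsub, lt_of_le_of_lt (ik2_xi_mono S q hsub) hg1.2⟩ hg
      · rw [hsum, hg0]
        linarith

/-- the average of the increment -/
theorem ik2_avg {n k N : ℕ}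
    (hpr : ∀ (Z : Fin n → Prop), E (fun z => ind (Z z)) * (E (fun z => ind (Z z)) - 1 / n) ≤
      E (fun e : Ed n => ind (Z e.1.1 ∧ Z e.1.2)))
    (S : Set (Fin n)) (q : Fin k) (t0 : ℕ)
    (η : ℝ) (Q : ℕ → (Fin N → Ed n) → Set (Cg n k)) (hQ : Proc S t0 Q)
    (M : ℕ) (h0 : t0 ≤ M) (h1 : M < N) :
    E (fun ω => ind (good S q η (Q M ω)) *
      E (fun y : Fin n => betao S q η (Q M ω) y * (betao S q η (Q M ω) y - 1 / n))) ≤
      E (fun ω => ik2_g S q η Q M ω) := by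
  rw [E_update ⟨M, h1⟩ (fun ω => ik2_g S q η Q M ω)]
  refine E_mono fun ω => ?_
  have hinv : ∀ e : Ed n, Q M (Function.update ω ⟨M, h1⟩ e) = Q M ω := fun e =>
    hQ.inv ⟨M, h1⟩ ω e h0
  have h2 : ∀ e : Ed n, ik2_g S q η Q M (Function.update ω ⟨M, h1⟩ e) =
      ind (good S q η (Q M ω)) *
        E (fun y : Fin n => ind (iko S q η (Q M ω) y e.1.1 ∧ iko S q η (Q M ω) y e.1.2)) := by
    intro e
    unfold ik2_g
    rw [dif_pos h1, hinv e, Function.update_self]
  rw [E_congr h2, E_mul_left]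
  refine mul_le_mul_of_nonneg_left ?_ (ind_nonneg _)
  rw [E_comm]
  refine E_mono fun y => ?_
  exact hpr (fun z => iko S q η (Q M ω) y z)

/-- the key lemma, with `pr_pair` as a hypothesis -/
theorem ik2_main {n k N : ℕ}
    (hpr : ∀ (Z : Fin n → Prop), E (fun z => ind (Z z)) * (E (fun z => ind (Z z)) - 1 / n) ≤
      E (fun e : Ed n => ind (Z e.1.1 ∧ Z e.1.2)))
    (S : Set (Fin n)) (q : Fin k) (t0 : ℕ)
    (η : ℝ) (hη : 0 ≤ η) (Q : ℕ → (Fin N → Ed n) → Set (Cg n k)) (hQ : Proc S t0 Q) :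
    ∑ M ∈ Ico t0 N, E (fun ω => ind (good S q η (Q M ω)) *
      E (fun y : Fin n => betao S q η (Q M ω) y * (betao S q η (Q M ω) y - 1 / n))) ≤
      2 * η := by
  by_cases ht : t0 ≤ N
  · calc ∑ M ∈ Ico t0 N, E (fun ω => ind (good S q η (Q M ω)) *
        E (fun y : Fin n => betao S q η (Q M ω) y * (betao S q η (Q M ω) y - 1 / n)))
        ≤ ∑ M ∈ Ico t0 N, E (fun ω => ik2_g S q η Q M ω) := by
          refine Finset.sum_le_sum fun M hM => ?_
          rw [Finset.mem_Ico] at hM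
          exact ik2_avg hpr S q t0 η Q hQ M hM.1 hM.2
      _ = E (fun ω => ∑ M ∈ Ico t0 N, ik2_g S q η Q M ω) := (E_sum _ _).symm
      _ ≤ 2 * η := by
          refine E_le_of_nonneg (by linarith) fun ω => ?_
          have h := (ik2_path S q t0 η hη Q hQ ω (N - t0) (by omega)).2
          rwa [show t0 + (N - t0) = N by omega] at h
  · rw [Finset.Ico_eq_empty (by omega), Finset.sum_empty]
    linarith

/-- the key lemma -/
theorem betao_sq_sum {n k N : ℕ} (hn : 2 ≤ n) (S : Set (Fin n)) (q : Fin k) (t0 : ℕ)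
    (η : ℝ) (hη : 0 ≤ η) (Q : ℕ → (Fin N → Ed n) → Set (Cg n k)) (hQ : Proc S t0 Q) :
    ∑ M ∈ Ico t0 N, E (fun ω => ind (good S q η (Q M ω)) *
      E (fun y : Fin n => betao S q η (Q M ω) y * (betao S q η (Q M ω) y - 1 / n))) ≤
      2 * η :=
  ik2_main (fun Z => pr_pair hn Z) S q t0 η hη Q hQ

end Pool.Agent.H285R2.Col
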