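import Pool.Agent.H285R2.Col.Defs

/-! Task LK: the averages of `D1` as averages over the whole edge sequence. -/

set_option autoImplicit false

namespace Pool.Agent.H285R2.Col
open Finset Pool.Agent.H999R2.KSat

theorem lk_cut {n k m s u : ℕ} (G : Fin m → Ed n) (W : Fin s → Ed n) :
    cut (SolC k G) W u = PS k (m + u) (Fin.append G W) := by
  ext a
  simp only [cut, SolC, PS, Set.mem_ofPred_eq]
  constructor
  · rintro ⟨h1, h2⟩ i
    refine Fin.addCases (motive := fun i => i.val < m + u → ok a (Fin.append G W i))
      (fun j _ => ?_) (fun j hj => ?_) i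
    · rw [Fin.append_left]; exact h1 j
    · rw [Fin.append_right]
      refine h2 j ?_
      simp only [Fin.val_natAdd] at hj
      omega
  · intro h
    refine ⟨fun j => ?_, fun l hl => ?_⟩
    · have := h (Fin.castAdd s j) (by simp only [Fin.val_castAdd]; omega)
      rwa [Fin.append_left] at this
    · have := h (Fin.natAdd m l) (by simp only [Fin.val_natAdd]; omega)
      rwa [Fin.append_right] at this

theorem D1_link (n k m s : ℕ) :
    E (fun G : Fin m → Ed n => E (fun v : Fin n => D1 s (SolC k G) v)) =
      E (fun ω : Fin (m + s) → Ed n => E (fun v : Fin n =>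
        ∑ u ∈ range s, ind (nontriv (PS k (m + u) ω) v))) := by
  rw [E_append (fun ω : Fin (m + s) → Ed n => E (fun v : Fin n =>
        ∑ u ∈ range s, ind (nontriv (PS k (m + u) ω) v)))]
  refine E_congr fun G => ?_
  unfold D1
  rw [E_comm]
  refine E_congr fun W => E_congr fun v => Finset.sum_congr rfl fun u _ => ?_
  rw [lk_cut]

end Pool.Agent.H285R2.Col
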