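import Pool.Agent.H285R2.Col.Defs

/-!
# Counting: sequences of distinct edges and graphs
-/

set_option autoImplicit false

namespace Pool.Agent.H285R2.Col
open Finset Filter Pool.Agent.H999R2.KSat

open Classical in
/-- number of sequences of `m` edges that are pairwise different as unordered pairs -/
noncomputable def dcC (n m : ℕ) : ℕ :=
  (univ.filter (fun F : Fin m → Ed n =>
    Function.Injective (fun i => s((F i).1.1, (F i).1.2)))).card

open Classical in
/-- the same, `k`-colourable -/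
noncomputable def dscC (k n m : ℕ) : ℕ :=
  (univ.filter (fun F : Fin m → Ed n =>
    Function.Injective (fun i => s((F i).1.1, (F i).1.2)) ∧ (SolC k F).Nonempty)).card

/-- the graph of a sequence of edges -/
def TC_graph {n m : ℕ} (F : Fin m → Ed n) : SimpleGraph (Fin n) :=
  SimpleGraph.fromEdgeSet (Set.range fun i => s((F i).1.1, (F i).1.2))

theorem TC_edgeSet {n m : ℕ} (F : Fin m → Ed n) :
    (TC_graph F).edgeSet = Set.range fun i => s((F i).1.1, (F i).1.2) := by
  rw [TC_graph, SimpleGraph.edgeSet_fromEdgeSet]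
  ext e
  constructor
  · rintro ⟨h, _⟩
    exact h
  · rintro ⟨i, rfl⟩
    exact ⟨⟨i, rfl⟩, fun h => (F i).2 (by simpa using h)⟩

/-- an edge as an unordered pair with an orientation -/
def TC_ori {n : ℕ} (e : Ed n) : {e : Sym2 (Fin n) // ¬ e.IsDiag} × Bool :=
  (⟨s(e.1.1, e.1.2), fun h => e.2 (by simpa using h)⟩, decide (e.1.1 < e.1.2))

theorem TC_ori_bij {n : ℕ} : Function.Bijective (TC_ori (n := n)) := by
  constructor
  · rintro ⟨⟨a, b⟩, h⟩ ⟨⟨c, d⟩, h'⟩ he
    simp only [TC_ori, Prod.mk.injEq, Subtype.mk.injEq, Sym2.eq_iff, decide_eq_decide] at he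
    simp only [ne_eq] at h h'
    obtain ⟨⟨rfl, rfl⟩ | ⟨rfl, rfl⟩, h2⟩ := he
    · rfl
    · exfalso
      rcases lt_trichotomy a b with h3 | h3 | h3
      · exact absurd (h2.1 h3) (not_lt.2 h3.le)
      · exact h h3
      · exact absurd (h2.2 h3) (not_lt.2 h3.le)
  · rintro ⟨⟨e, he⟩, b⟩
    induction e using Sym2.ind with
    | _ x y =>
      have hxy : x ≠ y := fun h => he (by simpa using h)
      by_cases hb : decide (x < y) = b
      · exact ⟨⟨(x, y), hxy⟩, by simp [TC_ori, hb]⟩
      · refine ⟨⟨(y, x), hxy.symm⟩, ?_⟩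
        simp only [TC_ori, Prod.mk.injEq, Subtype.mk.injEq]
        refine ⟨Sym2.eq_swap, ?_⟩
        rcases lt_or_gt_of_ne hxy with h | h
        · have h1 : decide (x < y) = true := decide_eq_true h
          have h2 : decide (y < x) = false := decide_eq_false (not_lt.2 h.le)
          rw [h1] at hb
          rw [h2]
          cases b
          · rfl
          · exact absurd rfl hb
        · have h1 : decide (x < y) = false := decide_eq_false (not_lt.2 h.le)
          have h2 : decide (y < x) = true := decide_eq_true h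
          rw [h1] at hb
          rw [h2]
          cases b
          · exact absurd rfl hb
          · rfl

/-- the orientation equivalence -/
noncomputable def TC_eq (n : ℕ) : Ed n ≃ {e : Sym2 (Fin n) // ¬ e.IsDiag} × Bool :=
  Equiv.ofBijective TC_ori TC_ori_bij

theorem TC_eq_fst {n : ℕ} (e : Ed n) : ((TC_eq n e).1 : Sym2 (Fin n)) = s(e.1.1, e.1.2) := rfl

theorem TC_symm {n : ℕ} (x : {e : Sym2 (Fin n) // ¬ e.IsDiag} × Bool) :
    s(((TC_eq n).symm x).1.1, ((TC_eq n).symm x).1.2) = x.1.1 := by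
  rw [← TC_eq_fst, Equiv.apply_symm_apply]

theorem TC_count (n m : ℕ) (P : SimpleGraph (Fin n) → Prop) :
    Nat.card {G : SimpleGraph (Fin n) // G.edgeSet.ncard = m ∧ P G} * (2 ^ m * m.factorial) =
      Nat.card {F : Fin m → Ed n //
        Function.Injective (fun i => s((F i).1.1, (F i).1.2)) ∧ P (TC_graph F)} := by
  classical
  have hnd : ∀ (G : SimpleGraph (Fin n)) (e : G.edgeSet), ¬ (e : Sym2 (Fin n)).IsDiag :=
    fun G e => G.not_isDiag_of_mem_edgeSet e.2
  -- the map
  let Φ : (Σ G : {G : SimpleGraph (Fin n) // G.edgeSet.ncard = m ∧ P G},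
      (Fin m ≃ G.1.edgeSet)) × (Fin m → Bool) → (Fin m → Ed n) :=
    fun x i => (TC_eq n).symm (⟨x.1.2 i, hnd _ _⟩, x.2 i)
  have hΦs : ∀ x i, s((Φ x i).1.1, (Φ x i).1.2) = (x.1.2 i : Sym2 (Fin n)) := fun x i =>
    TC_symm _
  have hΦg : ∀ x, TC_graph (Φ x) = x.1.1.1 := by
    intro x
    rw [TC_graph]
    have : (Set.range fun i => s((Φ x i).1.1, (Φ x i).1.2)) = x.1.1.1.edgeSet := by
      ext e
      constructor
      · rintro ⟨i, rfl⟩
        simp only [hΦs]
        exact (x.1.2 i).2
      · intro he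
        refine ⟨x.1.2.symm ⟨e, he⟩, ?_⟩
        simp only [hΦs, Equiv.apply_symm_apply]
    rw [this, SimpleGraph.fromEdgeSet_edgeSet]
  have hΦi : ∀ x, Function.Injective (fun i => s((Φ x i).1.1, (Φ x i).1.2)) := by
    intro x i j h
    simp only [hΦs] at h
    exact x.1.2.injective (Subtype.ext h)
  let Ψ : (Σ G : {G : SimpleGraph (Fin n) // G.edgeSet.ncard = m ∧ P G},
      (Fin m ≃ G.1.edgeSet)) × (Fin m → Bool) → {F : Fin m → Ed n //
        Function.Injective (fun i => s((F i).1.1, (F i).1.2)) ∧ P (TC_graph F)} :=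
    fun x => ⟨Φ x, hΦi x, by rw [hΦg]; exact x.1.1.2.2⟩
  have hbij : Function.Bijective Ψ := by
    constructor
    · rintro ⟨⟨⟨G, hG⟩, σ⟩, b⟩ ⟨⟨⟨G', hG'⟩, σ'⟩, b'⟩ h
      have h1 : Φ ⟨⟨⟨G, hG⟩, σ⟩, b⟩ = Φ ⟨⟨⟨G', hG'⟩, σ'⟩, b'⟩ := congrArg Subtype.val h
      have h2 : G = G' := by
        have e1 := hΦg ⟨⟨⟨G, hG⟩, σ⟩, b⟩
        rw [h1, hΦg] at e1
        exact e1.symm
      subst h2
      have h3 : σ = σ' := by
        ext i : 2
        have := hΦs ⟨⟨⟨G, hG⟩, σ⟩, b⟩ i
        rw [h1, hΦs] at this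
        exact this.symm
      subst h3
      have h4 : b = b' := by
        funext i
        have h5 := congrFun h1 i
        have h6 := congrArg (fun z => (TC_eq n z).2) h5
        simpa [Φ] using h6
      subst h4
      rfl
    · rintro ⟨F, hF, hP⟩
      have hcard : (TC_graph F).edgeSet.ncard = m := by
        rw [TC_edgeSet, ← Set.image_univ, Set.ncard_image_of_injective _ hF, Set.ncard_univ,
          Nat.card_fin]
      let σ : Fin m ≃ (TC_graph F).edgeSet :=
        (Equiv.ofInjective _ hF).trans (Equiv.setCongr (TC_edgeSet F).symm)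
      refine ⟨⟨⟨⟨TC_graph F, hcard, hP⟩, σ⟩, fun i => (TC_eq n (F i)).2⟩, ?_⟩
      apply Subtype.ext
      funext i
      change (TC_eq n).symm (⟨σ i, _⟩, (TC_eq n (F i)).2) = F i
      rw [Equiv.symm_apply_eq]
      rfl
  rw [← Nat.card_congr (Equiv.ofBijective Ψ hbij), Nat.card_prod]
  have hb : Nat.card (Fin m → Bool) = 2 ^ m := by simp
  have hs : Nat.card (Σ G : {G : SimpleGraph (Fin n) // G.edgeSet.ncard = m ∧ P G},
      (Fin m ≃ G.1.edgeSet)) =
      Nat.card {G : SimpleGraph (Fin n) // G.edgeSet.ncard = m ∧ P G} * m.factorial := by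
    rw [Nat.card_sigma]
    have : ∀ G : {G : SimpleGraph (Fin n) // G.edgeSet.ncard = m ∧ P G},
        Nat.card (Fin m ≃ G.1.edgeSet) = m.factorial := by
      intro G
      have h1 : Nat.card G.1.edgeSet = m := G.2.1
      have h2 : Nat.card (Fin m ≃ G.1.edgeSet) = Nat.card (Fin m ≃ Fin m) := by
        apply Nat.card_congr
        exact Equiv.equivCongr (Equiv.refl _) (Finite.equivFinOfCardEq h1)
      rw [h2, Nat.card_eq_fintype_card, Fintype.card_equiv (Equiv.refl _), Fintype.card_fin]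
    simp only [this]
    rw [Finset.sum_const, Finset.card_univ, Nat.card_eq_fintype_card, smul_eq_mul]
  rw [hb, hs]
  ring

theorem TC_sol {k n m : ℕ} (F : Fin m → Ed n) :
    (SolC k F).Nonempty ↔ (TC_graph F).Colorable k := by
  constructor
  · rintro ⟨a, ha⟩
    refine ⟨SimpleGraph.Coloring.mk a ?_⟩
    intro u v huv
    have h1 : s(u, v) ∈ (TC_graph F).edgeSet := huv
    rw [TC_edgeSet] at h1
    obtain ⟨i, hi⟩ := h1
    have h2 := ha i
    simp only [Sym2.eq_iff] at hi
    rcases hi with ⟨rfl, rfl⟩ | ⟨rfl, rfl⟩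
    · exact h2
    · exact Ne.symm h2
  · rintro ⟨C⟩
    refine ⟨fun v => C v, fun i => ?_⟩
    apply C.valid
    have : s((F i).1.1, (F i).1.2) ∈ (TC_graph F).edgeSet := by
      rw [TC_edgeSet]
      exact ⟨i, rfl⟩
    exact this

theorem den_countC (n m : ℕ) :
    Nat.card {G : SimpleGraph (Fin n) // G.edgeSet.ncard = m} * (2 ^ m * m.factorial) =
      dcC n m := by
  classical
  have h := TC_count n m (fun _ => True)
  rw [show Nat.card {G : SimpleGraph (Fin n) // G.edgeSet.ncard = m} =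
    Nat.card {G : SimpleGraph (Fin n) // G.edgeSet.ncard = m ∧ True} by simp, h, dcC]
  rw [Nat.card_eq_fintype_card, Fintype.card_subtype]
  simp

theorem num_countC (k n m : ℕ) :
    Nat.card {G : SimpleGraph (Fin n) // G.edgeSet.ncard = m ∧ G.Colorable k} *
      (2 ^ m * m.factorial) = dscC k n m := by
  classical
  rw [TC_count n m (fun G => G.Colorable k), dscC, Nat.card_eq_fintype_card,
    Fintype.card_subtype]
  congr 1
  ext F
  simp [TC_sol]

end Pool.Agent.H285R2.Col
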