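import Pool.Agent.H285R2.Col.PR

set_option autoImplicit false

namespace Pool.Agent.H285R2.Col

open Finset Pool.Agent.H999R2.KSat

theorem tr_three {n N : ℕ} (l j i : Fin N) (h1 : l ≠ j) (h2 : l ≠ i) (h3 : j ≠ i)
    (f : Ed n → Ed n → Ed n → ℝ) :
    E (fun ω : Fin N → Ed n => f (ω l) (ω j) (ω i)) =
      E (fun _ : Fin N → Ed n => E (fun a : Ed n => E (fun b : Ed n => E (fun c : Ed n =>
        f a b c)))) := by
  rw [E_update i]
  have e1 : ∀ (ω : Fin N → Ed n), E (fun y : Ed n => f (Function.update ω i y l)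
      (Function.update ω i y j) (Function.update ω i y i)) = E (fun c => f (ω l) (ω j) c) := by
    intro ω
    refine E_congr fun y => ?_
    rw [Function.update_self, Function.update_of_ne h2, Function.update_of_ne h3]
  rw [E_congr e1, E_update j]
  have e2 : ∀ (ω : Fin N → Ed n), E (fun y : Ed n => E (fun c => f (Function.update ω j y l)
      (Function.update ω j y j) c)) = E (fun b => E (fun c => f (ω l) b c)) := by
    intro ω
    refine E_congr fun y => ?_
    rw [Function.update_self, Function.update_of_ne h1]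
  rw [E_congr e2, E_update l]
  refine E_congr fun ω => E_congr fun y => ?_
  rw [Function.update_self]

theorem tr_inc_inc {n : ℕ} (c : Ed n) (x w : Fin n) (hxw : x ≠ w) (h1 : inc c x)
    (h2 : inc c w) : oth c x = w := by
  unfold oth
  unfold inc at h1 h2
  split_ifs with h
  · rcases h2 with h2 | h2
    · exact absurd (h.symm.trans h2) hxw
    · exact h2
  · rcases h1 with h1 | h1
    · exact absurd h1 h
    · rcases h2 with h2 | h2
      · exact h2
      · exact absurd (h1.symm.trans h2) hxw

theorem tr_E_eq {n : ℕ} (w : Fin n) : E (fun y : Fin n => ind (y = w)) = 1 / n := by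
  classical
  have h : ∀ y : Fin n, ind (y = w) = if y = w then (1 : ℝ) else 0 := by
    intro y
    by_cases hy : y = w
    · rw [ind_true hy, if_pos hy]
    · rw [ind_false hy, if_neg hy]
  unfold E
  rw [Finset.sum_congr rfl (fun y _ => h y), Finset.sum_ite_eq' univ w (fun _ => (1 : ℝ)),
    if_pos (mem_univ _), Fintype.card_fin]

theorem tri_prob {n : ℕ} (N : ℕ) (hn : 2 ≤ n) (v : Fin n) :
    E (fun ω : Fin N → Ed n => ind (Tri ω v)) ≤
      (N : ℝ) ^ 3 * ((2 / ((n : ℝ) - 1)) ^ 3 * (1 / n)) := by
  have hn1 : (0 : ℝ) < (n : ℝ) - 1 := by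
    have : (2 : ℝ) ≤ n := by exact_mod_cast hn
    linarith
  have hD0' : 0 ≤ 2 / ((n : ℝ) - 1) := by positivity
  have hInc : ∀ (v : Fin n) (h : Fin n → ℝ), (∀ y, 0 ≤ h y) →
    E (fun e : Ed n => ind (inc e v) * h (oth e v)) ≤ 2 / ((n : ℝ) - 1) * E h :=
    fun v h h0 => E_inc hn v h h0
  generalize 2 / ((n : ℝ) - 1) = D at hD0' hInc ⊢
  have hD0 : 0 ≤ D := hD0'
  have hn0 : (0 : ℝ) ≤ 1 / n := by positivity
  have : Nonempty (Fin n) := ⟨v⟩
  have hB : 0 ≤ D ^ 3 * (1 / (n : ℝ)) := by positivity
  let P : Fin N → Fin N → Fin N → (Fin N → Ed n) → Prop := fun l j i ω =>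
    l ≠ j ∧ l ≠ i ∧ j ≠ i ∧ inc (ω l) v ∧ inc (ω j) v ∧
    oth (ω l) v ≠ oth (ω j) v ∧ inc (ω i) (oth (ω l) v) ∧ inc (ω i) (oth (ω j) v)
  have h1 : ∀ ω : Fin N → Ed n, ind (Tri ω v) ≤ ∑ l, ∑ j, ∑ i, ind (P l j i ω) := by
    intro ω
    refine (ind_exists_le _).trans (Finset.sum_le_sum fun l _ => ?_)
    refine (ind_exists_le _).trans (Finset.sum_le_sum fun j _ => ?_)
    exact ind_exists_le _
  refine (E_mono h1).trans ?_
  rw [E_sum]
  have h2 : ∀ l j i : Fin N, E (fun ω => ind (P l j i ω)) ≤ D ^ 3 * (1 / (n : ℝ)) := by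
    intro l j i
    by_cases hd : l ≠ j ∧ l ≠ i ∧ j ≠ i
    · obtain ⟨d1, d2, d3⟩ := hd
      have e1 : E (fun ω => ind (P l j i ω)) = E (fun ω : Fin N → Ed n =>
          (fun a b c : Ed n => ind (inc a v ∧ inc b v ∧ oth a v ≠ oth b v ∧
            inc c (oth a v) ∧ inc c (oth b v))) (ω l) (ω j) (ω i)) := by
        refine E_congr fun ω => ind_congr ?_
        simp only [P]
        constructor
        · rintro ⟨_, _, _, h⟩; exact h
        · intro h; exact ⟨d1, d2, d3, h⟩
      have e2 := tr_three l j i d1 d2 d3 (fun a b c : Ed n => ind (inc a v ∧ inc b v ∧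
        oth a v ≠ oth b v ∧ inc c (oth a v) ∧ inc c (oth b v)))
      rw [e1]
      refine e2.le.trans ?_
      refine E_le_of_nonneg hB fun _ => ?_
      have b1 : ∀ a b : Ed n, E (fun c : Ed n => ind (inc a v ∧ inc b v ∧ oth a v ≠ oth b v ∧
            inc c (oth a v) ∧ inc c (oth b v))) ≤ ind (inc a v) * (ind (inc b v) *
              (D * (1 / n))) := by
        intro a b
        by_cases hab : inc a v ∧ inc b v ∧ oth a v ≠ oth b v
        · obtain ⟨ha, hb, hne⟩ := hab
          rw [ind_true ha, ind_true hb, one_mul, one_mul]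
          calc E (fun c : Ed n => ind (inc a v ∧ inc b v ∧ oth a v ≠ oth b v ∧
            inc c (oth a v) ∧ inc c (oth b v)))
              ≤ E (fun c : Ed n => ind (inc c (oth a v)) *
                  ind (oth c (oth a v) = oth b v)) := by
                refine E_mono fun c => ?_
                rw [← ind_and]
                apply ind_mono
                rintro ⟨_, _, _, h5, h6⟩
                exact ⟨h5, tr_inc_inc c _ _ hne h5 h6⟩
            _ ≤ D * E (fun y => ind (y = oth b v)) :=
                hInc (oth a v) (fun y => ind (y = oth b v)) (fun y => ind_nonneg _)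
            _ = D * (1 / n) := by rw [tr_E_eq]
        · have : E (fun c : Ed n => ind (inc a v ∧ inc b v ∧ oth a v ≠ oth b v ∧
            inc c (oth a v) ∧ inc c (oth b v))) = 0 := by
            rw [← E_zero (α := Ed n)]
            refine E_congr fun c => ind_false ?_
            rintro ⟨h1, h2, h3, _⟩
            exact hab ⟨h1, h2, h3⟩
          rw [this]
          exact mul_nonneg (ind_nonneg _) (mul_nonneg (ind_nonneg _) (by positivity))
      have b2 : E (fun b : Ed n => ind (inc b v)) ≤ D := by
        have h5 := hInc v (fun _ => (1 : ℝ)) (fun _ => zero_le_one)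
        rw [E_const] at h5
        simpa using h5
      calc E (fun a : Ed n => E (fun b : Ed n => E (fun c : Ed n => ind (inc a v ∧ inc b v ∧
            oth a v ≠ oth b v ∧ inc c (oth a v) ∧ inc c (oth b v)))))
          ≤ E (fun a : Ed n => E (fun b : Ed n => ind (inc a v) * (ind (inc b v) *
              (D * (1 / n))))) := E_mono fun a => E_mono fun b => b1 a b
        _ = E (fun a : Ed n => ind (inc a v) * (E (fun b : Ed n => ind (inc b v)) *
              (D * (1 / n)))) := by
            refine E_congr fun a => ?_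
            rw [E_mul_left, E_mul_right]
        _ = E (fun a : Ed n => ind (inc a v)) * (E (fun b : Ed n => ind (inc b v)) *
              (D * (1 / n))) := by rw [E_mul_right]
        _ ≤ D * (D * (D * (1 / n))) := by
            have n1 : 0 ≤ E (fun b : Ed n => ind (inc b v)) := E_nonneg fun b => ind_nonneg _
            have n2 : 0 ≤ D * (1 / (n : ℝ)) := by positivity
            apply mul_le_mul b2 (mul_le_mul_of_nonneg_right b2 n2) (mul_nonneg n1 n2) hD0
        _ = D ^ 3 * (1 / (n : ℝ)) := by ring
    · have : E (fun ω => ind (P l j i ω)) = 0 := by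
        rw [← E_zero (α := Fin N → Ed n)]
        refine E_congr fun ω => ind_false ?_
        rintro ⟨h1, h2, h3, _⟩
        exact hd ⟨h1, h2, h3⟩
      rw [this]; exact hB
  calc ∑ l, E (fun ω => ∑ j, ∑ i, ind (P l j i ω))
      ≤ ∑ _l : Fin N, (N : ℝ) * (N * (D ^ 3 * (1 / (n : ℝ)))) := by
        refine Finset.sum_le_sum fun l _ => ?_
        rw [E_sum]
        calc ∑ j, E (fun ω => ∑ i, ind (P l j i ω))
            ≤ ∑ _j : Fin N, ((N : ℝ) * (D ^ 3 * (1 / (n : ℝ)))) := by
              refine Finset.sum_le_sum fun j _ => ?_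
              rw [E_sum]
              calc ∑ i, E (fun ω => ind (P l j i ω)) ≤ ∑ _i : Fin N, (D ^ 3 * (1 / (n : ℝ))) :=
                    Finset.sum_le_sum fun i _ => h2 l j i
                _ = _ := by rw [Finset.sum_const, Finset.card_univ, Fintype.card_fin, nsmul_eq_mul]
          _ = _ := by rw [Finset.sum_const, Finset.card_univ, Fintype.card_fin, nsmul_eq_mul]
    _ = _ := by
      rw [Finset.sum_const, Finset.card_univ, Fintype.card_fin, nsmul_eq_mul]
      ring

end Pool.Agent.H285R2.Col
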